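import Pool.Agent.H499R2.LT.D2
import Pool.Agent.R468.MF.Dec3

/-!
Almost harmonic families of functions: uniform bounds.
-/

set_option autoImplicit false

namespace Pool.Agent.R468.MG

open Finset

/-- nonnegative functions which are almost harmonic from above -/
structure Hf (α β : ℕ) (K : ℝ) (f : ℤ → ℝ → ℝ) : Prop where
  nn : ∀ j t, 0 ≤ f j t
  har : ∀ (j : ℤ) (t : ℝ), 1002 ≤ t →
    f j t ≤ (f (j - β) (t - Real.log 2) + f (j - β - α) (t + Real.log (3 / 2))) / 2 + K / t ^ 2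
  cov : ∀ (j : ℤ) (t s : ℝ), t ≤ s → s ≤ t + Real.log 2 → f j s ≤ f j t + 2 * f j (t + Real.log 2)

/-- the index after `p.1` steps with `p.2` odd ones -/
def jx (α β : ℕ) (j : ℤ) (p : ℕ × ℕ) : ℤ := j - β * p.1 - α * p.2

/-- the size after `p.1` steps with `p.2` odd ones -/
noncomputable def tx (t : ℝ) (p : ℕ × ℕ) : ℝ := t - p.1 * Real.log 2 + p.2 * Real.log 3

noncomputable def wx (n b : ℕ) : ℝ := (n.choose b : ℝ) / 2 ^ n

theorem wx_nonneg (n b : ℕ) : 0 ≤ wx n b := by unfold wx; positivity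

theorem wx_sum (n : ℕ) : ∑ b ∈ range (n + 1), wx n b = 1 := by
  unfold wx
  rw [← sum_div]
  have h : ∑ b ∈ range (n + 1), (n.choose b : ℝ) = 2 ^ n := by exact_mod_cast Nat.sum_range_choose n
  rw [h]
  exact div_self (by positivity)

theorem wx_var (n : ℕ) : ∑ b ∈ range (n + 1), wx n b * (2 * (b : ℝ) - (n : ℝ)) ^ 2 = (n : ℝ) := by
  induction n with
  | zero => simp [wx]
  | succ n ih =>
    unfold wx at ih ⊢
    rw [Pool.Agent.H499R2.LT.D2Aux.pascal n (fun b => (2 * (b : ℝ) - ((n + 1 : ℕ) : ℝ)) ^ 2)]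
    have h : ∀ b ∈ range (n + 1), (n.choose b : ℝ) / 2 ^ n *
        (((2 * (b : ℝ) - ((n + 1 : ℕ) : ℝ)) ^ 2 + (2 * ((b + 1 : ℕ) : ℝ) - ((n + 1 : ℕ) : ℝ)) ^ 2) / 2) =
        (n.choose b : ℝ) / 2 ^ n * (2 * (b : ℝ) - (n : ℝ)) ^ 2 + wx n b := by
      intro b _
      unfold wx
      push_cast
      ring
    rw [sum_congr rfl h, sum_add_distrib, ih, wx_sum]
    push_cast
    ring

theorem wx_cheb {n : ℕ} {a : ℝ} (ha : 0 < a) (s : Finset ℕ) (hs : ∀ b ∈ s, b ≤ n ∧ a ≤ |2 * (b : ℝ) - n|) :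
    ∑ b ∈ s, wx n b ≤ n / a ^ 2 := by
  rw [le_div_iff₀ (by positivity), ← wx_var n, sum_mul]
  have h1 : s ⊆ range (n + 1) := fun b hb => mem_range.2 (by have := (hs b hb).1; omega)
  refine le_trans ?_ (sum_le_sum_of_subset_of_nonneg h1 fun b _ _ => mul_nonneg (wx_nonneg n b) (sq_nonneg _))
  apply sum_le_sum
  intro b hb
  apply mul_le_mul_of_nonneg_left _ (wx_nonneg n b)
  rw [← sq_abs (2 * (b : ℝ) - n)]
  exact pow_le_pow_left₀ ha.le (hs b hb).2 2

variable {α β : ℕ} {K : ℝ} {f : ℤ → ℝ → ℝ}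

/-- iteration -/
theorem iter (h : Hf α β K f) (hK : 0 ≤ K) (j : ℤ) {t τ : ℝ} (hτ : 1002 ≤ τ) (n : ℕ) (ht : τ + n ≤ t) :
    f j t ≤ ∑ b ∈ range (n + 1), wx n b * f (jx α β j (n, b)) (tx t (n, b)) + n * (K / τ ^ 2) := by
  have hl2 : 0 < Real.log 2 := Real.log_pos (by norm_num)
  have hl21 : Real.log 2 < 1 := by linarith [Real.log_two_lt_d9]
  have hl3 : 0 < Real.log 3 := Real.log_pos (by norm_num)
  have hl32 : Real.log (3 / 2) = Real.log 3 - Real.log 2 := Real.log_div (by norm_num) (by norm_num)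
  induction n with
  | zero => simp [wx, jx, tx]
  | succ n ih =>
    push_cast at ht
    have h1 := ih (by linarith)
    unfold wx at h1 ⊢
    rw [Pool.Agent.H499R2.LT.D2Aux.pascal n (fun b => f (jx α β j (n + 1, b)) (tx t (n + 1, b)))]
    have h2 : ∀ b ∈ range (n + 1), (n.choose b : ℝ) / 2 ^ n * f (jx α β j (n, b)) (tx t (n, b)) ≤
        (n.choose b : ℝ) / 2 ^ n * ((f (jx α β j (n + 1, b)) (tx t (n + 1, b)) +
          f (jx α β j (n + 1, b + 1)) (tx t (n + 1, b + 1))) / 2) + wx n b * (K / τ ^ 2) := by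
      intro b _
      have h3 : τ ≤ tx t (n, b) := by
        unfold tx
        simp only
        have g1 : (n : ℝ) * Real.log 2 ≤ n * 1 := mul_le_mul_of_nonneg_left hl21.le (Nat.cast_nonneg _)
        have g2 : (0 : ℝ) ≤ b * Real.log 3 := by positivity
        linarith
      have h4 := h.har (jx α β j (n, b)) (tx t (n, b)) (by linarith)
      have e1 : jx α β j (n, b) - β = jx α β j (n + 1, b) := by unfold jx; push_cast; ring
      have e2 : jx α β j (n, b) - β - α = jx α β j (n + 1, b + 1) := by unfold jx; push_cast; ring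
      have e3 : tx t (n, b) - Real.log 2 = tx t (n + 1, b) := by unfold tx; push_cast; ring
      have e4 : tx t (n, b) + Real.log (3 / 2) = tx t (n + 1, b + 1) := by
        rw [hl32]; unfold tx; push_cast; ring
      rw [e1] at h4
      have e2' : jx α β j (n + 1, b) - α = jx α β j (n + 1, b + 1) := by rw [← e1, e2]
      rw [e2', e3, e4] at h4
      have h5 : K / tx t (n, b) ^ 2 ≤ K / τ ^ 2 :=
        div_le_div_of_nonneg_left hK (by positivity) (pow_le_pow_left₀ (by linarith) h3 2)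
      have h6 : 0 ≤ (n.choose b : ℝ) / 2 ^ n := by positivity
      have h7 := mul_le_mul_of_nonneg_left (h4.trans (add_le_add_right h5 _)) h6
      unfold wx
      rw [mul_add] at h7
      linarith
    have h3 := sum_le_sum h2
    rw [sum_add_distrib, ← sum_mul, wx_sum, one_mul] at h3
    push_cast
    linarith

/-- pairs with the same index and nearly the same size are equal -/
theorem pair_eq (hab : 1 ≤ α + β) {j : ℤ} {t : ℝ} {p q : ℕ × ℕ} (h1 : jx α β j p = jx α β j q)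
    (h2 : tx t p < tx t q + Real.log 2) (h3 : tx t q < tx t p + Real.log 2) : p = q := by
  obtain ⟨n, b⟩ := p
  obtain ⟨n', b'⟩ := q
  unfold jx at h1
  unfold tx at h2 h3
  simp only at h1 h2 h3
  have g1 : (3 : ℝ) ^ b * 2 ^ n' < 2 * (3 ^ b' * 2 ^ n) := by
    rw [← Real.log_lt_log_iff (by positivity) (by positivity), Real.log_mul (by positivity) (by positivity),
      Real.log_mul (by positivity) (by positivity), Real.log_mul (by positivity) (by positivity),
      Real.log_pow, Real.log_pow, Real.log_pow, Real.log_pow]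
    linarith
  have g2 : (3 : ℝ) ^ b' * 2 ^ n < 2 * (3 ^ b * 2 ^ n') := by
    rw [← Real.log_lt_log_iff (by positivity) (by positivity), Real.log_mul (by positivity) (by positivity),
      Real.log_mul (by positivity) (by positivity), Real.log_mul (by positivity) (by positivity),
      Real.log_pow, Real.log_pow, Real.log_pow, Real.log_pow]
    linarith
  have f1 : 3 ^ b * 2 ^ n' < 2 * (3 ^ b' * 2 ^ n) := by exact_mod_cast g1
  have f2 : 3 ^ b' * 2 ^ n < 2 * (3 ^ b * 2 ^ n') := by exact_mod_cast g2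
  have f3 : α * b + β * n = α * b' + β * n' := by
    have : (α : ℤ) * b + β * n = α * b' + β * n' := by linarith
    exact_mod_cast this
  obtain ⟨r1, r2⟩ := Pool.Agent.TH977.LL.pair_inj hab f3 f1 f2
  rw [r1, r2]

/-- one scale -/
theorem scale_sum (h : Hf α β K f) (hab : 1 ≤ α + β) (j : ℤ) (t : ℝ) (P : Finset (ℕ × ℕ)) {T E : ℝ}
    (hT : ∀ p ∈ P, T ≤ tx t p ∧ tx t p < T + Real.log 2)
    (hc1 : ∀ J : Finset ℤ, (∀ i ∈ J, ∃ p ∈ P, i = jx α β j p) → ∑ i ∈ J, f i T ≤ E)
    (hc2 : ∀ J : Finset ℤ, (∀ i ∈ J, ∃ p ∈ P, i = jx α β j p) → ∑ i ∈ J, f i (T + Real.log 2) ≤ E) :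
    ∑ p ∈ P, f (jx α β j p) (tx t p) ≤ 3 * E := by
  classical
  have h1 : ∑ p ∈ P, f (jx α β j p) (tx t p) ≤ ∑ p ∈ P, (f (jx α β j p) T + 2 * f (jx α β j p) (T + Real.log 2)) := by
    apply sum_le_sum
    intro p hp
    exact h.cov _ _ _ (hT p hp).1 (hT p hp).2.le
  have hinj : ∀ p ∈ P, ∀ q ∈ P, jx α β j p = jx α β j q → p = q := by
    intro p hp q hq he
    exact pair_eq hab (t := t) he (by linarith [(hT p hp).2, (hT q hq).1]) (by linarith [(hT q hq).2, (hT p hp).1])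
  have h2 : ∀ s : ℝ, ∑ p ∈ P, f (jx α β j p) s = ∑ i ∈ P.image (jx α β j), f i s := by
    intro s
    rw [sum_image]
    intro p hp q hq he
    exact hinj p hp q hq he
  have hJ : ∀ i ∈ P.image (jx α β j), ∃ p ∈ P, i = jx α β j p := by
    intro i hi
    rw [mem_image] at hi
    obtain ⟨p, hp, rfl⟩ := hi
    exact ⟨p, hp, rfl⟩
  rw [sum_add_distrib, ← mul_sum, h2, h2] at h1
  linarith [hc1 _ hJ, hc2 _ hJ]

/-- several scales -/
theorem scales_sum (h : Hf α β K f) (hab : 1 ≤ α + β) (j : ℤ) (t : ℝ) (P : Finset (ℕ × ℕ)) {T E : ℝ} (M : ℕ)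
    (hT : ∀ p ∈ P, T ≤ tx t p ∧ tx t p < T + M * Real.log 2)
    (hc : ∀ i < M, ∀ s : ℝ, (s = T + i * Real.log 2 ∨ s = T + i * Real.log 2 + Real.log 2) → ∀ J : Finset ℤ,
      (∀ k ∈ J, ∃ p ∈ P, k = jx α β j p ∧ T + i * Real.log 2 ≤ tx t p ∧ tx t p < T + i * Real.log 2 + Real.log 2) →
      ∑ k ∈ J, f k s ≤ E) :
    ∑ p ∈ P, f (jx α β j p) (tx t p) ≤ 3 * E * M := by
  classical
  have hl2 : 0 < Real.log 2 := Real.log_pos (by norm_num)
  set g : ℕ × ℕ → ℕ := fun p => ⌊(tx t p - T) / Real.log 2⌋₊ with hg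
  have hg1 : ∀ p ∈ P, T + g p * Real.log 2 ≤ tx t p ∧ tx t p < T + g p * Real.log 2 + Real.log 2 := by
    intro p hp
    have h1 : 0 ≤ (tx t p - T) / Real.log 2 := div_nonneg (by linarith [(hT p hp).1]) hl2.le
    have h2 := Nat.floor_le h1
    have h3 := Nat.lt_floor_add_one ((tx t p - T) / Real.log 2)
    rw [le_div_iff₀ hl2] at h2
    rw [div_lt_iff₀ hl2] at h3
    simp only [hg]
    constructor
    · linarith
    · linarith
  have hg2 : ∀ p ∈ P, g p < M := by
    intro p hp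
    have h1 := (hg1 p hp).1
    have h2 := (hT p hp).2
    have h3 : (g p : ℝ) * Real.log 2 < M * Real.log 2 := by linarith
    exact_mod_cast lt_of_mul_lt_mul_right h3 hl2.le
  rw [← sum_fiberwise_of_maps_to (s := P) (t := range M) (g := g) (fun p hp => mem_range.2 (hg2 p hp))]
  have h1 : ∀ i ∈ range M, ∑ p ∈ P.filter (fun p => g p = i), f (jx α β j p) (tx t p) ≤ 3 * E := by
    intro i hi
    have hF : ∀ p ∈ P.filter (fun p => g p = i), T + i * Real.log 2 ≤ tx t p ∧ tx t p < T + i * Real.log 2 + Real.log 2 := by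
      intro p hp
      rw [mem_filter] at hp
      have := hg1 p hp.1
      rwa [hp.2] at this
    apply scale_sum h hab j t _ hF
    · intro J hJ
      apply hc i (mem_range.1 hi) _ (Or.inl rfl) J
      intro k hk
      obtain ⟨p, hp, e⟩ := hJ k hk
      exact ⟨p, (mem_filter.1 hp).1, e, hF p hp⟩
    · intro J hJ
      apply hc i (mem_range.1 hi) _ (Or.inr rfl) J
      intro k hk
      obtain ⟨p, hp, e⟩ := hJ k hk
      exact ⟨p, (mem_filter.1 hp).1, e, hF p hp⟩
  refine (sum_le_sum h1).trans (le_of_eq ?_)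
  rw [sum_const, card_range, nsmul_eq_mul]
  ring

end Pool.Agent.R468.MG
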