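import Pool.Agent.R468.MG.A

/-!
Almost harmonic families of functions: uniform bounds and decay away from the mean.
-/

set_option autoImplicit false

namespace Pool.Agent.R468.MG

open Finset

variable {α β : ℕ} {K : ℝ} {f : ℤ → ℝ → ℝ}

open scoped Classical in
/-- averaging over the numbers of steps -/
theorem avg (h : Hf α β K f) (hK : 0 ≤ K) (j : ℤ) {t : ℝ} (ht : 2000 ≤ t) (Q : ℕ → ℕ → Prop) {D E : ℝ}
    (hE : 0 ≤ E)
    (hD : ∀ n ∈ Ico ⌊t / 20⌋₊ (2 * ⌊t / 20⌋₊), ∑ b ∈ (range (n + 1)).filter (fun b => ¬ Q n b),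
      wx n b * f (jx α β j (n, b)) (tx t (n, b)) ≤ D)
    (hnear : ∀ P : Finset (ℕ × ℕ), (∀ p ∈ P, (⌊t / 20⌋₊ ≤ p.1 ∧ p.1 < 2 * ⌊t / 20⌋₊) ∧ p.2 ≤ p.1 ∧ Q p.1 p.2) →
      ∑ p ∈ P, f (jx α β j p) (tx t p) ≤ 12 * E * ⌊t / 20⌋₊) :
    f j t ≤ 60 * E / Real.sqrt t + D + K / t := by
  obtain ⟨N, hN⟩ : ∃ N : ℕ, N = ⌊t / 20⌋₊ := ⟨_, rfl⟩
  rw [← hN] at hD hnear
  have ht0 : 0 < t := by linarith
  have hN1 : (N : ℝ) ≤ t / 20 := by rw [hN]; exact Nat.floor_le (by linarith)
  have hN2 : t / 20 < N + 1 := by rw [hN]; exact Nat.lt_floor_add_one _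
  have hN3 : t / 25 ≤ N := by linarith
  have hN0 : (0 : ℝ) < N := by linarith
  set τ : ℝ := t - 2 * N with hτ
  have hτ1 : 9 / 10 * t ≤ τ := by rw [hτ]; linarith
  have hone : ∀ n ∈ Ico N (2 * N), f j t ≤
      1 / Real.sqrt N * ∑ b ∈ (range (n + 1)).filter (fun b => Q n b), f (jx α β j (n, b)) (tx t (n, b)) +
        (D + 2 * N * (K / τ ^ 2)) := by
    intro n hn
    rw [mem_Ico] at hn
    have hnR : (N : ℝ) ≤ n := by exact_mod_cast hn.1
    have hnR2 : (n : ℝ) ≤ 2 * N := by exact_mod_cast hn.2.le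
    have hn1 : 1 ≤ n := by
      have : (0 : ℝ) < n := by linarith
      exact_mod_cast this
    have h1 := iter h hK j (t := t) (τ := τ) (by linarith) n (by rw [hτ]; linarith)
    rw [← sum_filter_add_sum_filter_not (range (n + 1)) (fun b => Q n b)] at h1
    have h2 := hD n (mem_Ico.2 hn)
    have h3 : ∑ b ∈ (range (n + 1)).filter (fun b => Q n b), wx n b * f (jx α β j (n, b)) (tx t (n, b)) ≤
        1 / Real.sqrt N * ∑ b ∈ (range (n + 1)).filter (fun b => Q n b), f (jx α β j (n, b)) (tx t (n, b)) := by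
      rw [mul_sum]
      apply sum_le_sum
      intro b _
      have g1 : wx n b ≤ 1 / Real.sqrt n := Pool.Agent.H499R2.LT.sup_aux n b hn1
      have g2 : 1 / Real.sqrt n ≤ 1 / Real.sqrt N :=
        one_div_le_one_div_of_le (Real.sqrt_pos.2 hN0) (Real.sqrt_le_sqrt hnR)
      exact mul_le_mul_of_nonneg_right (g1.trans g2) (h.nn _ _)
    have h4 : (n : ℝ) * (K / τ ^ 2) ≤ 2 * N * (K / τ ^ 2) := mul_le_mul_of_nonneg_right hnR2 (by positivity)
    linarith
  have hsum := sum_le_sum hone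
  rw [sum_const, Nat.card_Ico, show 2 * N - N = N by omega, nsmul_eq_mul, sum_add_distrib, sum_const,
    Nat.card_Ico, show 2 * N - N = N by omega, nsmul_eq_mul, ← mul_sum] at hsum
  have hdbl : ∑ n ∈ Ico N (2 * N), ∑ b ∈ (range (n + 1)).filter (fun b => Q n b),
      f (jx α β j (n, b)) (tx t (n, b)) ≤ 12 * E * N := by
    have e1 : ∑ n ∈ Ico N (2 * N), ∑ b ∈ (range (n + 1)).filter (fun b => Q n b),
        f (jx α β j (n, b)) (tx t (n, b)) =
        ∑ p ∈ ((Ico N (2 * N)).sigma (fun n => (range (n + 1)).filter (fun b => Q n b))).image (fun q => (q.1, q.2)),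
          f (jx α β j p) (tx t p) := by
      rw [sum_image]
      · rw [sum_sigma]
      · rintro ⟨a, b⟩ _ ⟨c, d⟩ _ heq
        simp only [Prod.mk.injEq] at heq
        obtain ⟨rfl, rfl⟩ := heq
        rfl
    rw [e1]
    apply hnear
    intro p hp
    rw [mem_image] at hp
    obtain ⟨⟨n, b⟩, hq, rfl⟩ := hp
    rw [mem_sigma, mem_Ico, mem_filter, mem_range] at hq
    exact ⟨hq.1, by have := hq.2.1; simp only at this ⊢; omega, hq.2.2⟩
  set s := Real.sqrt N with hs
  have hs0 : 0 < s := Real.sqrt_pos.2 hN0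
  have hss : s ^ 2 = N := Real.sq_sqrt hN0.le
  set r := Real.sqrt t with hr
  have hr0 : 0 < r := Real.sqrt_pos.2 ht0
  have hrs : r ≤ 5 * s := by
    apply Real.sqrt_le_iff.2
    refine ⟨by positivity, ?_⟩
    rw [mul_pow, hss]
    linarith
  have h1 : (N : ℝ) * f j t ≤ N * (12 * E / s + (D + 2 * N * (K / τ ^ 2))) := by
    have g1 := mul_le_mul_of_nonneg_left hdbl (show 0 ≤ 1 / s by positivity)
    have e1 : 1 / s * (12 * E * N) = N * (12 * E / s) := by ring
    rw [mul_add]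
    linarith
  have h2 := le_of_mul_le_mul_left h1 hN0
  have h3 : 12 * E / s ≤ 60 * E / r := by
    rw [div_le_div_iff₀ hs0 hr0]
    have := mul_le_mul_of_nonneg_left hrs (show 0 ≤ 12 * E by positivity)
    linarith
  have h4 : 2 * N * (K / τ ^ 2) ≤ K / t := by
    have g1 : K / τ ^ 2 ≤ K / (9 / 10 * t) ^ 2 :=
      div_le_div_of_nonneg_left hK (by positivity) (pow_le_pow_left₀ (by positivity) hτ1 2)
    have g2 : 2 * N * (K / τ ^ 2) ≤ t / 10 * (K / (9 / 10 * t) ^ 2) :=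
      mul_le_mul (by linarith) g1 (by positivity) (by positivity)
    refine g2.trans ?_
    have e1 : t / 10 * (K / (9 / 10 * t) ^ 2) = 10 / 81 * (K / t) := by field_simp; norm_num
    rw [e1]
    have : 0 ≤ K / t := by positivity
    linarith
  linarith

/-- the sizes of the pairs -/
theorem tx_range {t : ℝ} {N : ℕ} {p : ℕ × ℕ} (h1 : p.1 < 2 * N) (h2 : p.2 ≤ p.1) :
    t - 2 * N * Real.log 2 ≤ tx t p ∧ tx t p < t - 2 * N * Real.log 2 + (4 * N : ℕ) * Real.log 2 := by
  have hl2 : 0 < Real.log 2 := Real.log_pos (by norm_num)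
  have hl3 : 0 < Real.log 3 := Real.log_pos (by norm_num)
  have hl32 : Real.log 3 < 2 * Real.log 2 := by
    rw [← Real.log_rpow (by norm_num)]
    apply Real.log_lt_log (by norm_num)
    norm_num
  have g1 : (p.1 : ℝ) < 2 * N := by exact_mod_cast h1
  have g2 : (p.2 : ℝ) ≤ p.1 := by exact_mod_cast h2
  have g3 : (0 : ℝ) ≤ p.2 := Nat.cast_nonneg _
  unfold tx
  push_cast
  constructor
  · have := mul_le_mul_of_nonneg_right g1.le hl2.le
    have : 0 ≤ (p.2 : ℝ) * Real.log 3 := by positivity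
    linarith
  · have a1 := mul_le_mul_of_nonneg_right g2 hl3.le
    have a2 : (p.1 : ℝ) * Real.log 3 ≤ p.1 * (2 * Real.log 2) := mul_le_mul_of_nonneg_left hl32.le (Nat.cast_nonneg _)
    have a3 := mul_lt_mul_of_pos_right g1 hl2
    linarith

/-- a uniform bound -/
theorem up_E (h : Hf α β K f) (hab : 1 ≤ α + β) (hK : 0 ≤ K) {E T₀ : ℝ} (hE : 0 ≤ E)
    (hcol : ∀ t : ℝ, T₀ ≤ t → ∀ J : Finset ℤ, ∑ i ∈ J, f i t ≤ E) (t : ℝ) (ht : 2000 ≤ t) (htT : 2 * T₀ ≤ t) (j : ℤ) :
    f j t ≤ 60 * E / Real.sqrt t + K / t := by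
  classical
  have hl2 : 0 < Real.log 2 := Real.log_pos (by norm_num)
  have hl21 : Real.log 2 < 1 := by linarith [Real.log_two_lt_d9]
  have h1 := avg h hK j ht (fun _ _ => True) (D := 0) (E := E) hE (by
    intro n _
    simp) (by
    intro P hP
    have hN1 : (⌊t / 20⌋₊ : ℝ) ≤ t / 20 := Nat.floor_le (by linarith)
    have h1 := scales_sum h hab j t P (T := t - 2 * ⌊t / 20⌋₊ * Real.log 2) (E := E) (4 * ⌊t / 20⌋₊)
      (fun p hp => tx_range (hP p hp).1.2 (hP p hp).2.1) (by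
        intro i _ s hs J _
        apply hcol
        have g1 : (0 : ℝ) ≤ i * Real.log 2 := by positivity
        have g2 : 2 * (⌊t / 20⌋₊ : ℝ) * Real.log 2 ≤ 2 * (t / 20) * 1 :=
          mul_le_mul (by linarith) hl21.le hl2.le (by linarith)
        rcases hs with rfl | rfl <;> linarith)
    refine h1.trans (le_of_eq ?_)
    push_cast
    ring)
  linarith

/-- decay away from the mean -/
theorem decay (h : Hf α β K f) (hab : 1 ≤ α + β) (hK : 0 ≤ K) {C T₁ : ℝ} (hC : 0 < C)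
    (hup : ∀ t : ℝ, T₁ ≤ t → ∀ j, f j t ≤ C / Real.sqrt t) {ν κ : ℝ} (hν : 0 ≤ ν)
    (hdev : ∀ (j : ℤ) (t : ℝ) (p : ℕ × ℕ), (jx α β j p : ℝ) - ν * tx t p = ((j : ℝ) - ν * t) + κ * ((p.1 : ℝ) - 2 * p.2))
    (hat : ∀ ε : ℝ, 0 < ε → ∃ K₁ : ℝ, 0 < K₁ ∧ ∃ T : ℝ, ∀ t : ℝ, T ≤ t → ∀ J : Finset ℤ,
      (∀ j ∈ J, K₁ * Real.sqrt t < |(j : ℝ) - ν * t|) → ∑ j ∈ J, f j t ≤ ε) :
    ∀ ε : ℝ, 0 < ε → ∃ K₂ : ℝ, 0 < K₂ ∧ ∃ T : ℝ, 2000 ≤ T ∧ ∀ t : ℝ, T ≤ t → ∀ j : ℤ,
      K₂ * Real.sqrt t < |(j : ℝ) - ν * t| → f j t ≤ ε / Real.sqrt t := by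
  classical
  intro ε hε
  have hl2 : 0 < Real.log 2 := Real.log_pos (by norm_num)
  have hl21 : Real.log 2 < 1 := by linarith [Real.log_two_lt_d9]
  obtain ⟨K₁, hK1, T₂, hT2⟩ := hat (ε / 240) (by positivity)
  obtain ⟨ρ, hρ⟩ : ∃ ρ : ℝ, ρ = Real.sqrt (C / ε) := ⟨_, rfl⟩
  have hρ2 : ρ ^ 2 = C / ε := by rw [hρ]; exact Real.sq_sqrt (by positivity)
  have hρ0 : 0 < ρ := by rw [hρ]; exact Real.sqrt_pos.2 (by positivity)
  refine ⟨2 * K₁ + |κ| * ρ + ν + 1, by positivity,
    max 2000 (max (max (2 * T₁) (2 * T₂)) (16 * K ^ 2 / ε ^ 2)), le_max_left _ _, fun t ht j hj => ?_⟩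
  have ht1 : 2000 ≤ t := (le_max_left _ _).trans ht
  have ht2 : 2 * T₁ ≤ t := ((le_max_left _ _).trans ((le_max_left _ _).trans (le_max_right _ _))).trans ht
  have ht3 : 2 * T₂ ≤ t := ((le_max_right _ _).trans ((le_max_left _ _).trans (le_max_right _ _))).trans ht
  have ht4 : 16 * K ^ 2 / ε ^ 2 ≤ t := ((le_max_right _ _).trans (le_max_right _ _)).trans ht
  have ht0 : 0 < t := by linarith
  set r := Real.sqrt t with hr
  have hr0 : 0 < r := Real.sqrt_pos.2 ht0
  have hr1 : 1 ≤ r := Real.one_le_sqrt.2 (by linarith)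
  have hrr : r ^ 2 = t := Real.sq_sqrt ht0.le
  have hN1 : (⌊t / 20⌋₊ : ℝ) ≤ t / 20 := Nat.floor_le (by linarith)
  have h1 := avg h hK j ht1 (fun n b => |2 * (b : ℝ) - n| < ρ * r) (D := ε / 4 / r) (E := ε / 240) (by positivity) (by
    intro n hn
    rw [mem_Ico] at hn
    have hn2 : (n : ℝ) ≤ 2 * ⌊t / 20⌋₊ := by exact_mod_cast hn.2.le
    have g1 : ∀ b ∈ (range (n + 1)).filter (fun b : ℕ => ¬ |2 * (b : ℝ) - n| < ρ * r),
        wx n b * f (jx α β j (n, b)) (tx t (n, b)) ≤ wx n b * (2 * C / r) := by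
      intro b _
      apply mul_le_mul_of_nonneg_left _ (wx_nonneg n b)
      have g2 : t / 2 ≤ tx t (n, b) := by
        unfold tx
        simp only
        have a1 : (n : ℝ) * Real.log 2 ≤ n * 1 := mul_le_mul_of_nonneg_left hl21.le (Nat.cast_nonneg _)
        have a2 : (0 : ℝ) ≤ b * Real.log 3 := by positivity
        linarith
      refine (hup _ (by linarith) _).trans ?_
      have g3 : C / Real.sqrt (tx t (n, b)) ≤ C / (r / 2) := by
        apply div_le_div_of_nonneg_left hC.le (by positivity)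
        apply Real.le_sqrt_of_sq_le
        rw [div_pow, hrr]
        linarith
      refine g3.trans (le_of_eq ?_)
      field_simp
    refine (sum_le_sum g1).trans ?_
    rw [← sum_mul]
    have g2 := wx_cheb (n := n) (a := ρ * r) (by positivity)
      ((range (n + 1)).filter (fun b : ℕ => ¬ |2 * (b : ℝ) - n| < ρ * r)) (by
      intro b hb
      rw [mem_filter, mem_range] at hb
      exact ⟨by omega, not_lt.1 hb.2⟩)
    have g3 : (n : ℝ) / (ρ * r) ^ 2 ≤ ε / (8 * C) := by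
      rw [mul_pow, hρ2, hrr, div_le_div_iff₀ (by positivity) (by positivity)]
      have : ε * (C / ε * t) = C * t := by field_simp
      rw [this]
      have h9 : (n : ℝ) * (8 * C) ≤ t / 10 * (8 * C) := mul_le_mul_of_nonneg_right (by linarith) (by positivity)
      have h10 : 0 ≤ C * t := by positivity
      linarith
    have g4 := mul_le_mul_of_nonneg_right (g2.trans g3) (show 0 ≤ 2 * C / r by positivity)
    refine g4.trans (le_of_eq ?_)
    field_simp
    ring) (by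
    intro P hP
    have h1 := scales_sum h hab j t P (T := t - 2 * ⌊t / 20⌋₊ * Real.log 2) (E := ε / 240) (4 * ⌊t / 20⌋₊)
      (fun p hp => tx_range (hP p hp).1.2 (hP p hp).2.1) (by
        intro i _ s hs J hJ
        have g2 : 2 * (⌊t / 20⌋₊ : ℝ) * Real.log 2 ≤ 2 * (t / 20) * 1 :=
          mul_le_mul (by linarith) hl21.le hl2.le (by linarith)
        have g1 : (0 : ℝ) ≤ i * Real.log 2 := by positivity
        have hs1 : T₂ ≤ s := by rcases hs with rfl | rfl <;> linarith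
        apply hT2 s hs1 J
        intro k hk
        obtain ⟨p, hp, rfl, b1, b2⟩ := hJ k hk
        obtain ⟨⟨c1, c2⟩, c3, c4⟩ := hP p hp
        have d1 : |s - tx t p| ≤ 1 := by
          rw [abs_le]
          rcases hs with rfl | rfl <;> constructor <;> linarith
        have d2 := (tx_range (t := t) c2 c3).2
        have d3 : s ≤ 4 * t := by
          have e1 : ((4 * ⌊t / 20⌋₊ : ℕ) : ℝ) * Real.log 2 ≤ 4 * (t / 20) * 1 := by
            push_cast
            exact mul_le_mul (by linarith) hl21.le hl2.le (by linarith)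
          have e2 : 0 ≤ 2 * (⌊t / 20⌋₊ : ℝ) * Real.log 2 := by positivity
          linarith [(abs_le.1 d1).2]
        have d4 : Real.sqrt s ≤ 2 * r := by
          rw [Real.sqrt_le_left (by positivity), mul_pow, hrr]
          linarith
        have d5 := hdev j t p
        have d6 : |κ * ((p.1 : ℝ) - 2 * p.2)| ≤ |κ| * ρ * r := by
          rw [abs_mul, mul_assoc]
          apply mul_le_mul_of_nonneg_left _ (abs_nonneg _)
          rw [abs_sub_comm]
          exact c4.le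
        have d7 : |ν * (s - tx t p)| ≤ ν := by
          rw [abs_mul, abs_of_nonneg hν]
          exact (mul_le_mul_of_nonneg_left d1 hν).trans (le_of_eq (mul_one _))
        have d8 : (jx α β j p : ℝ) - ν * s = ((j : ℝ) - ν * t) + κ * ((p.1 : ℝ) - 2 * p.2) - ν * (s - tx t p) := by
          rw [← d5]; ring
        rw [d8]
        have d9 : |(j : ℝ) - ν * t| ≤ |((j : ℝ) - ν * t) + κ * ((p.1 : ℝ) - 2 * p.2) - ν * (s - tx t p)| +
            |κ * ((p.1 : ℝ) - 2 * p.2)| + |ν * (s - tx t p)| := by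
          generalize (j : ℝ) - ν * t = a
          generalize κ * ((p.1 : ℝ) - 2 * p.2) = b
          generalize ν * (s - tx t p) = c
          have h1 : a = (a + b - c) - b + c := by ring
          calc |a| = |(a + b - c) - b + c| := by rw [← h1]
            _ ≤ |(a + b - c) - b| + |c| := abs_add_le _ _
            _ ≤ |a + b - c| + |b| + |c| := by linarith [abs_sub (a + b - c) b]
        have d10 : K₁ * Real.sqrt s ≤ K₁ * (2 * r) := mul_le_mul_of_nonneg_left d4 hK1.le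
        have d11 : ν * 1 ≤ ν * r := mul_le_mul_of_nonneg_left hr1 hν
        have d12 : (2 * K₁ + |κ| * ρ + ν + 1) * r = K₁ * (2 * r) + |κ| * ρ * r + ν * r + r := by ring
        rw [d12] at hj
        linarith)
    refine h1.trans (le_of_eq ?_)
    push_cast
    ring)
  have h2 : K / t ≤ ε / 4 / r := by
    rw [div_div, div_le_div_iff₀ ht0 (by positivity)]
    have h6 : 4 * K / ε ≤ r := by
      apply Real.le_sqrt_of_sq_le
      refine le_trans (le_of_eq ?_) ht4
      rw [div_pow, mul_pow]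
      norm_num
    rw [div_le_iff₀ hε] at h6
    have h7 : r * r = t := by rw [← sq]; exact hrr
    calc K * (4 * r) = 4 * K * r := by ring
      _ ≤ r * ε * r := mul_le_mul_of_nonneg_right h6 hr0.le
      _ = ε * t := by rw [← h7]; ring
  have h3 : 60 * (ε / 240) / r = ε / 4 / r := by ring
  have h4 : ε / r = ε / 4 / r + (ε / 4 / r + ε / 4 / r) + ε / 4 / r := by ring
  rw [h4]
  have h5 : 0 ≤ ε / 4 / r := by positivity
  linarith

end Pool.Agent.R468.MG
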