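import Pool.Agent.R468.MG.B

/-!
Graded sets: the window densities of the levels are almost harmonic.
-/

set_option autoImplicit false

namespace Pool.Agent.R468.MG

open Finset Filter Topology
open Pool.Agent.R468.GL
open Pool.Agent.H499R2.LT
open Pool.Agent.H499R2.ND (Td HD G pos mem_pos Fd Fd_nonneg Fd_le_one G_mono G_nonneg)
open Pool.Agent.H499R2.CZ (FC)

/-- a set with two statistics which change by `1` and by the parity along the map, outside `R` -/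
structure Gr (d : ℤ) (R B : Set ℤ) (κ ω : ℤ → ℤ) : Prop where
  inv : ∀ x, x ∉ R → (x ∈ B ↔ Td d x ∈ B)
  st1 : ∀ x, x ∉ R → x ∈ B → κ x = κ (Td d x) + 1
  st2 : ∀ x, x ∉ R → x ∈ B → ω x = ω (Td d x) + (if x % 2 = 0 then 0 else 1)

/-- the level sets of a linear combination -/
def Lj (P : Par) (B : Set ℤ) (κ ω : ℤ → ℤ) (j : ℤ) : Set ℤ := {x : ℤ | x ∈ B ∧ P.α * ω x + P.β * κ x = j}

theorem gf {d : ℤ} {R B : Set ℤ} {κ ω : ℤ → ℤ} (h : Gr d R B κ ω) (P : Par) :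
    GF d R (fun k o => Lj P B κ ω (P.α * o + P.β * k)) := by
  intro k o x hx
  have h1 := h.inv x hx
  constructor
  · rintro ⟨hB, h2⟩
    refine ⟨h1.1 hB, ?_⟩
    have h3 := h.st1 x hx hB
    have h4 := h.st2 x hx hB
    rw [h3, h4] at h2
    linear_combination h2
  · rintro ⟨hB, h2⟩
    have hB' := h1.2 hB
    refine ⟨hB', ?_⟩
    have h3 := h.st1 x hx hB'
    have h4 := h.st2 x hx hB'
    rw [h3, h4]
    linear_combination h2

/-- the window densities -/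
noncomputable def fw (P : Par) (B : Set ℤ) (κ ω : ℤ → ℤ) (j : ℤ) (t : ℝ) : ℝ := Fd (Lj P B κ ω j) t

theorem G_sub {S S' : Set ℤ} {a b : ℝ} (ha : 0 < a) (hab : a ≤ b) (h : S ⊆ S') : G S b - G S a ≤ G S' b - G S' a := by
  rw [Pool.Agent.H499R2.ND.G_win S ha hab, Pool.Agent.H499R2.ND.G_win S' ha hab]
  have : ((Pool.Agent.H499R2.ND.wc S a b 1 0).card : ℝ) ≤ (Pool.Agent.H499R2.ND.wc S' a b 1 0).card := by
    have : Pool.Agent.H499R2.ND.wc S a b 1 0 ⊆ Pool.Agent.H499R2.ND.wc S' a b 1 0 := by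
      intro x hx
      rw [Pool.Agent.H499R2.ND.mem_wc] at hx ⊢
      exact ⟨hx.1, h hx.2.1, hx.2.2⟩
    exact_mod_cast card_le_card this
  linarith

theorem Fd_cov (S : Set ℤ) (t s : ℝ) (h1 : t ≤ s) (h2 : s ≤ t + Real.log 2) : Fd S s ≤ Fd S t + 2 * Fd S (t + Real.log 2) := by
  have he := Real.exp_pos t
  have hs := Real.exp_pos s
  have e1 : Real.exp (t + Real.log 2) = 2 * Real.exp t := by
    rw [Real.exp_add, Real.exp_log (by norm_num)]; ring
  have g1 : Real.exp t ≤ Real.exp s := Real.exp_le_exp.2 h1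
  have g2 : Real.exp s ≤ 2 * Real.exp t := by rw [← e1]; exact Real.exp_le_exp.2 h2
  unfold Fd
  rw [e1]
  have h3 : G S (2 * Real.exp s) - G S (Real.exp s) ≤ G S (2 * (2 * Real.exp t)) - G S (Real.exp t) := by
    have a1 := G_mono S (show 2 * Real.exp s ≤ 2 * (2 * Real.exp t) by linarith)
    have a2 := G_mono S g1
    linarith
  have h4 : 0 ≤ G S (2 * (2 * Real.exp t)) - G S (Real.exp t) := by
    have := G_mono S (show Real.exp t ≤ 2 * (2 * Real.exp t) by linarith)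
    linarith
  calc (G S (2 * Real.exp s) - G S (Real.exp s)) / (3 * Real.exp s)
      ≤ (G S (2 * (2 * Real.exp t)) - G S (Real.exp t)) / (3 * Real.exp s) := by gcongr
    _ ≤ (G S (2 * (2 * Real.exp t)) - G S (Real.exp t)) / (3 * Real.exp t) :=
        div_le_div_of_nonneg_left h4 (by positivity) (by linarith)
    _ = _ := by field_simp; ring

theorem hf {d : ℤ} (hd : Odd d) (hd3 : IsCoprime d 3) {R : Set ℤ} (hR : FC d R) (hRs : SpW R) (P : Par) :
    ∃ K : ℝ, 0 < K ∧ ∀ (B : Set ℤ) (κ ω : ℤ → ℤ), Gr d R B κ ω → Hf P.α P.β K (fw P B κ ω) := by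
  obtain ⟨K, hK, h⟩ := Fd_harmG hd hd3 hR hRs
  refine ⟨K, hK, fun B κ ω hG => ⟨fun j t => Fd_nonneg _ _, fun j t ht => ?_, fun j t s h1 h2 => Fd_cov _ t s h1 h2⟩⟩
  have h1 := h _ (gf hG P) (P.k1 * j) (P.o1 * j) t ht
  have hb := P.bez
  have e1 : (P.α : ℤ) * (P.o1 * j) + P.β * (P.k1 * j) = j := by linear_combination j * hb
  have e2 : (P.α : ℤ) * (P.o1 * j) + P.β * (P.k1 * j - 1) = j - P.β := by linear_combination j * hb
  have e3 : (P.α : ℤ) * (P.o1 * j - 1) + P.β * (P.k1 * j - 1) = j - P.β - P.α := by linear_combination j * hb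
  simp only [e1, e2, e3] at h1
  unfold fw
  linarith [(abs_le.1 h1).2]

theorem Lj_disj {P : Par} {B : Set ℤ} {κ ω : ℤ → ℤ} {i j : ℤ} (h : i ≠ j) : Disjoint (Lj P B κ ω i) (Lj P B κ ω j) := by
  rw [Set.disjoint_left]
  rintro x ⟨_, h1⟩ ⟨_, h2⟩
  exact h (h1.symm.trans h2)

/-- columns -/
theorem col_le (P : Par) (B : Set ℤ) (κ ω : ℤ → ℤ) (t : ℝ) (J : Finset ℤ) :
    ∑ i ∈ J, fw P B κ ω i t ≤ Fd B t := by
  classical
  have he := Real.exp_pos t
  have h1 : ∀ i ∈ J, fw P B κ ω i t =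
      ((Pool.Agent.H499R2.ND.wc (Lj P B κ ω i) (Real.exp t) (2 * Real.exp t) 1 0).card : ℝ) / (3 * Real.exp t) := by
    intro i _
    unfold fw Fd
    rw [Pool.Agent.H499R2.ND.G_win _ he (by linarith), add_sub_cancel_left]
  rw [sum_congr rfl h1, ← sum_div]
  unfold Fd
  rw [Pool.Agent.H499R2.ND.G_win _ he (by linarith), add_sub_cancel_left]
  apply div_le_div_of_nonneg_right _ (by positivity)
  have h2 : ∑ i ∈ J, (Pool.Agent.H499R2.ND.wc (Lj P B κ ω i) (Real.exp t) (2 * Real.exp t) 1 0).card ≤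
      (Pool.Agent.H499R2.ND.wc B (Real.exp t) (2 * Real.exp t) 1 0).card := by
    rw [← card_biUnion]
    · apply card_le_card
      intro x hx
      rw [mem_biUnion] at hx
      obtain ⟨i, _, hx⟩ := hx
      rw [Pool.Agent.H499R2.ND.mem_wc] at hx ⊢
      exact ⟨hx.1, hx.2.1.1, hx.2.2⟩
    · intro i _ i' _ hne
      rw [Function.onFun, Finset.disjoint_left]
      intro x hx hx'
      rw [Pool.Agent.H499R2.ND.mem_wc] at hx hx'
      exact Set.disjoint_left.1 (Lj_disj hne) hx.2.1 hx'.2.1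
  exact_mod_cast h2

/-- the uniform bound -/
theorem up1 {d : ℤ} (hd : Odd d) (hd3 : IsCoprime d 3) {R : Set ℤ} (hR : FC d R) (hRs : SpW R) (P : Par) :
    ∃ K : ℝ, 0 < K ∧ ∀ (B : Set ℤ) (κ ω : ℤ → ℤ), Gr d R B κ ω → ∀ E T₀ : ℝ, 0 ≤ E → (∀ t, T₀ ≤ t → Fd B t ≤ E) →
      ∀ t : ℝ, 2000 ≤ t → 2 * T₀ ≤ t → ∀ j : ℤ, fw P B κ ω j t ≤ 60 * E / Real.sqrt t + K / t := by
  obtain ⟨K, hK, h⟩ := hf hd hd3 hR hRs P
  refine ⟨K, hK, fun B κ ω hG E T₀ hE hcol t ht htT j => ?_⟩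
  exact up_E (h B κ ω hG) P.one_le hK.le hE (fun s hs J => (col_le P B κ ω s J).trans (hcol s hs)) t ht htT j

end Pool.Agent.R468.MG
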