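import Pool.Agent.R468.MG.C

/-!
Graded sets: counts up to `x`.
-/

set_option autoImplicit false

namespace Pool.Agent.R468.MG

open Finset Filter Topology
open Pool.Agent.R468.GL hiding FC
open Pool.Agent.R468.MF
open Pool.Agent.H499R2.LT
open Pool.Agent.H499R2.ND (Td HD G pos mem_pos Fd Fd_nonneg Fd_le_one G_mono G_nonneg)
open Pool.Agent.H499R2.CZ (FC)
open Pool.Agent.R468.LL (lam lam_eq lam_pos lam_lt)

/-- a uniform upper bound with a constant -/
def UpC (C : ℝ) (f : ℝ → ℤ → ℝ) : Prop := ∃ X₀ : ℝ, 2 ≤ X₀ ∧ ∀ x : ℝ, X₀ ≤ x → ∀ j : ℤ,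
  f x j ≤ C * x / Real.sqrt (Real.log x)

theorem UpC.up {C : ℝ} {f : ℝ → ℤ → ℝ} (h : UpC C f) (hC : 0 < C) : Up f := by
  obtain ⟨X₀, h1, h2⟩ := h
  exact ⟨C, hC, X₀, h1, h2⟩

theorem sqrt_small {c ε : ℝ} (hε : 0 < ε) : ∃ X₀ : ℝ, 2 ≤ X₀ ∧ ∀ x : ℝ, X₀ ≤ x →
    c * Real.sqrt x ≤ ε * (x / Real.sqrt (Real.log x)) := by
  have h1 : Tendsto (fun x : ℝ => Real.log x / x) atTop (𝓝 0) := Real.isLittleO_log_id_atTop.tendsto_div_nhds_zero
  have h2 : Tendsto (fun x : ℝ => c * Real.sqrt (Real.log x / x)) atTop (𝓝 0) := by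
    have := (Real.continuous_sqrt.tendsto 0).comp h1
    rw [Real.sqrt_zero] at this
    simpa using this.const_mul c
  obtain ⟨X₀, hX⟩ := eventually_atTop.1 (h2.eventually_le_const hε)
  refine ⟨max X₀ 2, le_max_right _ _, fun x hx => ?_⟩
  have h3 := hX x ((le_max_left _ _).trans hx)
  have hx2 : 2 ≤ x := (le_max_right _ _).trans hx
  have hx0 : 0 < x := by linarith
  have hl : 0 < Real.log x := Real.log_pos (by linarith)
  rw [Real.sqrt_div hl.le] at h3
  have hs : 0 < Real.sqrt x := Real.sqrt_pos.2 hx0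
  have hr : 0 < Real.sqrt (Real.log x) := Real.sqrt_pos.2 hl
  have h4 := mul_le_mul_of_nonneg_right h3 (show 0 ≤ x / Real.sqrt (Real.log x) by positivity)
  refine le_trans (le_of_eq ?_) h4
  have h5 : x = Real.sqrt x * Real.sqrt x := (Real.mul_self_sqrt hx0.le).symm
  field_simp
  nth_rewrite 2 [h5]
  ring

theorem UpC_dy {b : ℕ} {c C ε : ℝ} (hC : 0 ≤ C) (hε : 0 < ε) {f g : ℝ → ℤ → ℝ} (hU : UpC C f) (hg : Dy b c f g) :
    UpC (4 * C + ε) g := by
  obtain ⟨X₁, hX1, hf⟩ := hU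
  obtain ⟨X₂, hX2, hsm⟩ := sqrt_small (c := c) hε
  refine ⟨max X₂ (Real.exp (max 2500 (2 * Real.log X₁))), le_max_of_le_left hX2, fun x hx j => ?_⟩
  have hx2 : 2 ≤ x := hX2.trans ((le_max_left _ _).trans hx)
  have hx0 : 0 < x := by linarith
  have hlx : max 2500 (2 * Real.log X₁) ≤ Real.log x := by
    rw [Real.le_log_iff_exp_le hx0]
    exact (le_max_right _ _).trans hx
  have hl : 0 < Real.log x := by linarith [(le_max_left 2500 (2 * Real.log X₁)).trans hlx]
  obtain ⟨L, h1, h2, h3⟩ := scales hX1 hlx hx0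
  have h8 := hsm x ((le_max_left _ _).trans hx)
  set r := Real.sqrt (Real.log x) with hr
  have hr0 : 0 < r := Real.sqrt_pos.2 hl
  have hrr : r ^ 2 = Real.log x := Real.sq_sqrt hl.le
  have h4 : ∀ l ∈ range L, f (x / 2 ^ l) (j - b * l) ≤ 2 * C / r * (x / 2 ^ l) := by
    intro l hl'
    obtain ⟨g1, g2⟩ := h3 l hl'
    refine (hf _ g1 _).trans ?_
    have g3 : r / 2 ≤ Real.sqrt (Real.log (x / 2 ^ l)) := by
      apply Real.le_sqrt_of_sq_le
      rw [div_pow, hrr]
      linarith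
    calc C * (x / 2 ^ l) / Real.sqrt (Real.log (x / 2 ^ l)) ≤ C * (x / 2 ^ l) / (r / 2) :=
          div_le_div_of_nonneg_left (by positivity) (by positivity) g3
      _ = 2 * C / r * (x / 2 ^ l) := by field_simp
  have h5 := hg x hx2 L h1 h2 j
  have h6 := sum_le_sum h4
  rw [← mul_sum] at h6
  have h7 := mul_le_mul_of_nonneg_left (geo2' x hx0.le L) (show 0 ≤ 2 * C / r by positivity)
  have h9 : (4 * C + ε) * x / r = 2 * C / r * (2 * x) + ε * (x / r) := by ring
  rw [h9]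
  linarith

variable (P : Par) (B : Set ℤ) (κ ω : ℤ → ℤ)

/-- the counts in a window -/
noncomputable def f2 (y : ℝ) (j : ℤ) : ℝ := G (Lj P B κ ω j) y - G (Lj P B κ ω j) (y / 2)

open Classical in
/-- the number of the positive elements up to `x` with value `j` -/
noncomputable def CG (x : ℝ) (j : ℤ) : ℝ := (((Icc (1 : ℤ) ⌊x⌋).filter (fun n => n ∈ Lj P B κ ω j)).card : ℝ)

theorem f2_fw {y : ℝ} (hy : 0 < y) (j : ℤ) : f2 P B κ ω y j = fw P B κ ω j (Real.log (y / 2)) * (3 * (y / 2)) := by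
  unfold f2 fw Fd
  rw [Real.exp_log (by positivity), show 2 * (y / 2) = y by ring, div_mul_cancel₀ _ (by positivity)]

theorem CG_nonneg (x : ℝ) (j : ℤ) : 0 ≤ CG P B κ ω x j := Nat.cast_nonneg _

theorem G_CG (x : ℝ) (j : ℤ) : G (Lj P B κ ω j) x ≤ CG P B κ ω x j := by
  classical
  unfold G CG
  have : pos (Lj P B κ ω j) x ⊆ (Icc (1 : ℤ) ⌊x⌋).filter (fun n => n ∈ Lj P B κ ω j) := by
    intro n hn
    rw [mem_pos] at hn
    rw [mem_filter, mem_Icc, Int.le_floor]
    exact ⟨⟨hn.1.1, hn.1.2.le⟩, hn.2⟩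
  exact_mod_cast card_le_card this

theorem CG_G (x : ℝ) (j : ℤ) : CG P B κ ω x j ≤ G (Lj P B κ ω j) x + 1 := by
  classical
  unfold G CG
  have : (Icc (1 : ℤ) ⌊x⌋).filter (fun n => n ∈ Lj P B κ ω j) ⊆ insert ⌊x⌋ (pos (Lj P B κ ω j) x) := by
    intro n hn
    rw [mem_filter, mem_Icc] at hn
    rw [mem_insert, mem_pos]
    rcases lt_or_ge (n : ℝ) x with h | h
    · exact Or.inr ⟨⟨hn.1.1, h⟩, hn.2⟩
    · left
      apply le_antisymm hn.1.2
      have h1 : ⌊x⌋ ≤ ⌊(n : ℝ)⌋ := Int.floor_le_floor h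
      rwa [Int.floor_intCast] at h1
  have h2 := (card_le_card this).trans (card_insert_le _ _)
  exact_mod_cast h2

theorem G_le (S : Set ℤ) {y : ℝ} (hy : 1 ≤ y) : G S y ≤ y := by
  classical
  unfold G
  have h1 : pos S y ⊆ Ico 1 ⌈y⌉ := by
    unfold pos
    exact filter_subset _ _
  have h2 := card_le_card h1
  rw [Int.card_Ico] at h2
  have h3 : (1 : ℤ) ≤ ⌈y⌉ := by
    rw [Int.one_le_ceil_iff]; linarith
  have h4 : ((⌈y⌉ - 1).toNat : ℝ) = (⌈y⌉ : ℝ) - 1 := by
    have : (((⌈y⌉ - 1).toNat : ℤ) : ℝ) = ((⌈y⌉ - 1 : ℤ) : ℝ) := by rw [Int.toNat_of_nonneg (by omega)]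
    push_cast at this
    exact this
  have h5 : ((pos S y).card : ℝ) ≤ ((⌈y⌉ - 1).toNat : ℝ) := by exact_mod_cast h2
  have h6 := Int.ceil_lt_add_one y
  linarith

theorem CG_Dy : Dy 0 4 (f2 P B κ ω) (CG P B κ ω) := by
  intro x hx L h1 h2 j
  have hx0 : 0 < x := by linarith
  have hs : 1 ≤ Real.sqrt x := Real.one_le_sqrt.2 (by linarith)
  have h3 := CG_G P B κ ω x j
  have h4 : G (Lj P B κ ω j) x = ∑ l ∈ range L, f2 P B κ ω (x / 2 ^ l) (j - (0 : ℕ) * l) +
      G (Lj P B κ ω j) (x / 2 ^ L) := by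
    clear h1 h2
    induction L with
    | zero => simp
    | succ L ih =>
      rw [sum_range_succ, ih]
      unfold f2
      rw [Nat.cast_zero, zero_mul, sub_zero, show x / 2 ^ L / 2 = x / 2 ^ (L + 1) by rw [pow_succ, div_div]]
      ring
  have h5 := G_le (Lj P B κ ω j) (y := x / 2 ^ L) (hs.trans h1)
  rw [h4] at h3
  linarith

variable {P B κ ω}

/-- from window densities to window counts -/
theorem upC_f2 {E K : ℝ} (hE : 0 < E) (hK : 0 ≤ K) {T₀ : ℝ}
    (h : ∀ t : ℝ, 2000 ≤ t → T₀ ≤ t → ∀ j : ℤ, fw P B κ ω j t ≤ 60 * E / Real.sqrt t + K / t) :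
    UpC (181 * E) (f2 P B κ ω) := by
  refine ⟨max 4 (max (2 * Real.exp (max 2000 T₀)) (Real.exp ((3 * K / E) ^ 2))), le_max_of_le_left (by norm_num),
    fun y hy j => ?_⟩
  have hy4 : 4 ≤ y := (le_max_left _ _).trans hy
  have hy0 : 0 < y := by linarith
  have h1 : max 2000 T₀ ≤ Real.log (y / 2) := by
    rw [Real.le_log_iff_exp_le (by positivity), le_div_iff₀ (by norm_num)]
    linarith [((le_max_left _ _).trans (le_max_right _ _)).trans hy]
  have h2 : (3 * K / E) ^ 2 ≤ Real.log y := by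
    rw [Real.le_log_iff_exp_le hy0]
    exact ((le_max_right _ _).trans (le_max_right _ _)).trans hy
  obtain ⟨g1, g2, _⟩ := log_half hy4
  have h3 := h (Real.log (y / 2)) ((le_max_left _ _).trans h1) ((le_max_right _ _).trans h1) j
  rw [f2_fw P B κ ω hy0]
  set t := Real.log (y / 2) with ht
  have ht0 : 0 < t := by linarith [(le_max_left _ _).trans h1]
  set r := Real.sqrt (Real.log y) with hr
  have hr0 : 0 < r := Real.sqrt_pos.2 (by linarith)
  have hrr : r ^ 2 = Real.log y := Real.sq_sqrt (by linarith)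
  have h4 : r / 2 ≤ Real.sqrt t := by
    apply Real.le_sqrt_of_sq_le
    rw [div_pow, hrr]
    linarith
  have h5 : 60 * E / Real.sqrt t ≤ 60 * E / (r / 2) := div_le_div_of_nonneg_left (by positivity) (by positivity) h4
  have h6 : K / t ≤ K / (r ^ 2 / 2) := div_le_div_of_nonneg_left hK (by positivity) (by rw [hrr]; exact g1)
  have h7 : 3 * K / E ≤ r := Real.le_sqrt_of_sq_le h2
  have h8 : K / (r ^ 2 / 2) ≤ 2 / 3 * E / r := by
    rw [div_le_div_iff₀ (by positivity) hr0]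
    rw [div_le_iff₀ hE] at h7
    have := mul_le_mul_of_nonneg_right h7 hr0.le
    nlinarith
  calc fw P B κ ω j t * (3 * (y / 2)) ≤ (60 * E / (r / 2) + 2 / 3 * E / r) * (3 * (y / 2)) :=
        mul_le_mul_of_nonneg_right (by linarith) (by positivity)
    _ = 181 * E * y / r := by field_simp; ring

/-- the uniform upper bound -/
theorem upC {d : ℤ} (hd : Odd d) (hd3 : IsCoprime d 3) {R : Set ℤ} (hR : FC d R) (hRs : SpW R)
    (hG : Gr d R B κ ω) {E T₀ : ℝ} (hE : 0 < E) (hcol : ∀ t : ℝ, T₀ ≤ t → Fd B t ≤ E) : UpC (725 * E) (CG P B κ ω) := by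
  obtain ⟨K, hK, h⟩ := up1 hd hd3 hR hRs P
  have h1 : UpC (181 * E) (f2 P B κ ω) := upC_f2 hE hK.le (T₀ := 2 * T₀)
    (fun t h1 h2 j => h B κ ω hG E T₀ hE.le hcol t h1 h2 j)
  have h2 := UpC_dy (ε := E) (by positivity) hE h1 (CG_Dy P B κ ω)
  have e : 4 * (181 * E) + E = 725 * E := by ring
  rwa [e] at h2

theorem dev (P : Par) (j : ℤ) (t : ℝ) (p : ℕ × ℕ) : (jx P.α P.β j p : ℝ) - A0 P / lam * tx t p =
    ((j : ℝ) - A0 P / lam * t) + ww P / lam * ((p.1 : ℝ) - 2 * p.2) := by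
  have hl := lam_pos.ne'
  unfold jx tx
  push_cast
  have e1 : A0 P / lam * Real.log 2 = P.β + ww P / lam := by
    rw [div_mul_eq_mul_div, eq_comm, ← sub_eq_zero]
    field_simp
    rw [lam_eq]
    unfold A0 ww
    ring
  have e2 : A0 P / lam * Real.log 3 = 2 * (ww P / lam) - P.α := by
    rw [div_mul_eq_mul_div, eq_comm, ← sub_eq_zero]
    field_simp
    rw [lam_eq]
    unfold A0 ww
    ring
  linear_combination (p.1 : ℝ) * e1 - (p.2 : ℝ) * e2

/-- decay away from the mean -/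
theorem De_CG {d : ℤ} (hd : Odd d) (hd3 : IsCoprime d 3) {R : Set ℤ} (hR : FC d R) (hRs : SpW R)
    (hG : Gr d R B κ ω)
    (hout : ∀ ε : ℝ, 0 < ε → ∃ K : ℝ, 0 < K ∧ ∃ X₀ : ℝ, 2 ≤ X₀ ∧ ∀ x : ℝ, X₀ ≤ x → ∀ J : Finset ℤ,
      (∀ j ∈ J, K * Real.sqrt (Real.log x) < |(j : ℝ) - A0 P / lam * Real.log x|) → ∑ j ∈ J, CG P B κ ω x j ≤ ε * x) :
    De (A0 P / lam) (CG P B κ ω) := by
  have hν : 0 ≤ A0 P / lam := nu_nonneg'
  obtain ⟨K, hK, h⟩ := hf hd hd3 hR hRs P
  have hup : ∀ t : ℝ, 2000 ≤ t → ∀ j, fw P B κ ω j t ≤ (60 + K) / Real.sqrt t := by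
    intro t ht j
    have h1 := up_E (h B κ ω hG) P.one_le hK.le (E := 1) (T₀ := 0) zero_le_one
      (fun s _ J => (col_le P B κ ω s J).trans (Fd_le_one B s)) t ht (by linarith) j
    have h2 : K / t ≤ K / Real.sqrt t := by
      apply div_le_div_of_nonneg_left hK.le (Real.sqrt_pos.2 (by linarith))
      rw [Real.sqrt_le_left (by linarith)]
      nlinarith
    rw [add_div]
    linarith
  have hdec := decay (h B κ ω hG) P.one_le hK.le (C := 60 + K) (T₁ := 2000) (by positivity) hup hν (dev P) (by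
    intro ε hε
    obtain ⟨K₁, hK1, X₀, hX0, hX⟩ := hout ε hε
    refine ⟨2 * K₁ + A0 P / lam, by positivity, max 1 (Real.log X₀), fun t ht J hJ => ?_⟩
    have ht1 : 1 ≤ t := (le_max_left _ _).trans ht
    have he := Real.exp_pos t
    have hl2 := Real.log_two_gt_d9
    have hl2' := Real.log_two_lt_d9
    have hlx : Real.log (2 * Real.exp t) = Real.log 2 + t := by
      rw [Real.log_mul (by norm_num) he.ne', Real.log_exp]
    have h1 := hX (2 * Real.exp t) (by
      have : X₀ ≤ Real.exp t := (Real.log_le_iff_le_exp (by linarith)).1 ((le_max_right _ _).trans ht)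
      linarith) J (by
      intro j hj
      have g1 := hJ j hj
      rw [hlx]
      have g2 : Real.sqrt (Real.log 2 + t) ≤ 2 * Real.sqrt t := by
        rw [Real.sqrt_le_left (by positivity), mul_pow, Real.sq_sqrt (by linarith)]
        linarith
      have g3 : 1 ≤ Real.sqrt t := Real.one_le_sqrt.2 ht1
      have g4 : |(j : ℝ) - A0 P / lam * t| ≤ |(j : ℝ) - A0 P / lam * (Real.log 2 + t)| + A0 P / lam * 1 := by
        have e : (j : ℝ) - A0 P / lam * t = ((j : ℝ) - A0 P / lam * (Real.log 2 + t)) + A0 P / lam * Real.log 2 := by ring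
        rw [e]
        refine (abs_add_le _ _).trans ?_
        rw [abs_of_nonneg (show 0 ≤ A0 P / lam * Real.log 2 by positivity)]
        have := mul_le_mul_of_nonneg_left (show Real.log 2 ≤ 1 by linarith) hν
        linarith
      have g5 := mul_le_mul_of_nonneg_left g2 hK1.le
      have g6 := mul_le_mul_of_nonneg_left g3 hν
      have g7 : (2 * K₁ + A0 P / lam) * Real.sqrt t = K₁ * (2 * Real.sqrt t) + A0 P / lam * Real.sqrt t := by ring
      rw [g7] at g1
      linarith)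
    have h2 : ∀ i ∈ J, fw P B κ ω i t ≤ CG P B κ ω (2 * Real.exp t) i / (3 * Real.exp t) := by
      intro i _
      unfold fw Fd
      apply div_le_div_of_nonneg_right _ (by positivity)
      have := G_nonneg (Lj P B κ ω i) (Real.exp t)
      linarith [G_CG P B κ ω (2 * Real.exp t) i]
    refine (sum_le_sum h2).trans ?_
    rw [← sum_div, div_le_iff₀ (by positivity)]
    have : 0 ≤ ε * Real.exp t := by positivity
    linarith)
  have hf2 : De (A0 P / lam) (f2 P B κ ω) := by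
    intro ε hε
    obtain ⟨K₂, hK2, T, hT, hd2⟩ := hdec (ε / 3) (by positivity)
    refine ⟨K₂ + A0 P / lam, by positivity, max 4 (2 * Real.exp T), le_max_of_le_left (by norm_num), fun y hy j hj => ?_⟩
    have hy4 : 4 ≤ y := (le_max_left _ _).trans hy
    have hy0 : 0 < y := by linarith
    have h1 : T ≤ Real.log (y / 2) := by
      rw [Real.le_log_iff_exp_le (by positivity), le_div_iff₀ (by norm_num)]
      linarith [(le_max_right 4 (2 * Real.exp T)).trans hy]
    obtain ⟨g1, g2, g3⟩ := log_half hy4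
    set r := Real.sqrt (Real.log y) with hr
    have hl : 2000 ≤ Real.log y := by linarith
    have hr0 : 0 < r := Real.sqrt_pos.2 (by linarith)
    have hr1 : 1 ≤ r := Real.one_le_sqrt.2 (by linarith)
    have hrr : r ^ 2 = Real.log y := Real.sq_sqrt (by linarith)
    have h3 : r / 2 ≤ Real.sqrt (Real.log (y / 2)) := by
      apply Real.le_sqrt_of_sq_le
      rw [div_pow, hrr]
      linarith
    have h2 := hd2 (Real.log (y / 2)) h1 j (by
      have n1 : Real.sqrt (Real.log (y / 2)) ≤ r := Real.sqrt_le_sqrt g2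
      have n2 := mul_le_mul_of_nonneg_left n1 hK2.le
      have hl2 := Real.log_two_gt_d9
      have hl2' := Real.log_two_lt_d9
      have n3 : |(j : ℝ) - A0 P / lam * Real.log y| ≤ |(j : ℝ) - A0 P / lam * Real.log (y / 2)| + A0 P / lam := by
        have e : (j : ℝ) - A0 P / lam * Real.log y = ((j : ℝ) - A0 P / lam * Real.log (y / 2)) - A0 P / lam * Real.log 2 := by
          rw [g3]; ring
        rw [e]
        refine (abs_sub _ _).trans ?_
        rw [abs_of_nonneg (show 0 ≤ A0 P / lam * Real.log 2 by positivity)]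
        have := mul_le_mul_of_nonneg_left (show Real.log 2 ≤ 1 by linarith) hν
        linarith
      have n4 := mul_le_mul_of_nonneg_left hr1 hν
      have n5 : (K₂ + A0 P / lam) * r = K₂ * r + A0 P / lam * r := by ring
      rw [n5] at hj
      linarith)
    rw [f2_fw P B κ ω hy0]
    have h4 : ε / 3 / Real.sqrt (Real.log (y / 2)) ≤ ε / 3 / (r / 2) :=
      div_le_div_of_nonneg_left (by positivity) (by positivity) h3
    calc fw P B κ ω j (Real.log (y / 2)) * (3 * (y / 2)) ≤ ε / 3 / (r / 2) * (3 * (y / 2)) :=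
          mul_le_mul_of_nonneg_right (h2.trans h4) (by positivity)
      _ = ε * y / r := by field_simp
  have hUp : Up (f2 P B κ ω) := (upC_f2 (E := 1) (T₀ := 0) zero_lt_one hK.le (fun t h1 _ j =>
    up_E (h B κ ω hG) P.one_le hK.le (E := 1) (T₀ := 0) zero_le_one
      (fun s _ J => (col_le P B κ ω s J).trans (Fd_le_one B s)) t h1 (by linarith) j)).up (by norm_num)
  exact De_dy (by norm_num) hν hUp hf2 (CG_Dy P B κ ω)

end Pool.Agent.R468.MG
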