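import Pool.Agent.R468.MG.D
import Pool.Agent.R468.MF.Gen

/-!
The first hits of a finite set: uniform bounds and decay away from the mean, all maps, both signs.
-/

set_option autoImplicit false

namespace Pool.Agent.R468.MG

open Finset Filter Topology
open Pool.Agent.R468.GL
open Pool.Agent.R468.MF
open Pool.Agent.H499R2.LT (od RF RF_FC RF_SpW RF_sub)
open Pool.Agent.H499R2.ND (Td HD G pos mem_pos Fd Fd_nonneg Fd_le_one G_mono G_nonneg side_odd side_cop Dn cop_of_not_dvd)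
open Pool.Agent.R468.LL (lam lam_eq lam_pos lam_lt)

theorem gr_fin (d : ℤ) (F : Finset ℤ) : Gr d (RF d F) (RR d F) (fun x => (ht d F x : ℤ)) (ho d F) := by
  have hnot : ∀ x, x ∉ RF d F → x ∉ F := fun x hx h => hx (RF_sub d h)
  have hinv : ∀ x, x ∉ RF d F → (x ∈ RR d F ↔ Td d x ∈ RR d F) := by
    intro x hx
    constructor
    · rintro ⟨k, hk⟩
      cases k with
      | zero => exact absurd hk (hnot x hx)
      | succ k =>
        rw [Function.iterate_succ_apply] at hk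
        exact ⟨k, hk⟩
    · rintro ⟨k, hk⟩
      exact ⟨k + 1, by rw [Function.iterate_succ_apply]; exact hk⟩
  have hht : ∀ x, x ∉ RF d F → x ∈ RR d F → ht d F x = ht d F (Td d x) + 1 := by
    intro x hx hR
    obtain ⟨g1, g2⟩ := ht_spec ((hinv x hx).1 hR)
    apply ht_eq
    · rw [Function.iterate_succ_apply]; exact g1
    · intro i hi
      cases i with
      | zero => exact hnot x hx
      | succ i =>
        rw [Function.iterate_succ_apply]
        exact g2 i (by omega)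
  refine ⟨hinv, fun x hx hR => ?_, fun x hx hR => ?_⟩
  · rw [hht x hx hR]
    push_cast
    ring
  · unfold ho
    rw [hht x hx hR, od]
    ring

variable (P : Par)

theorem CG_FC (d : ℤ) (F : Finset ℤ) (x : ℝ) (j : ℤ) :
    CG P (RR d F) (fun x => (ht d F x : ℤ)) (ho d F) x j = Pool.Agent.R468.GL.FC P d F x j := by
  classical
  unfold CG Pool.Agent.R468.GL.FC
  congr 2
  ext n
  rw [mem_filter, mem_filter]
  exact Iff.rfl

theorem NA_CG {d : ℤ} (hd : Odd d) {s : ℤ} (hs : s = 1 ∨ s = -1) (F : Finset ℤ) (x : ℝ) (j : ℤ) :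
    NA P d s F x j = CG P (RR (s * d) (F.image (fun a => s * a)))
      (fun x => (ht (s * d) (F.image (fun a => s * a)) x : ℤ)) (ho (s * d) (F.image (fun a => s * a))) x j := by
  rw [CG_FC]
  exact ncard_Lv P hd hs F x j

theorem NA_Up_all {d : ℤ} (hd : Odd d) (hd3 : ¬ (3 : ℤ) ∣ d) {s : ℤ} (hs : s = 1 ∨ s = -1) (F : Finset ℤ) :
    Up (NA P d s F) := by
  have h1 := side_odd hd hs
  have h2 := side_cop (cop_of_not_dvd hd3) hs
  have h := upC (P := P) h1 h2 (RF_FC (s * d) (F.image (fun a => s * a))) (RF_SpW h1 h2 (F.image (fun a => s * a)))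
    (gr_fin (s * d) (F.image (fun a => s * a))) (E := 1) (T₀ := 0) one_pos (fun t _ => Fd_le_one _ t)
  obtain ⟨C, hC, X₀, h3, h4⟩ := h.up (by norm_num)
  exact ⟨C, hC, X₀, h3, fun x hx j => by rw [NA_CG P hd hs]; exact h4 x hx j⟩

theorem NA_De_all {d : ℤ} (hd : Odd d) (hd3 : ¬ (3 : ℤ) ∣ d) {s : ℤ} (hs : s = 1 ∨ s = -1) (F : Finset ℤ)
    {v α : ℝ} {θ Ψ : ℝ → ℝ} {δ : ℝ} (L : Law (NA P d s F) (A0 P / lam) v α θ Ψ δ) :
    De (A0 P / lam) (NA P d s F) := by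
  have h1 := side_odd hd hs
  have h2 := side_cop (cop_of_not_dvd hd3) hs
  have h := De_CG (P := P) h1 h2 (RF_FC (s * d) (F.image (fun a => s * a))) (RF_SpW h1 h2 (F.image (fun a => s * a)))
    (gr_fin (s * d) (F.image (fun a => s * a))) (by
      intro ε hε
      obtain ⟨K, hK, X₀, hX0, hX⟩ := mass_out L ε hε
      refine ⟨K, hK, X₀, hX0, fun x hx J hJ => ?_⟩
      refine le_trans (le_of_eq ?_) (hX x hx J hJ)
      exact sum_congr rfl fun j _ => (NA_CG P hd hs F x j).symm)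
  intro ε hε
  obtain ⟨K, hK, X₀, hX0, hX⟩ := h ε hε
  exact ⟨K, hK, X₀, hX0, fun x hx j hj => by rw [NA_CG P hd hs]; exact hX x hx j hj⟩

theorem NA_triv' {d s : ℤ} {F : Finset ℤ} {x : ℝ} (hx : 0 ≤ x) (j : ℤ) : NA P d s F x j ≤ x := by
  unfold NA
  have h1 : {n : ℕ | (n : ℝ) ≤ x ∧ n ∈ Lv P d s F j} ⊆ (Icc 1 ⌊x⌋₊ : Finset ℕ) := by
    rintro n ⟨g1, g2, _⟩
    rw [mem_coe, mem_Icc, Nat.le_floor_iff hx]
    exact ⟨g2, g1⟩
  have h2 := Set.ncard_le_ncard h1 (Finset.finite_toSet _)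
  rw [Set.ncard_coe_finset, Nat.card_Icc, Nat.add_sub_cancel] at h2
  calc (({n : ℕ | (n : ℝ) ≤ x ∧ n ∈ Lv P d s F j}.ncard : ℕ) : ℝ) ≤ (⌊x⌋₊ : ℕ) := by exact_mod_cast h2
    _ ≤ x := Nat.floor_le hx

/-- the odd numbers -/
noncomputable def NB (d s : ℤ) (F : Finset ℤ) (x : ℝ) (j : ℤ) : ℝ :=
  ({n : ℕ | (n : ℝ) ≤ x ∧ n % 2 = 1 ∧ n ∈ Lv P d s F j}.ncard : ℝ)

theorem NB_le (d s : ℤ) (F : Finset ℤ) (x : ℝ) (j : ℤ) : NB P d s F x j ≤ NA P d s F x j := by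
  unfold NB NA
  have : {n : ℕ | (n : ℝ) ≤ x ∧ n % 2 = 1 ∧ n ∈ Lv P d s F j} ⊆ {n : ℕ | (n : ℝ) ≤ x ∧ n ∈ Lv P d s F j} :=
    fun n hn => ⟨hn.1, hn.2.2⟩
  exact_mod_cast Set.ncard_le_ncard this ((fin_le x).subset fun n hn => hn.1)

theorem Lv_neg_all {d s : ℤ} {F : Finset ℤ} {j : ℤ} (hj : j < 0) {n : ℕ} (h : n ∈ Lv P d s F j) : False := by
  obtain ⟨_, k, _, h3⟩ := h
  have h4 := (od_bd d k (s * (n : ℤ))).1
  have h5 : (0 : ℤ) ≤ P.α * od d k (s * (n : ℤ)) := mul_nonneg (Nat.cast_nonneg _) h4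
  have h6 : (0 : ℤ) ≤ P.β * (k : ℤ) := by positivity
  omega

theorem NA_neg_all {d s : ℤ} {F : Finset ℤ} (x : ℝ) {j : ℤ} (hj : j < 0) : NA P d s F x j = 0 := by
  unfold NA
  have : {n : ℕ | (n : ℝ) ≤ x ∧ n ∈ Lv P d s F j} = ∅ := by
    ext n
    simp only [Set.mem_ofPred_eq, Set.mem_empty_iff_false, iff_false]
    exact fun h => Lv_neg_all P hj h.2
  rw [this]
  simp

end Pool.Agent.R468.MG
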