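import Pool.Agent.R468.MG.E
import Pool.Agent.R468.MF.FinH
import Pool.Agent.R468.GL.Neg

/-!
The most frequent entrance times and the tuples with equal entrance times: the Syracuse map on the
negative odd integers.
-/

set_option autoImplicit false

namespace Pool.Agent.R468.MG

open Finset Filter Topology
open Pool.Agent.R468.GL
open Pool.Agent.R468.MF
open Pool.Agent.H499R2.LT (od Dn_iff)
open Pool.Agent.H499R2.ND (Td Dn)
open Pool.Agent.R468.LL (lam lam_eq lam_pos lam_lt mu_lam)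
open Pool.Agent.W26.HN (Sy En E En_of_E E_of_En)

/-- the number of the negative odd `N ≥ -x` with entrance time `k` -/
theorem cnt_neg {F : Finset ℤ} (hFo : ∀ y ∈ F, y % 2 = 1) (x : ℝ) (k : ℕ) :
    NB PO 1 (-1) F x (k : ℤ) = ({N : ℤ | -x ≤ (N : ℝ) ∧ N < 0 ∧ Odd N ∧ En F k N}.ncard : ℝ) := by
  have e3 : {N : ℤ | -x ≤ (N : ℝ) ∧ N < 0 ∧ Odd N ∧ En F k N} = (fun n : ℕ => -(n : ℤ)) ''
      {n : ℕ | (n : ℝ) ≤ x ∧ n % 2 = 1 ∧ n ∈ Lv PO 1 (-1) F (k : ℤ)} := by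
    ext N
    rw [Set.mem_image]
    constructor
    · rintro ⟨g1, g2, g3, g4⟩
      have g3' := Int.odd_iff.1 g3
      have g5 : -((N.natAbs : ℕ) : ℤ) = N := by omega
      refine ⟨N.natAbs, ⟨?_, by omega, ?_⟩, g5⟩
      · have g6 : ((N.natAbs : ℕ) : ℝ) = -(N : ℝ) := by
          have h9 : ((N.natAbs : ℕ) : ℤ) = -N := by omega
          rw [← Int.cast_natCast, h9, Int.cast_neg]
        rw [g6]; linarith
      · rw [lv_neg hFo (by omega), g5]
        exact g4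
    · rintro ⟨n, ⟨g1, g2, g3⟩, rfl⟩
      rw [lv_neg hFo g2] at g3
      refine ⟨?_, by omega, ?_, g3⟩
      · push_cast
        linarith
      · rw [Int.odd_iff]; omega
  unfold NB
  rw [e3, Set.ncard_image_of_injective _ (fun a b hab => by
    have : -(a : ℤ) = -(b : ℤ) := hab
    omega)]

/-- the law -/
theorem law_neg2 {F : Finset ℤ} (hne : F.Nonempty) (hF : ∀ y ∈ F, y < 0 ∧ y % 2 = 1) (hS : ∀ y ∈ F, Sy y ∈ F) :
    ∃ (δ : ℝ) (Ψ : ℝ → ℝ), 0 < δ ∧ δ ≤ 1 ∧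
    (δ = 1 ↔ ∀ N : ℤ, N < 0 → N % 2 = 1 → ∃ k : ℕ, Sy^[k] N ∈ F) ∧
    Dn (fun n : ℕ => n % 2 = 1 ∧ ∃ k : ℕ, Sy^[k] (-(n : ℤ)) ∈ F) (δ / 2) ∧
    (∀ t, δ * Real.log 2 ≤ Ψ t ∧ Ψ t ≤ 2 * δ * Real.log 2) ∧
    Law (NA PO 1 (-1) F) (A0 PO / lam) (2 * ww PO ^ 2 / lam ^ 3) (kap PO / ww PO) (fun x => Real.log x / ww PO) Ψ δ ∧
    Law (fun x j => 2 * NB PO 1 (-1) F x j) (A0 PO / lam) (2 * ww PO ^ 2 / lam ^ 3) (kap PO / ww PO)
      (fun x => Real.log x / ww PO) Ψ δ := by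
  have hFo : ∀ y ∈ F, y % 2 = 1 := fun y hy => (hF y hy).2
  obtain ⟨δ, Ψ, _, hpos, h2, h5, L, h7⟩ := law_all PO (d := 1) odd_one (by omega)
    (Or.inr rfl : (-1 : ℤ) = 1 ∨ (-1 : ℤ) = -1) F
  have hδ : 0 < δ := by
    obtain ⟨y, hy⟩ := hne
    apply hpos
    have h8 := hF _ (hS y hy)
    exact ⟨Sy y, hS y hy, by omega, Pool.Agent.W26.HN.Sy_three (hFo y hy)⟩
  have hodd : Dn (fun n : ℕ => n % 2 = 1 ∧ ∃ k : ℕ, (Td 1)^[k] (-1 * (n : ℤ)) ∈ F) (δ / 2) := by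
    refine Pool.Agent.H499R2.HL.dn_odd h2 (Dn_iff (fun n hn => ?_) h2)
    have e : -1 * ((2 * n : ℕ) : ℤ) = 2 * (-1 * (n : ℤ)) := by push_cast; ring
    rw [e]
    constructor
    · rintro ⟨k, hk⟩
      exact ⟨k + 1, by rw [Function.iterate_succ_apply, Td_two]; exact hk⟩
    · rintro ⟨k, hk⟩
      cases k with
      | zero =>
        have h8 := hFo _ hk
        simp only [Function.iterate_zero, id_eq] at h8
        omega
      | succ k =>
        rw [Function.iterate_succ_apply, Td_two] at hk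
        exact ⟨k, hk⟩
  have hodd' : Dn (fun n : ℕ => n % 2 = 1 ∧ ∃ k : ℕ, Sy^[k] (-(n : ℤ)) ∈ F) (δ / 2) := by
    refine Dn_iff (fun n hn => and_congr_right fun h8 => ?_) hodd
    rw [neg_one_mul]
    exact Pool.Agent.W26.HN.hit_iff (by omega) hFo
  obtain ⟨d, _, hd1, _, hd2, _, hd3⟩ := Pool.Agent.W26.HN.inv_density
    (S := Pool.Agent.W26.HN.Ba F) (fun N _ _ => Pool.Agent.W26.HN.Ba_inv hS N)
  have hdδ : d = δ := by
    have := tendsto_nhds_unique hd2 hodd'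
    linarith
  subst hdδ
  refine ⟨d, Ψ, hδ, hd1, hd3, hodd', ?_, L, ?_⟩
  · intro t
    have := h5 t
    rw [ww_PO, qr_PO] at this
    have e1 : d * (Real.log 2 * (1 / 2) / (1 - 1 / 2)) = d * Real.log 2 := by ring
    have e2 : d * (Real.log 2 / (1 - 1 / 2)) = 2 * d * Real.log 2 := by ring
    rwa [e1, e2] at this
  · exact
    { v_pos := L.v_pos
      irr := L.irr
      cont := L.cont
      per := L.per
      psi_nonneg := L.psi_nonneg
      psi_int := L.psi_int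
      nonneg := fun x j => by unfold NB; positivity
      mass := by
        intro ε hε
        obtain ⟨X₀, hX0, hX⟩ := Dn_upper hodd (by positivity) (ε / 2) (by positivity)
        refine ⟨X₀, hX0, fun x hx J => ?_⟩
        have h9 := hX x hx
        have h10 : ∑ j ∈ J, NB PO 1 (-1) F x j ≤ ({n : ℕ | (n : ℝ) ≤ x ∧ 1 ≤ n ∧ n % 2 = 1 ∧
            ∃ k : ℕ, (Td 1)^[k] (-1 * (n : ℤ)) ∈ F}.ncard : ℝ) := by
          classical
          have hfin : ∀ S : Set ℕ, ({n : ℕ | (n : ℝ) ≤ x ∧ n % 2 = 1 ∧ n ∈ S}).Finite := fun S =>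
            (fin_le x).subset fun n hn => hn.1
          have key : ∑ j ∈ J, {n : ℕ | (n : ℝ) ≤ x ∧ n % 2 = 1 ∧ n ∈ Lv PO 1 (-1) F j}.ncard ≤
              {n : ℕ | (n : ℝ) ≤ x ∧ 1 ≤ n ∧ n % 2 = 1 ∧ ∃ k : ℕ, (Td 1)^[k] (-1 * (n : ℤ)) ∈ F}.ncard := by
            have e : ∀ j ∈ J, {n : ℕ | (n : ℝ) ≤ x ∧ n % 2 = 1 ∧ n ∈ Lv PO 1 (-1) F j}.ncard =
                ((hfin (Lv PO 1 (-1) F j)).toFinset).card := fun j _ => Set.ncard_eq_toFinset_card _ (hfin _)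
            rw [sum_congr rfl e, ← card_biUnion]
            · rw [← Set.ncard_coe_finset]
              apply Set.ncard_le_ncard
              · intro n hn
                rw [mem_coe, mem_biUnion] at hn
                obtain ⟨j, _, hn⟩ := hn
                rw [Set.Finite.mem_toFinset] at hn
                obtain ⟨h1, h2', h2, k, ⟨h3, _⟩, _⟩ := hn
                exact ⟨h1, h2, h2', k, h3⟩
              · exact (fin_le x).subset fun n hn => hn.1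
            · intro j _ j' _ hne
              rw [Function.onFun, Finset.disjoint_left]
              intro n hn hn'
              rw [Set.Finite.mem_toFinset] at hn hn'
              exact hne (Lv_unique PO hn.2.2 hn'.2.2)
          unfold NB
          exact_mod_cast key
        rw [← mul_sum]
        linarith
      loc := by
        intro K ε hε
        obtain ⟨X₀, hX0, hX⟩ := h7 K ε hε
        refine ⟨X₀, hX0, fun x hx j hj => ?_⟩
        have := hX x hx j hj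
        have e : Real.log x / ww PO - j * (kap PO / ww PO) = sv PO (x, j) := by
          unfold sv
          ring
        rw [e]
        have e2 : 2 * NB PO 1 (-1) F x j / (x * gn (A0 PO / lam) (2 * ww PO ^ 2 / lam ^ 3) x j) =
            ({n : ℕ | (n : ℝ) ≤ x ∧ n % 2 = 1 ∧ n ∈ Lv PO 1 (-1) F j}.ncard : ℝ) / (x / 2 * gd PO x j) := by
          rw [gd_gn]
          unfold NB
          rw [show x / 2 * gn (A0 PO / lam) (2 * ww PO ^ 2 / lam ^ 3) x j =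
            x * gn (A0 PO / lam) (2 * ww PO ^ 2 / lam ^ 3) x j / 2 by ring, div_div_eq_mul_div]
          congr 1
          ring
        rw [e2]
        exact this }

/-- THE MOST FREQUENT ENTRANCE TIMES AND THE TUPLES, negative odd integers -/
theorem freq_neg {F : Finset ℤ} (hne : F.Nonempty) (hF : ∀ y ∈ F, y < 0 ∧ y % 2 = 1) (hS : ∀ y ∈ F, Sy y ∈ F) :
    ∃ (δ : ℝ) (Ψ : ℝ → ℝ) (M : ℝ), 0 < δ ∧ δ ≤ 1 ∧
    (δ = 1 ↔ ∀ N : ℤ, N < 0 → N % 2 = 1 → ∃ k : ℕ, Sy^[k] N ∈ F) ∧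
    Dn (fun n : ℕ => n % 2 = 1 ∧ ∃ k : ℕ, Sy^[k] (-(n : ℤ)) ∈ F) (δ / 2) ∧
    Continuous Ψ ∧ (∀ t, Ψ (t + 1) = Ψ t) ∧
    (∀ s, δ * Real.log 2 ≤ Ψ s ∧ Ψ s ≤ 2 * δ * Real.log 2) ∧
    (∫ t in (0 : ℝ)..1, Ψ t = δ) ∧ (∀ t, Ψ t ≤ M) ∧ (∃ t, Ψ t = M) ∧ δ ≤ M ∧
    (∀ K ε : ℝ, 0 < ε → ∃ X₀ : ℝ, ∀ x : ℝ, X₀ ≤ x → ∀ k : ℕ,
      |(k : ℝ) - 1 / Real.log (4 / 3) * Real.log x| ≤ K * Real.sqrt (Real.log x) →
      |({N : ℤ | -x ≤ (N : ℝ) ∧ N < 0 ∧ Odd N ∧ En F k N}.ncard : ℝ) /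
        (x / 2 * (Real.exp (-(((k : ℝ) - 1 / Real.log (4 / 3) * Real.log x) ^ 2 /
          (2 * (2 * Real.log 2 ^ 2 / Real.log (4 / 3) ^ 3 * Real.log x)))) /
          Real.sqrt (2 * Real.pi * (2 * Real.log 2 ^ 2 / Real.log (4 / 3) ^ 3 * Real.log x)))) -
        Ψ (Real.logb 2 (3 ^ k * x))| ≤ ε) ∧
    (∃ A : ℝ, 0 < A ∧ ∀ x : ℝ, 2 ≤ x → ∀ k : ℕ,
      ({N : ℤ | -x ≤ (N : ℝ) ∧ N < 0 ∧ Odd N ∧ En F k N}.ncard : ℝ) ≤ A * x / Real.sqrt (Real.log x)) ∧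
    (∀ ε : ℝ, 0 < ε → ∃ X₀ : ℝ, ∀ x : ℝ, X₀ ≤ x →
      (∀ k : ℕ, ({N : ℤ | -x ≤ (N : ℝ) ∧ N < 0 ∧ Odd N ∧ En F k N}.ncard : ℝ) ≤
        (M + ε) * (x / 2) / Real.sqrt (2 * Real.pi * (2 * Real.log 2 ^ 2 / Real.log (4 / 3) ^ 3 * Real.log x))) ∧
      (∃ k : ℕ, |(k : ℝ) - 1 / Real.log (4 / 3) * Real.log x| ≤ ε * Real.sqrt (Real.log x) ∧
        (M - ε) * (x / 2) / Real.sqrt (2 * Real.pi * (2 * Real.log 2 ^ 2 / Real.log (4 / 3) ^ 3 * Real.log x)) ≤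
          ({N : ℤ | -x ≤ (N : ℝ) ∧ N < 0 ∧ Odd N ∧ En F k N}.ncard : ℝ)) ∧
      ∀ k : ℕ, (∀ i : ℕ, {N : ℤ | -x ≤ (N : ℝ) ∧ N < 0 ∧ Odd N ∧ En F i N}.ncard ≤
          {N : ℤ | -x ≤ (N : ℝ) ∧ N < 0 ∧ Odd N ∧ En F k N}.ncard) →
        |(k : ℝ) - 1 / Real.log (4 / 3) * Real.log x| ≤ ε * Real.sqrt (Real.log x)) ∧
    (∀ r : ℕ, 1 ≤ r → Tendsto (fun x : ℝ =>
      ({w : Fin r → ℤ | (∀ i, -x ≤ (w i : ℝ) ∧ w i < 0 ∧ Odd (w i)) ∧ ∃ k : ℕ, ∀ i, En F k (w i)}.ncard : ℝ) *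
        (Real.sqrt (2 * Real.pi * (2 * Real.log 2 ^ 2 / Real.log (4 / 3) ^ 3 * Real.log x)) ^ (r - 1) /
          (x / 2) ^ r)) atTop
      (𝓝 (1 / Real.sqrt r * ∫ t in (0 : ℝ)..1, Ψ t ^ r))) := by
  have hFo : ∀ y ∈ F, y % 2 = 1 := fun y hy => (hF y hy).2
  obtain ⟨δ, Ψ, h0, h1, h2, h3, h4, LA, L⟩ := law_neg2 hne hF hS
  have hD : De (A0 PO / lam) (fun x j => 2 * NB PO 1 (-1) F x j) :=
    De_pert (NA_De_all PO odd_one (by omega) (Or.inr rfl) F LA) (fun x j => by linarith [NB_le PO 1 (-1) F x j])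
  have hneg : ∀ (x : ℝ) (j : ℤ), j < 0 → 2 * NB PO 1 (-1) F x j = 0 := by
    intro x j hj
    have g1 := NB_le PO 1 (-1) F x j
    rw [NA_neg_all PO x hj] at g1
    have g2 : 0 ≤ NB PO 1 (-1) F x j := by unfold NB; positivity
    linarith
  obtain ⟨t₀, g1, g2, g3⟩ := mode_nat L h0 hD hneg
  obtain ⟨A, hA, hup⟩ := up_all (NA_Up_all PO (d := 1) odd_one (by omega) (Or.inr rfl : (-1 : ℤ) = 1 ∨ _) F) (c := 1)
    (by norm_num) (fun x hx j => by rw [one_mul]; exact NA_triv' PO hx j)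
  have hu : ∀ x : ℝ, 2 ≤ x → ∀ j : ℤ, 2 * NB PO 1 (-1) F x j ≤ (2 * A) * x / Real.sqrt (Real.log x) := by
    intro x hx j
    have e2 : 2 * A * x / Real.sqrt (Real.log x) = 2 * (A * x / Real.sqrt (Real.log x)) := by ring
    rw [e2]
    exact mul_le_mul_of_nonneg_left ((NB_le PO 1 (-1) F x j).trans (hup x hx j)) (by norm_num)
  have hmu : A0 PO / lam = 1 / Real.log (4 / 3) := by rw [A0_PO]; rfl
  have hsd : ∀ x, sd (2 * ww PO ^ 2 / lam ^ 3) x =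
      Real.sqrt (2 * Real.pi * (2 * Real.log 2 ^ 2 / Real.log (4 / 3) ^ 3 * Real.log x)) := by
    intro x
    unfold sd
    rw [ww_PO]
    rfl
  refine ⟨δ, Ψ, Ψ t₀, h0, h1, h2, h3, L.cont, L.per, h4, L.psi_int, g1, ⟨t₀, rfl⟩, ?_, ?_, ?_, ?_, ?_⟩
  · rw [← L.psi_int]
    exact le_max_int L.cont g1
  · intro K ε hε
    obtain ⟨X₀, hX0, hX⟩ := L.loc K ε hε
    refine ⟨X₀, fun x hx k hk => ?_⟩
    have hx0 : 0 < x := by linarith
    have h8 := hX x hx (k : ℤ) (by rw [hmu]; exact_mod_cast hk)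
    have e2 : Real.log x / ww PO - ((k : ℤ) : ℝ) * (kap PO / ww PO) = Real.logb 2 (3 ^ k * x) := by
      unfold Real.logb
      rw [ww_PO, kap_PO, Real.log_mul (by positivity) hx0.ne', Real.log_pow]
      push_cast
      ring
    rw [e2, cnt_neg hFo] at h8
    unfold gn at h8
    rw [hsd, hmu, ww_PO] at h8
    have e3 : ∀ c g : ℝ, 2 * c / (x * g) = c / (x / 2 * g) := by
      intro c g
      rw [show x / 2 * g = x * g / 2 by ring, div_div_eq_mul_div]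
      congr 1
      ring
    rw [e3] at h8
    exact_mod_cast h8
  · refine ⟨A, hA, fun x hx k => ?_⟩
    rw [← cnt_neg hFo]
    exact (NB_le PO 1 (-1) F x k).trans (hup x hx k)
  · intro ε hε
    obtain ⟨X₀, _, hX⟩ := g3 ε hε
    refine ⟨X₀, fun x hx => ?_⟩
    obtain ⟨a1, ⟨k, a2, a3⟩, a4⟩ := hX x hx
    rw [hmu] at a2 a4
    rw [hsd] at a1 a3
    refine ⟨fun k => ?_, ⟨k, a2, ?_⟩, fun k hk => a4 k fun i => ?_⟩
    · have := a1 k
      rw [cnt_neg hFo] at this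
      have e : (Ψ t₀ + ε) * (x / 2) / Real.sqrt (2 * Real.pi * (2 * Real.log 2 ^ 2 / Real.log (4 / 3) ^ 3 * Real.log x)) =
        (Ψ t₀ + ε) * x / Real.sqrt (2 * Real.pi * (2 * Real.log 2 ^ 2 / Real.log (4 / 3) ^ 3 * Real.log x)) / 2 := by ring
      rw [e]
      linarith
    · rw [cnt_neg hFo] at a3
      have e : (Ψ t₀ - ε) * (x / 2) / Real.sqrt (2 * Real.pi * (2 * Real.log 2 ^ 2 / Real.log (4 / 3) ^ 3 * Real.log x)) =
        (Ψ t₀ - ε) * x / Real.sqrt (2 * Real.pi * (2 * Real.log 2 ^ 2 / Real.log (4 / 3) ^ 3 * Real.log x)) / 2 := by ring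
      rw [e]
      linarith
    · rw [cnt_neg hFo, cnt_neg hFo]
      have := hk i
      have h7 : ({N : ℤ | -x ≤ (N : ℝ) ∧ N < 0 ∧ Odd N ∧ En F i N}.ncard : ℝ) ≤
          {N : ℤ | -x ≤ (N : ℝ) ∧ N < 0 ∧ Odd N ∧ En F k N}.ncard := by exact_mod_cast this
      linarith
  · intro r hr
    have h6 := tup_nat L (show 0 < 2 * A by positivity) hu
      (S := fun j => {n : ℕ | n % 2 = 1 ∧ n ∈ Lv PO 1 (-1) F j}) (X := fun x => {n : ℕ | (n : ℝ) ≤ x}) (c := 2)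
      (fun x => fin_le x) (fun n j j' a b => Lv_unique PO a.2 b.2) (fun x j => rfl) r hr
    refine h6.congr fun x => ?_
    have e : {w : Fin r → ℤ | (∀ i, -x ≤ (w i : ℝ) ∧ w i < 0 ∧ Odd (w i)) ∧ ∃ k : ℕ, ∀ i, En F k (w i)} =
        (fun (w : Fin r → ℕ) (i : Fin r) => -(w i : ℤ)) ''
        {w : Fin r → ℕ | (∀ i, w i ∈ {n : ℕ | (n : ℝ) ≤ x}) ∧ ∃ j, ∀ i, w i ∈ {n : ℕ | n % 2 = 1 ∧ n ∈ Lv PO 1 (-1) F j}} := by
      ext w
      rw [Set.mem_image]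
      constructor
      · rintro ⟨b1, k, b2⟩
        have b3 : ∀ i, -(((w i).natAbs : ℕ) : ℤ) = w i := fun i => by have := (b1 i).2.1; omega
        refine ⟨fun i => (w i).natAbs, ⟨fun i => ?_, (k : ℤ), fun i => ⟨?_, ?_⟩⟩, ?_⟩
        · have g6 : (((w i).natAbs : ℕ) : ℝ) = -(w i : ℝ) := by
            have h9 : (((w i).natAbs : ℕ) : ℤ) = -w i := by have := b3 i; omega
            rw [← Int.cast_natCast, h9, Int.cast_neg]
          rw [Set.mem_ofPred_eq, g6]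
          linarith [(b1 i).1]
        · have := Int.odd_iff.1 (b1 i).2.2
          have := b3 i
          change (w i).natAbs % 2 = 1
          omega
        · have := Int.odd_iff.1 (b1 i).2.2
          have b4 := b3 i
          change (w i).natAbs ∈ Lv PO 1 (-1) F (k : ℤ)
          rw [lv_neg hFo (by omega), b4]
          exact b2 i
        · funext i
          exact b3 i
      · rintro ⟨v, ⟨b1, j, b2⟩, rfl⟩
        have hj : 0 ≤ j := by
          by_contra hcon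
          exact Lv_neg_all PO (by omega) (b2 ⟨0, hr⟩).2
        obtain ⟨k, rfl⟩ := Int.eq_ofNat_of_zero_le hj
        refine ⟨fun i => ⟨?_, ?_, ?_⟩, k, fun i => ?_⟩
        · have := b1 i
          rw [Set.mem_ofPred_eq] at this
          simp only
          push_cast
          linarith
        · have := (b2 i).1
          simp only
          omega
        · have := (b2 i).1
          rw [Int.odd_iff]
          simp only
          omega
        · exact (lv_neg hFo (b2 i).1 k).1 (b2 i).2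
    rw [e, Set.ncard_image_of_injective, hsd, div_pow x 2 r, div_div_eq_mul_div]
    · ring
    · intro v v' hv
      funext i
      have := congrFun hv i
      simp only at this
      omega

end Pool.Agent.R468.MG
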