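import Pool.Agent.R468.MG.E

/-!
Exhaustion by the basins of finite sets: the limit law for infinite families.
-/

set_option autoImplicit false

namespace Pool.Agent.R468.MG

open Finset Filter Topology
open Pool.Agent.R468.GL
open Pool.Agent.R468.MF
open Pool.Agent.H499R2.LT (od RF SpW Td_two_pow')
open Pool.Agent.H499R2.ND (Td HD G pos mem_pos Fd Fd_nonneg Fd_le_one G_mono G_nonneg Inv Fwd main_pos)
open Pool.Agent.R468.LL (lam lam_eq lam_pos lam_lt)

variable (P : Par)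

/-- shift of the value -/
def sh (c : ℤ) (p : ℝ × ℤ) : ℝ × ℤ := (p.1, p.2 + c)

theorem sh_xg (c : ℤ) (K : ℝ) : Tendsto (sh c) (xg P K) (xg P (|K| + 1)) := by
  refine tendsto_inf.2 ⟨tendsto_comap_iff.2 ?_, tendsto_principal.2 ?_⟩
  · exact xg_fst P K
  · filter_upwards [xg_dev P K, (xg_sqrt P K).eventually (eventually_ge_atTop |(c : ℝ) * lam|)] with p h1 h2
    unfold sh
    simp only
    push_cast
    have e : ((p.2 : ℝ) + c) * lam - A0 P * Real.log p.1 = (p.2 * lam - A0 P * Real.log p.1) + c * lam := by ring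
    rw [e]
    have h3 : K * Real.sqrt (Real.log p.1) ≤ |K| * Real.sqrt (Real.log p.1) :=
      mul_le_mul_of_nonneg_right (le_abs_self K) (Real.sqrt_nonneg _)
    linarith [abs_add_le (p.2 * lam - A0 P * Real.log p.1) ((c : ℝ) * lam)]

theorem sv_sh (c : ℤ) (p : ℝ × ℤ) : sv P (sh c p) = sv P p - c * kap P / ww P := by
  unfold sv sh
  simp only
  push_cast
  ring

theorem Est_sh (c : ℤ) (K : ℝ) : Tendsto (fun p : ℝ × ℤ => Est P p - Est P (sh c p)) (xg P K) (𝓝 0) := by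
  have hw := ww_pos P
  have hlam := lam_pos
  have hC0 : 0 ≤ lam / (4 * ww P ^ 2) := by positivity
  set b : ℝ := |(c : ℝ) * lam| with hb
  have h2 : Tendsto (fun p : ℝ × ℤ => lam / (4 * ww P ^ 2) * ((2 * |K| * b + b ^ 2) /
      Real.sqrt (Real.log p.1))) (xg P K) (𝓝 (lam / (4 * ww P ^ 2) * 0)) :=
    (tendsto_const_nhds.div_atTop (xg_sqrt P K)).const_mul _
  rw [mul_zero] at h2
  refine squeeze_zero_norm' ?_ h2
  filter_upwards [xg_dev P K, (xg_log P K).eventually (eventually_ge_atTop 1)] with p h3 h5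
  unfold Est sh
  simp only
  push_cast
  set L := Real.log p.1 with hL
  set Dv : ℝ := p.2 * lam - A0 P * L with hDv
  have e0 : ((p.2 : ℝ) + c) * lam - A0 P * L = Dv + c * lam := by rw [hDv]; ring
  rw [e0]
  have hL0 : 0 < L := by linarith
  have hr0 : 0 < Real.sqrt L := Real.sqrt_pos.2 hL0
  have hr1 : 1 ≤ Real.sqrt L := Real.one_le_sqrt.2 h5
  have hrr : Real.sqrt L * Real.sqrt L = L := Real.mul_self_sqrt hL0.le
  rw [Real.norm_eq_abs]
  refine (Pool.Agent.R468.LL.exp_sub_le (by positivity) (by positivity)).trans ?_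
  have e3 : Dv ^ 2 * lam / (4 * ww P ^ 2 * L) - (Dv + c * lam) ^ 2 * lam / (4 * ww P ^ 2 * L) =
      -(lam / (4 * ww P ^ 2) * ((2 * Dv * (c * lam) + (c * lam) ^ 2) / L)) := by
    field_simp
    ring
  rw [e3, abs_neg, abs_mul, abs_of_nonneg hC0]
  apply mul_le_mul_of_nonneg_left _ hC0
  rw [abs_div, abs_of_pos hL0, div_le_div_iff₀ hL0 hr0]
  have hDK : |Dv| ≤ |K| * Real.sqrt L := h3.trans (mul_le_mul_of_nonneg_right (le_abs_self K) hr0.le)
  have hb0 : 0 ≤ b := abs_nonneg _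
  have k1 : |2 * Dv * (c * lam) + (c * lam) ^ 2| ≤ 2 * (|K| * Real.sqrt L) * b + b ^ 2 := by
    refine (abs_add_le _ _).trans (add_le_add ?_ ?_)
    · rw [abs_mul, abs_mul, abs_two]
      exact mul_le_mul_of_nonneg_right (mul_le_mul_of_nonneg_left hDK (by norm_num)) hb0
    · rw [abs_pow]
  calc |2 * Dv * (c * lam) + (c * lam) ^ 2| * Real.sqrt L
      ≤ (2 * (|K| * Real.sqrt L) * b + b ^ 2) * Real.sqrt L := mul_le_mul_of_nonneg_right k1 hr0.le
    _ ≤ (2 * (|K| * Real.sqrt L) * b + b ^ 2 * Real.sqrt L) * Real.sqrt L := by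
      apply mul_le_mul_of_nonneg_right _ hr0.le
      have : b ^ 2 ≤ b ^ 2 * Real.sqrt L := le_mul_of_one_le_right (by positivity) hr1
      linarith
    _ = (2 * |K| * b + b ^ 2) * (Real.sqrt L * Real.sqrt L) := by ring
    _ = (2 * |K| * b + b ^ 2) * L := by rw [hrr]

/-- shift of the value in a law -/
theorem law_sh {N : ℝ → ℤ → ℝ} {U : ℝ → ℝ} {M : ℝ} (hM : ∀ s, |U s| ≤ M)
    (h : ∀ K : ℝ, Tendsto (fun p : ℝ × ℤ => Real.sqrt (Real.log p.1) / p.1 * N p.1 p.2 -
      U (sv P p) * Est P p) (xg P K) (𝓝 0)) (c : ℤ) (K : ℝ) :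
    Tendsto (fun p : ℝ × ℤ => Real.sqrt (Real.log p.1) / p.1 * N p.1 (p.2 + c) -
      U (sv P p - c * kap P / ww P) * Est P p) (xg P K) (𝓝 0) := by
  have h1 := (h (|K| + 1)).comp (sh_xg P c K)
  have h2 : Tendsto (fun p : ℝ × ℤ => U (sv P p - c * kap P / ww P) * (Est P p - Est P (sh c p))) (xg P K) (𝓝 0) := by
    refine squeeze_zero_norm (a := fun p => M * |Est P p - Est P (sh c p)|) (fun p => ?_) ?_
    · rw [Real.norm_eq_abs, abs_mul]
      exact mul_le_mul_of_nonneg_right (hM _) (abs_nonneg _)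
    · have := ((Est_sh P c K).abs).const_mul M
      rwa [abs_zero, mul_zero] at this
  have h3 := h1.sub h2
  rw [sub_zero] at h3
  refine h3.congr fun p => ?_
  simp only [Function.comp_def]
  rw [sv_sh]
  unfold sh
  simp only
  ring

/-- comparison of the profiles -/
theorem law_cmp {N : ℝ → ℤ → ℝ} {U : ℝ → ℝ} (hp : ∀ s, U (s + 1) = U s)
    (h : Tendsto (fun p : ℝ × ℤ => Real.sqrt (Real.log p.1) / p.1 * N p.1 p.2 -
      U (sv P p) * Est P p) (xg P 1) (𝓝 0)) (s : ℝ) :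
    Tendsto (fun i : ℕ => Real.sqrt (Real.log (pth P s i).1) / (pth P s i).1 * N (pth P s i).1 (pth P s i).2) atTop
      (𝓝 (U s)) := by
  have h1 := h.comp (pth_xg P s)
  have h2 := (Est_pth P s).const_mul (U s)
  have h3 := h1.add h2
  rw [zero_add, mul_one] at h3
  refine h3.congr fun i => ?_
  simp only [Function.comp_def]
  rw [sv_pth, per_int hp]
  ring

variable {P}

/-- the exhaustion -/
structure Ex (P : Par) (d : ℤ) (R B : Set ℤ) (κ ω : ℤ → ℤ) : Prop where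
  fc : Pool.Agent.H499R2.CZ.FC d R
  sp : SpW R
  gr : Gr d R B κ ω
  inv : Inv d B
  ex : ∀ y : ℝ, 2 ≤ y → ∃ (F : Finset ℤ) (c : ℤ), RR d F ⊆ B ∧
    (∀ x ∈ RR d F, P.α * ω x + P.β * κ x + c = st P d F x) ∧
    (∀ x, x ∉ R → (x ∈ RR d F ↔ Td d x ∈ RR d F)) ∧
    ∀ x ∈ B, 0 < x → (x : ℝ) ≤ y → x ∈ RR d F

theorem fwd_of {d : ℤ} {S : Set ℤ} (h : ∀ x ∈ S, Td d x ∈ S) : Fwd d S := by
  intro M x e he hM hx hMS hMx
  have h1 : Td d M = 2 ^ (e - 1) * x := by
    obtain ⟨e', rfl⟩ : ∃ e', e = e' + 1 := ⟨e - 1, by omega⟩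
    rw [Nat.add_sub_cancel]
    unfold Td
    rw [if_neg (by obtain ⟨t, ht⟩ := hM; omega), hMx, pow_succ,
      show (2 : ℤ) ^ e' * 2 * x = 2 * (2 ^ e' * x) by ring]
    omega
  have h2 : ∀ i : ℕ, (Td d)^[i] (Td d M) ∈ S := by
    intro i
    induction i with
    | zero => exact h M hMS
    | succ i ih => rw [Function.iterate_succ_apply']; exact h _ ih
  have h3 := h2 (e - 1)
  rwa [h1, Td_two_pow'] at h3

theorem RR_back {d : ℤ} {F : Finset ℤ} {x : ℤ} (h : Td d x ∈ RR d F) : x ∈ RR d F := by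
  obtain ⟨k, hk⟩ := h
  exact ⟨k + 1, by rw [Function.iterate_succ_apply]; exact hk⟩

theorem HD_nn {S : Set ℤ} {l : ℝ} (h : HD 1 S l) : 0 ≤ l := Pool.Agent.R468.LL.hd_nn h

theorem HD_one {S : Set ℤ} {l : ℝ} : HD 1 S l ↔ Tendsto (fun X : ℝ => G S X / X) atTop (𝓝 l) := by
  unfold HD
  have : {x : ℤ | 1 * x ∈ S} = S := by ext x; simp
  rw [this]

/-- one step of the exhaustion -/
theorem ex_step {d : ℤ} (hd : Odd d) (hd3 : IsCoprime d 3) {R B : Set ℤ} {κ ω : ℤ → ℤ} (E : Ex P d R B κ ω)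
    {D : ℝ} (hD : HD 1 B D) {ε : ℝ} (hε : 0 < ε) :
    ∃ (F : Finset ℤ) (c : ℤ) (DF : ℝ), HD 1 (RR d F) DF ∧ DF ≤ D ∧ D ≤ DF + ε ∧ ∃ X₀ : ℝ, 2 ≤ X₀ ∧
      ∀ x : ℝ, X₀ ≤ x → ∀ j : ℤ, FC P d F x (j + c) ≤ CG P B κ ω x j ∧
        CG P B κ ω x j ≤ FC P d F x (j + c) + ε * x / Real.sqrt (Real.log x) := by
  classical
  obtain ⟨K, hK, hmain⟩ := main_pos 1 hd hd3
  obtain ⟨y, hy2, hy⟩ : ∃ y : ℝ, 2 ≤ y ∧ 725 * (K / Real.log y) ≤ ε := by
    refine ⟨max 2 (Real.exp (725 * K / ε)), le_max_left _ _, ?_⟩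
    have h1 : 725 * K / ε ≤ Real.log (max 2 (Real.exp (725 * K / ε))) := by
      rw [Real.le_log_iff_exp_le (by positivity)]
      exact le_max_right _ _
    have h2 : 0 < Real.log (max 2 (Real.exp (725 * K / ε))) := lt_of_lt_of_le (by positivity) h1
    rw [← mul_div_assoc, div_le_iff₀ h2]
    rw [div_le_iff₀ hε] at h1
    linarith
  have hly : 0 < Real.log y := Real.log_pos (by linarith)
  obtain ⟨F, c, hF1, hF2, hF3, hF4⟩ := E.ex y hy2
  obtain ⟨DF, _, hDF, _⟩ := profile P hd hd3 F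
  -- the rest
  set W : Set ℤ := {x | x ∈ B ∧ x ∉ RR d F} with hW
  have hWf : ∀ x ∈ W, Td d x ∈ W := by
    rintro x ⟨h1, h2⟩
    exact ⟨(E.inv x).1 h1, fun h => h2 (RR_back h)⟩
  have hW2 : ∀ x : ℤ, 2 * x ∈ W → x ∈ W := by
    intro x hx
    have := hWf _ hx
    rwa [Td_two] at this
  have hWG : ∀ X : ℝ, 0 ≤ X → G W X ≤ K * X / Real.log y := by
    intro X hX
    have := hmain y hy2 W (fwd_of hWf) hW2 (by
      intro x hx h0
      by_contra hcon
      exact hx.2 (hF4 x hx.1 h0 (not_lt.1 hcon))) X hX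
    rwa [pow_one] at this
  have hsplit : ∀ X : ℝ, G B X = G (RR d F) X + G W X := by
    intro X
    unfold G
    have h1 : pos B X = pos (RR d F) X ∪ pos W X := by
      ext n
      rw [mem_union, mem_pos, mem_pos, mem_pos]
      constructor
      · rintro ⟨h1, h2⟩
        by_cases h3 : n ∈ RR d F
        · exact Or.inl ⟨h1, h3⟩
        · exact Or.inr ⟨h1, h2, h3⟩
      · rintro (⟨h1, h2⟩ | ⟨h1, h2⟩)
        · exact ⟨h1, hF1 h2⟩
        · exact ⟨h1, h2.1⟩
    have h2 : Disjoint (pos (RR d F) X) (pos W X) := by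
      rw [Finset.disjoint_left]
      intro n h3 h4
      rw [mem_pos] at h3 h4
      exact h4.2.2 h3.2
    rw [h1, card_union_of_disjoint h2]
    push_cast
    rfl
  have hDle : DF ≤ D := by
    rw [HD_one] at hD hDF
    refine le_of_tendsto_of_tendsto hDF hD ?_
    filter_upwards [eventually_gt_atTop (0 : ℝ)] with X hX
    apply div_le_div_of_nonneg_right _ hX.le
    rw [hsplit]
    linarith [G_nonneg W X]
  have hDge : D ≤ DF + K / Real.log y := by
    rw [HD_one] at hD hDF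
    refine le_of_tendsto_of_tendsto hD (hDF.add_const _) ?_
    filter_upwards [eventually_gt_atTop (0 : ℝ)] with X hX
    have h1 := hWG X hX.le
    rw [hsplit, add_div]
    have h2 : G W X / X ≤ K / Real.log y := by
      rw [div_le_iff₀ hX]
      refine h1.trans (le_of_eq ?_)
      ring
    linarith
  have hKy : K / Real.log y ≤ ε := by
    have : 0 < K / Real.log y := by positivity
    linarith
  -- the counts
  have hgrW : Gr d R W κ ω := by
    refine ⟨fun x hx => ?_, fun x hx h => E.gr.st1 x hx h.1, fun x hx h => E.gr.st2 x hx h.1⟩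
    constructor
    · exact hWf x
    · rintro ⟨h1, h2⟩
      exact ⟨(E.inv x).2 h1, fun h => h2 ((hF3 x hx).1 h)⟩
  have hup : UpC (725 * (K / Real.log y)) (CG P W κ ω) := by
    refine upC hd hd3 E.fc E.sp hgrW (E := K / Real.log y) (T₀ := 0) (by positivity) (fun t _ => ?_)
    unfold Fd
    have he := Real.exp_pos t
    rw [div_le_iff₀ (by positivity)]
    have h1 := hWG (2 * Real.exp t) (by positivity)
    have h2 := G_nonneg W (Real.exp t)
    have h3 : K * (2 * Real.exp t) / Real.log y = K / Real.log y * (2 * Real.exp t) := by ring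
    have h4 : 0 < K / Real.log y * Real.exp t := by positivity
    rw [h3] at h1
    linarith
  obtain ⟨X₀, hX0, hX⟩ := hup
  refine ⟨F, c, DF, hDF, hDle, hDge.trans (by linarith), X₀, hX0, fun x hx j => ?_⟩
  have h1 : CG P B κ ω x j = FC P d F x (j + c) + CG P W κ ω x j := by
    unfold CG FC
    have h2 : (Icc (1 : ℤ) ⌊x⌋).filter (fun n => n ∈ Lj P B κ ω j) =
        (Icc (1 : ℤ) ⌊x⌋).filter (fun n => n ∈ RR d F ∧ st P d F n = j + c) ∪
          (Icc (1 : ℤ) ⌊x⌋).filter (fun n => n ∈ Lj P W κ ω j) := by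
      ext n
      rw [mem_union, mem_filter, mem_filter, mem_filter]
      constructor
      · rintro ⟨g1, g2, g3⟩
        by_cases h3 : n ∈ RR d F
        · left
          refine ⟨g1, h3, ?_⟩
          rw [← hF2 n h3, g3]
        · exact Or.inr ⟨g1, ⟨g2, h3⟩, g3⟩
      · rintro (⟨g1, g2, g3⟩ | ⟨g1, g2, g3⟩)
        · refine ⟨g1, hF1 g2, ?_⟩
          have := hF2 n g2
          omega
        · exact ⟨g1, g2.1, g3⟩
    have h3 : Disjoint ((Icc (1 : ℤ) ⌊x⌋).filter (fun n => n ∈ RR d F ∧ st P d F n = j + c))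
        ((Icc (1 : ℤ) ⌊x⌋).filter (fun n => n ∈ Lj P W κ ω j)) := by
      rw [Finset.disjoint_left]
      intro n g1 g2
      rw [mem_filter] at g1 g2
      exact g2.2.1.2 g1.2.1
    rw [h2, card_union_of_disjoint h3]
    push_cast
    rfl
  have h2 := hX x hx j
  have h3 := CG_nonneg P W κ ω x j
  have hx0 : 0 ≤ x := by linarith
  have h4 : 725 * (K / Real.log y) * x / Real.sqrt (Real.log x) ≤ ε * x / Real.sqrt (Real.log x) :=
    div_le_div_of_nonneg_right (mul_le_mul_of_nonneg_right hy hx0) (Real.sqrt_nonneg _)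
  rw [h1]
  constructor <;> linarith

end Pool.Agent.R468.MG
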