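import Pool.Agent.R468.MG.G

/-!
Exhaustion by the basins of finite sets: the profile.
-/

set_option autoImplicit false

namespace Pool.Agent.R468.MG

open Finset Filter Topology
open Pool.Agent.R468.GL
open Pool.Agent.R468.MF
open Pool.Agent.H499R2.LT (od RF SpW)
open Pool.Agent.H499R2.ND (Td HD G pos mem_pos Fd Fd_nonneg Fd_le_one G_mono G_nonneg Inv HD_unique dens_side)
open Pool.Agent.R468.LL (lam lam_eq lam_pos lam_lt)

variable {P : Par}

theorem per_shift_int {U : ℝ → ℝ} (hp : ∀ s, U (s + 1) = U s) (a : ℝ) :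
    ∫ s in (0 : ℝ)..1, U (s - a) = ∫ s in (0 : ℝ)..1, U s := by
  have hper : Function.Periodic U 1 := hp
  rw [intervalIntegral.integral_comp_sub_right (fun x => U x) a]
  have h := hper.intervalIntegral_add_eq (0 - a) 0
  rw [zero_add] at h
  rw [show (1 : ℝ) - a = 0 - a + 1 by ring]
  exact h

/-- THE PROFILE of an exhausted family -/
theorem ex_profile {d : ℤ} (hd : Odd d) (hd3 : IsCoprime d 3) {R B : Set ℤ} {κ ω : ℤ → ℤ} (E : Ex P d R B κ ω) :
    ∃ (D : ℝ) (U : ℝ → ℝ), HD 1 B D ∧ D ≤ 1 ∧ Continuous U ∧ (∀ s, U (s + 1) = U s) ∧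
    (∀ s, cst P * D * qr P ≤ U s ∧ U s ≤ cst P * D) ∧
    (∫ s in (0 : ℝ)..1, U s = cst P * D * ((1 - qr P) / ww P)) ∧
    ∀ K : ℝ, Tendsto (fun p : ℝ × ℤ => Real.sqrt (Real.log p.1) / p.1 * CG P B κ ω p.1 p.2 -
      U (sv P p) * Est P p) (xg P K) (𝓝 0) := by
  have hw := ww_pos P
  have hcst := cst_pos P
  have hq := oq_pos P
  have hq0 := qr_pos P
  obtain ⟨D, hD0, hD1, hD⟩ := dens_side hd hd3 (s := 1) (Or.inl rfl) E.inv
  choose F c DF hDF hle hge X₀ hX0 hcomp using fun i : ℕ =>
    ex_step hd hd3 E hD (ε := 1 / ((i : ℝ) + 1)) (by positivity)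
  choose D' U hHD hUc hUp hUb hUi hUl using fun i : ℕ => profile P hd hd3 (F i)
  have hDD : ∀ i, D' i = DF i := fun i => HD_unique (hHD i) (hDF i)
  set e : ℕ → ℝ := fun i => 1 / ((i : ℝ) + 1) with he
  have he0 : ∀ i, 0 < e i := fun i => by simp only [he]; positivity
  have helim : Tendsto e atTop (𝓝 0) := tendsto_one_div_add_atTop_nhds_zero_nat
  have hDFlim : Tendsto DF atTop (𝓝 D) := by
    have h1 : Tendsto (fun i => D - e i) atTop (𝓝 (D - 0)) := helim.const_sub D
    rw [sub_zero] at h1
    exact tendsto_of_tendsto_of_tendsto_of_le_of_le h1 tendsto_const_nhds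
      (fun i => by have := hge i; simp only [he]; linarith) (fun i => hle i)
  have hDF0 : ∀ i, 0 ≤ DF i := fun i => HD_nn (hDF i)
  have hUM : ∀ i s, |U i s| ≤ cst P * D := by
    intro i s
    obtain ⟨a, b⟩ := hUb i s
    rw [hDD] at a b
    have := hDF0 i
    rw [abs_of_nonneg (le_trans (by positivity) a)]
    exact b.trans (mul_le_mul_of_nonneg_left (hle i) hcst.le)
  set V : ℕ → ℝ → ℝ := fun i s => U i (s - c i * kap P / ww P) with hV
  have hVp : ∀ i s, V i (s + 1) = V i s := by
    intro i s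
    simp only [hV]
    rw [show s + 1 - c i * kap P / ww P = (s - c i * kap P / ww P) + 1 by ring, hUp]
  have hVc : ∀ i, Continuous (V i) := fun i => (hUc i).comp (continuous_id.sub continuous_const)
  have hVl : ∀ i (K : ℝ), Tendsto (fun p : ℝ × ℤ => Real.sqrt (Real.log p.1) / p.1 * FC P d (F i) p.1 (p.2 + c i) -
      V i (sv P p) * Est P p) (xg P K) (𝓝 0) := fun i K => law_sh P (hUM i) (hUl i) (c i) K
  -- comparison
  have hVV : ∀ i k s, V i s ≤ V k s + e k := by
    intro i k s
    have h1 := law_cmp P (N := fun x j => FC P d (F i) x (j + c i)) (hVp i) (hVl i 1) s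
    have h2 := law_cmp P (N := fun x j => FC P d (F k) x (j + c k)) (hVp k) (hVl k 1) s
    refine le_of_tendsto_of_tendsto h1 (h2.add_const (e k)) ?_
    have h3 := (xg_fst P 1).comp (pth_xg P s)
    filter_upwards [h3.eventually (eventually_ge_atTop (max (X₀ i) (X₀ k)))] with n hn
    simp only [Function.comp_def] at hn
    set x := (pth P s n).1 with hx
    set j := (pth P s n).2 with hj
    have g1 := (hcomp i x ((le_max_left _ _).trans hn) j).1
    have g2 := (hcomp k x ((le_max_right _ _).trans hn) j).2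
    have hx2 : 2 ≤ x := (hX0 i).trans ((le_max_left _ _).trans hn)
    have hl : 0 < Real.log x := Real.log_pos (by linarith)
    have hr := Real.sqrt_pos.2 hl
    have g3 := mul_le_mul_of_nonneg_left (g1.trans g2) (show 0 ≤ Real.sqrt (Real.log x) / x by positivity)
    refine g3.trans (le_of_eq ?_)
    simp only [he]
    field_simp
  set W : ℝ → ℝ := fun s => ⨆ i, V i s with hW
  have hbdd : ∀ s, BddAbove (Set.range fun i => V i s) := fun s => ⟨V 0 s + e 0, by
    rintro _ ⟨i, rfl⟩
    exact hVV i 0 s⟩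
  have hW1 : ∀ i s, V i s ≤ W s := fun i s => le_ciSup (hbdd s) i
  have hW2 : ∀ i s, W s ≤ V i s + e i := fun i s => ciSup_le fun k => hVV k i s
  have hdist : ∀ i s, |V i s - W s| ≤ e i := by
    intro i s
    rw [abs_le]
    constructor <;> linarith [hW1 i s, hW2 i s]
  have hWc : Continuous W := by
    have hunif : TendstoUniformly V W atTop := by
      rw [Metric.tendstoUniformly_iff]
      intro ε hε
      filter_upwards [helim.eventually (gt_mem_nhds hε)] with i hi s
      rw [Real.dist_eq, abs_sub_comm]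
      exact (hdist i s).trans_lt hi
    exact hunif.continuous (Eventually.frequently (Eventually.of_forall hVc))
  refine ⟨D, W, hD, hD1, hWc, ?_, ?_, ?_, ?_⟩
  · intro s
    simp only [hW, hVp]
  · intro s
    constructor
    · refine le_of_tendsto (hDFlim.const_mul (cst P) |>.mul_const (qr P)) (Eventually.of_forall fun i => ?_)
      have := (hUb i (s - c i * kap P / ww P)).1
      rw [hDD] at this
      exact this.trans (hW1 i s)
    · have h1 : Tendsto (fun i => cst P * DF i + e i) atTop (𝓝 (cst P * D + 0)) := (hDFlim.const_mul (cst P)).add helim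
      rw [add_zero] at h1
      refine ge_of_tendsto h1 (Eventually.of_forall fun i => ?_)
      have := (hUb i (s - c i * kap P / ww P)).2
      rw [hDD] at this
      exact (hW2 i s).trans (add_le_add_left this _)
  · have hVi : ∀ i, ∫ s in (0 : ℝ)..1, V i s = cst P * DF i * ((1 - qr P) / ww P) := by
      intro i
      simp only [hV]
      rw [per_shift_int (hUp i), hUi i, hDD]
    have h1 : Tendsto (fun i => ∫ s in (0 : ℝ)..1, V i s) atTop (𝓝 (∫ s in (0 : ℝ)..1, W s)) := by
      rw [tendsto_iff_dist_tendsto_zero]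
      refine squeeze_zero (fun _ => dist_nonneg) (fun i => ?_) helim
      rw [Real.dist_eq, ← intervalIntegral.integral_sub ((hVc i).intervalIntegrable _ _) (hWc.intervalIntegrable _ _)]
      have h2 := intervalIntegral.norm_integral_le_of_norm_le_const (a := 0) (b := 1) (f := fun s => V i s - W s)
        (C := e i) (fun s _ => by rw [Real.norm_eq_abs]; exact hdist i s)
      rw [Real.norm_eq_abs, sub_zero, abs_one, mul_one] at h2
      exact h2
    have h2 : Tendsto (fun i => ∫ s in (0 : ℝ)..1, V i s) atTop (𝓝 (cst P * D * ((1 - qr P) / ww P))) := by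
      simp only [hVi]
      exact (hDFlim.const_mul (cst P)).mul_const _
    exact tendsto_nhds_unique h1 h2
  · intro K
    rw [Metric.tendsto_nhds]
    intro ε hε
    obtain ⟨i, hi⟩ := (helim.eventually (gt_mem_nhds (show 0 < ε / 3 by linarith))).exists
    filter_upwards [(Metric.tendsto_nhds.1 (hVl i K)) (ε / 3) (by linarith),
      (xg_fst P K).eventually (eventually_ge_atTop (X₀ i)), (xg_log P K).eventually (eventually_gt_atTop 0)]
      with p h1 h2 h3
    obtain ⟨g1, g2⟩ := hcomp i p.1 h2 p.2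
    have hx2 : 2 ≤ p.1 := (hX0 i).trans h2
    have hr := Real.sqrt_pos.2 h3
    have hc0 : 0 ≤ Real.sqrt (Real.log p.1) / p.1 := by positivity
    have g3 := mul_le_mul_of_nonneg_left g1 hc0
    have g4 := mul_le_mul_of_nonneg_left g2 hc0
    have g5 : Real.sqrt (Real.log p.1) / p.1 * (FC P d (F i) p.1 (p.2 + c i) + 1 / ((i : ℝ) + 1) * p.1 / Real.sqrt (Real.log p.1)) =
        Real.sqrt (Real.log p.1) / p.1 * FC P d (F i) p.1 (p.2 + c i) + e i := by
      simp only [he]
      field_simp
    rw [g5] at g4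
    have hE0 : 0 < Est P p := Real.exp_pos _
    have hE1 : Est P p ≤ 1 := (Est_bd P h3.le).2
    have k1 : |V i (sv P p) * Est P p - W (sv P p) * Est P p| ≤ e i := by
      rw [← sub_mul, abs_mul, abs_of_pos hE0]
      calc |V i (sv P p) - W (sv P p)| * Est P p ≤ e i * 1 := mul_le_mul (hdist i _) hE1 hE0.le (he0 i).le
        _ = e i := mul_one _
    rw [Real.dist_eq, sub_zero] at h1 ⊢
    have a1 := abs_lt.1 h1
    have a2 := abs_le.1 k1
    rw [abs_lt]
    constructor
    · linarith [a1.1, a2.1]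
    · linarith [a1.2, a2.2]

end Pool.Agent.R468.MG
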