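import Pool.Agent.R468.MG.H

/-!
Exhaustion by the basins of finite sets: the local limit law, the uniform bound and the decay.
-/

set_option autoImplicit false

namespace Pool.Agent.R468.MG

open Finset Filter Topology
open Pool.Agent.R468.GL
open Pool.Agent.R468.MF
open Pool.Agent.H499R2.LT (od RF SpW)
open Pool.Agent.H499R2.ND (Td HD G pos mem_pos Fd Fd_nonneg Fd_le_one G_mono G_nonneg Inv HD_unique dens_side)
open Pool.Agent.R468.LL (lam lam_eq lam_pos lam_lt)

variable {P : Par}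

theorem CG_sum (B : Set ℤ) (κ ω : ℤ → ℤ) (x : ℝ) (J : Finset ℤ) : ∑ j ∈ J, CG P B κ ω x j ≤ G B x + 1 := by
  classical
  have h1 : ∑ j ∈ J, ((Icc (1 : ℤ) ⌊x⌋).filter (fun n => n ∈ Lj P B κ ω j)).card ≤
      (insert ⌊x⌋ (pos B x)).card := by
    rw [← card_biUnion]
    · apply card_le_card
      intro n hn
      rw [mem_biUnion] at hn
      obtain ⟨j, _, hn⟩ := hn
      rw [mem_filter, mem_Icc] at hn
      rw [mem_insert, mem_pos]
      rcases lt_or_ge (n : ℝ) x with h | h
      · exact Or.inr ⟨⟨hn.1.1, h⟩, hn.2.1⟩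
      · left
        apply le_antisymm hn.1.2
        have h1 : ⌊x⌋ ≤ ⌊(n : ℝ)⌋ := Int.floor_le_floor h
        rwa [Int.floor_intCast] at h1
    · intro j _ j' _ hne
      rw [Function.onFun, Finset.disjoint_left]
      intro n hn hn'
      rw [mem_filter] at hn hn'
      exact Set.disjoint_left.1 (Lj_disj hne) hn.2 hn'.2
  have h2 := h1.trans (card_insert_le _ _)
  unfold G CG
  exact_mod_cast h2

theorem CG_triv (B : Set ℤ) (κ ω : ℤ → ℤ) {x : ℝ} (hx : 0 ≤ x) (j : ℤ) : CG P B κ ω x j ≤ x := by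
  classical
  unfold CG
  have h1 := card_le_card (filter_subset (fun n => n ∈ Lj P B κ ω j) (Icc (1 : ℤ) ⌊x⌋))
  rw [Int.card_Icc] at h1
  have h2 : ((⌊x⌋ + 1 - 1).toNat : ℤ) = ⌊x⌋ := by
    rw [Int.toNat_of_nonneg (by have := Int.floor_nonneg.2 hx; omega)]; ring
  have h3 : (((Icc (1 : ℤ) ⌊x⌋).filter (fun n => n ∈ Lj P B κ ω j)).card : ℝ) ≤ ((⌊x⌋ + 1 - 1).toNat : ℝ) := by
    exact_mod_cast h1
  have h4 : (((⌊x⌋ + 1 - 1).toNat : ℕ) : ℝ) = (⌊x⌋ : ℝ) := by exact_mod_cast congrArg (Int.cast : ℤ → ℝ) h2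
  rw [h4] at h3
  exact h3.trans (Int.floor_le x)

/-- THE LOCAL LIMIT LAW of an exhausted family -/
theorem ex_law {d : ℤ} (hd : Odd d) (hd3 : IsCoprime d 3) {R B : Set ℤ} {κ ω : ℤ → ℤ} (E : Ex P d R B κ ω) :
    ∃ (δ : ℝ) (Ψ : ℝ → ℝ), 0 ≤ δ ∧ δ ≤ 1 ∧ HD 1 B δ ∧
    (∀ t, δ * (ww P * qr P / (1 - qr P)) ≤ Ψ t ∧ Ψ t ≤ δ * (ww P / (1 - qr P))) ∧
    Law (CG P B κ ω) (A0 P / lam) (2 * ww P ^ 2 / lam ^ 3) (kap P / ww P) (fun x => Real.log x / ww P) Ψ δ ∧
    Up (CG P B κ ω) ∧ De (A0 P / lam) (CG P B κ ω) := by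
  have hw := ww_pos P
  have hcst := cst_pos P
  have hq := oq_pos P
  have hq0 := qr_pos P
  have hlam := lam_pos
  obtain ⟨D, U, hD, hD1, hU1, hU2, hU3, hU4, hU5⟩ := ex_profile hd hd3 E
  have hD0 : 0 ≤ D := HD_nn hD
  set c : ℝ := ww P / (cst P * (1 - qr P)) with hc
  have hc0 : 0 < c := by positivity
  have hb : ∀ t, D * (ww P * qr P / (1 - qr P)) ≤ c * U t ∧ c * U t ≤ D * (ww P / (1 - qr P)) := by
    intro t
    obtain ⟨a, b⟩ := hU3 t
    constructor
    · have h4 := mul_le_mul_of_nonneg_left a hc0.le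
      refine le_trans (le_of_eq ?_) h4
      rw [hc]; field_simp
    · have h4 := mul_le_mul_of_nonneg_left b hc0.le
      refine h4.trans (le_of_eq ?_)
      rw [hc]; field_simp
  have L : Law (CG P B κ ω) (A0 P / lam) (2 * ww P ^ 2 / lam ^ 3) (kap P / ww P) (fun x => Real.log x / ww P)
      (fun t => c * U t) D :=
    { v_pos := by positivity
      irr := kw_irr P
      cont := continuous_const.mul hU1
      per := fun t => by simp only [hU2]
      psi_nonneg := fun t => (mul_nonneg hD0 (by positivity)).trans (hb t).1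
      psi_int := by
        rw [intervalIntegral.integral_const_mul, hU4, hc]
        field_simp
      nonneg := fun x j => CG_nonneg P B κ ω x j
      mass := by
        intro ε hε
        rw [HD_one] at hD
        obtain ⟨X₀, hX⟩ := eventually_atTop.1 (hD.eventually_lt_const (show D < D + ε / 2 by linarith))
        refine ⟨max (max X₀ 2) (2 / ε), le_max_of_le_left (le_max_right _ _), fun x hx J => ?_⟩
        have hx1 : X₀ ≤ x := ((le_max_left _ _).trans (le_max_left _ _)).trans hx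
        have hx2 : 2 ≤ x := ((le_max_right _ _).trans (le_max_left _ _)).trans hx
        have hx3 : 2 / ε ≤ x := (le_max_right _ _).trans hx
        have h1 := hX x hx1
        rw [div_lt_iff₀ (by linarith)] at h1
        rw [div_le_iff₀ hε] at hx3
        have h2 := CG_sum (P := P) B κ ω x J
        linarith
      loc := by
        intro K ε hε
        have h5 : Tendsto (fun p : ℝ × ℤ => Real.sqrt (Real.log p.1) / p.1 * CG P B κ ω p.1 p.2 -
            1 * (U (sv P p) * Est P p)) (xg P (K * lam)) (𝓝 0) := by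
          refine (hU5 (K * lam)).congr fun p => ?_
          rw [one_mul]
        obtain ⟨X₀, hX0, hX⟩ := to_quot P (FN := CG P B κ ω) (U := U) one_pos K h5 hε
        refine ⟨X₀, hX0, fun x hx j hj => ?_⟩
        have h6 := hX x hx j hj
        rw [one_mul, gd_gn] at h6
        have e : Real.log x / ww P - j * (kap P / ww P) = sv P (x, j) := by
          unfold sv
          ring
        rw [e]
        exact h6 }
  refine ⟨D, fun t => c * U t, hD0, hD1, hD, hb, L, ?_, ?_⟩
  · exact (upC hd hd3 E.fc E.sp E.gr (E := 1) (T₀ := 0) one_pos (fun t _ => Fd_le_one _ t)).up (by norm_num)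
  · exact De_CG hd hd3 E.fc E.sp E.gr (mass_out L)

end Pool.Agent.R468.MG
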