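import Pool.Agent.R468.MG.I

/-!
Merging with a trajectory which is not eventually periodic.
-/

set_option autoImplicit false

namespace Pool.Agent.R468.MG

open Finset Filter Topology
open Pool.Agent.R468.GL
open Pool.Agent.R468.MF
open Pool.Agent.H499R2.LT (od od_add RF RF_FC RF_SpW RF_sub SpW)
open Pool.Agent.H499R2.ND (Td HD Mg Mg_inv Mg_self)
open Pool.Agent.R468.LL (lam lam_eq lam_pos lam_lt)

/-- uniqueness of the time difference, ordered case -/
theorem mg_uni' {d m0 : ℤ} (hinj : Function.Injective (fun c : ℕ => (Td d)^[c] m0)) {x : ℤ} {i j i' j' : ℕ}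
    (h : (Td d)^[i] x = (Td d)^[j] m0) (h' : (Td d)^[i'] x = (Td d)^[j'] m0) (hii : i ≤ i') :
    (i : ℤ) - j = i' - j' ∧ od d i x - od d j m0 = od d i' x - od d j' m0 := by
  obtain ⟨e, rfl⟩ := Nat.exists_eq_add_of_le hii
  have h1 : (Td d)^[j + e] m0 = (Td d)^[j'] m0 := by
    rw [← h', add_comm i e, add_comm j e, Function.iterate_add_apply, Function.iterate_add_apply, h]
  have h2 : j + e = j' := hinj h1
  subst h2
  constructor
  · push_cast; ring
  · rw [od_add, od_add, h]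
    ring

theorem mg_uni {d m0 : ℤ} (hinj : Function.Injective (fun c : ℕ => (Td d)^[c] m0)) {x : ℤ} {i j i' j' : ℕ}
    (h : (Td d)^[i] x = (Td d)^[j] m0) (h' : (Td d)^[i'] x = (Td d)^[j'] m0) :
    (i : ℤ) - j = i' - j' ∧ od d i x - od d j m0 = od d i' x - od d j' m0 := by
  rcases le_total i i' with h1 | h1
  · exact mg_uni' hinj h h' h1
  · obtain ⟨a, b⟩ := mg_uni' hinj h' h h1
    exact ⟨a.symm, b.symm⟩

open Classical in
/-- the time difference -/
noncomputable def mk (d m0 x : ℤ) : ℤ :=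
  if h : x ∈ Mg (Td d) m0 then (h.choose : ℤ) - (h.choose_spec.choose : ℤ) else 0

open Classical in
/-- the difference of the numbers of odd terms -/
noncomputable def mo (d m0 x : ℤ) : ℤ :=
  if h : x ∈ Mg (Td d) m0 then od d h.choose x - od d h.choose_spec.choose m0 else 0

theorem mg_spec {d m0 : ℤ} (hinj : Function.Injective (fun c : ℕ => (Td d)^[c] m0)) {x : ℤ} {i j : ℕ}
    (h : (Td d)^[i] x = (Td d)^[j] m0) : mk d m0 x = i - j ∧ mo d m0 x = od d i x - od d j m0 := by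
  have hx : x ∈ Mg (Td d) m0 := ⟨i, j, h⟩
  unfold mk mo
  rw [dif_pos hx, dif_pos hx]
  exact mg_uni hinj hx.choose_spec.choose_spec h

theorem mg_gr {d m0 : ℤ} (hinj : Function.Injective (fun c : ℕ => (Td d)^[c] m0)) (R : Set ℤ) :
    Gr d R (Mg (Td d) m0) (mk d m0) (mo d m0) := by
  refine ⟨fun x _ => Mg_inv d m0 x, fun x _ hx => ?_, fun x _ hx => ?_⟩
  · obtain ⟨i, j, h⟩ := (Mg_inv d m0 x).1 hx
    have h' : (Td d)^[i + 1] x = (Td d)^[j] m0 := by rw [Function.iterate_succ_apply]; exact h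
    rw [(mg_spec hinj h).1, (mg_spec hinj h').1]
    push_cast
    ring
  · obtain ⟨i, j, h⟩ := (Mg_inv d m0 x).1 hx
    have h' : (Td d)^[i + 1] x = (Td d)^[j] m0 := by rw [Function.iterate_succ_apply]; exact h
    rw [(mg_spec hinj h).2, (mg_spec hinj h').2, od]
    ring

open Classical in
/-- the merging class is exhausted by the basins of the terms of the trajectory -/
theorem mg_ex (P : Par) {d m0 : ℤ} (hd : Odd d) (hd3 : IsCoprime d 3)
    (hinj : Function.Injective (fun c : ℕ => (Td d)^[c] m0)) :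
    Ex P d (RF d {m0}) (Mg (Td d) m0) (mk d m0) (mo d m0) := by
  refine ⟨RF_FC d {m0}, RF_SpW hd hd3 {m0}, mg_gr hinj _, Mg_inv d m0, fun y _ => ?_⟩
  -- the place of the merging
  let jm : ℤ → ℕ := fun g => if h : g ∈ Mg (Td d) m0 then h.choose_spec.choose else 0
  set b : ℕ := (Icc (1 : ℤ) ⌊y⌋).sup jm with hb
  set z : ℤ := (Td d)^[b] m0 with hz
  refine ⟨{z}, P.α * od d b m0 + P.β * b, ?_, ?_, ?_, ?_⟩
  · rintro x ⟨k, hk⟩
    rw [mem_singleton] at hk
    exact ⟨k, b, hk⟩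
  · intro x hx
    have h1 := (ht_spec hx).1
    rw [mem_singleton, hz] at h1
    obtain ⟨h2, h3⟩ := mg_spec hinj h1
    unfold st ho
    rw [h2, h3]
    ring
  · intro x hxR
    constructor
    · rintro ⟨k, hk⟩
      cases k with
      | zero =>
        exfalso
        apply hxR
        rw [mem_singleton] at hk
        exact ⟨m0, by simp, b, hk.symm⟩
      | succ k =>
        rw [Function.iterate_succ_apply] at hk
        exact ⟨k, hk⟩
    · exact RR_back
  · intro x hx h0 hxy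
    have hxI : x ∈ Icc (1 : ℤ) ⌊y⌋ := by
      rw [mem_Icc, Int.le_floor]
      exact ⟨by omega, hxy⟩
    have h1 : jm x ≤ b := le_sup (f := jm) hxI
    have h2 : (Td d)^[hx.choose] x = (Td d)^[jm x] m0 := by
      have : jm x = hx.choose_spec.choose := dif_pos hx
      rw [this]
      exact hx.choose_spec.choose_spec
    refine ⟨(b - jm x) + hx.choose, ?_⟩
    rw [Function.iterate_add_apply, h2, ← Function.iterate_add_apply, Nat.sub_add_cancel h1, mem_singleton]

/-- THE LAW of the time differences, positive side -/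
theorem mg_law (P : Par) {d m0 : ℤ} (hd : Odd d) (hd3 : IsCoprime d 3)
    (hinj : Function.Injective (fun c : ℕ => (Td d)^[c] m0)) :
    ∃ (δ : ℝ) (Ψ : ℝ → ℝ), 0 ≤ δ ∧ δ ≤ 1 ∧ HD 1 (Mg (Td d) m0) δ ∧
    (∀ t, δ * (ww P * qr P / (1 - qr P)) ≤ Ψ t ∧ Ψ t ≤ δ * (ww P / (1 - qr P))) ∧
    Law (CG P (Mg (Td d) m0) (mk d m0) (mo d m0)) (A0 P / lam) (2 * ww P ^ 2 / lam ^ 3) (kap P / ww P)
      (fun x => Real.log x / ww P) Ψ δ ∧
    Up (CG P (Mg (Td d) m0) (mk d m0) (mo d m0)) ∧ De (A0 P / lam) (CG P (Mg (Td d) m0) (mk d m0) (mo d m0)) :=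
  ex_law hd hd3 (mg_ex P hd hd3 hinj)

end Pool.Agent.R468.MG
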