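import Pool.Agent.R468.MG.J
import Pool.Agent.R468.MF.Fin2

/-!
A family of level sets on a side: the most frequent values and the tuples.
-/

set_option autoImplicit false

namespace Pool.Agent.R468.MG

open Finset Filter Topology
open Pool.Agent.R468.GL
open Pool.Agent.R468.MF
open Pool.Agent.H499R2.LT (od Dn_iff)
open Pool.Agent.H499R2.ND (Td HD Mg Mg_inv Mg_self Dn Td_side side_odd side_cop cop_of_not_dvd class_pos HD_unique Inv)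
open Pool.Agent.R468.LL (lam lam_eq lam_pos lam_lt)

/-- the counts of a family of disjoint sets of natural numbers -/
noncomputable def NM (S : ℤ → Set ℕ) (x : ℝ) (j : ℤ) : ℝ := ({n : ℕ | n ∈ {n : ℕ | (n : ℝ) ≤ x} ∧ n ∈ S j}.ncard : ℝ)

/-- the levels as sets of natural numbers -/
def SL (P : Par) (B : Set ℤ) (κ ω : ℤ → ℤ) (j : ℤ) : Set ℕ := {n : ℕ | 1 ≤ n ∧ (n : ℤ) ∈ Lj P B κ ω j}

theorem SL_uniq (P : Par) (B : Set ℤ) (κ ω : ℤ → ℤ) (n : ℕ) (j j' : ℤ) (h : n ∈ SL P B κ ω j) (h' : n ∈ SL P B κ ω j') :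
    j = j' := by
  rw [← h.2.2, ← h'.2.2]

theorem CG_NM (P : Par) (B : Set ℤ) (κ ω : ℤ → ℤ) : CG P B κ ω = NM (SL P B κ ω) := by
  classical
  funext x j
  unfold CG NM
  have h1 : (fun n : ℕ => (n : ℤ)) '' {n : ℕ | n ∈ {n : ℕ | (n : ℝ) ≤ x} ∧ n ∈ SL P B κ ω j} =
      (((Icc (1 : ℤ) ⌊x⌋).filter (fun n => n ∈ Lj P B κ ω j) : Finset ℤ) : Set ℤ) := by
    ext z
    rw [Set.mem_image, mem_coe, mem_filter, mem_Icc, Int.le_floor]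
    constructor
    · rintro ⟨n, ⟨g1, g2, g3⟩, rfl⟩
      exact ⟨⟨by exact_mod_cast g2, by exact_mod_cast g1⟩, g3⟩
    · rintro ⟨⟨g1, g2⟩, g3⟩
      have hz : ((z.toNat : ℕ) : ℤ) = z := Int.toNat_of_nonneg (by omega)
      refine ⟨z.toNat, ⟨?_, by omega, ?_⟩, hz⟩
      · have : ((z.toNat : ℕ) : ℝ) = z := by exact_mod_cast hz
        rw [Set.mem_ofPred_eq, this]; exact g2
      · rw [hz]; exact g3
  rw [← Set.ncard_image_of_injective _ (Nat.cast_injective (R := ℤ)), h1, Set.ncard_coe_finset]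

theorem NM_triv {P : Par} {B : Set ℤ} {κ ω : ℤ → ℤ} {x : ℝ} (hx : 0 ≤ x) (j : ℤ) : NM (SL P B κ ω) x j ≤ x := by
  rw [← CG_NM]
  exact CG_triv B κ ω hx j

/-- the conclusions for a family of level sets -/
structure Concl (S : ℤ → Set ℕ) (μ v α : ℝ) (w : ℝ) (δ : ℝ) (Ψ : ℝ → ℝ) (M : ℝ) : Prop where
  cont : Continuous Ψ
  per : ∀ t, Ψ (t + 1) = Ψ t
  int : ∫ t in (0 : ℝ)..1, Ψ t = δ
  le_max : ∀ t, Ψ t ≤ M
  ex_max : ∃ t, Ψ t = M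
  del : δ ≤ M
  loc : ∀ K ε : ℝ, 0 < ε → ∃ X₀ : ℝ, 2 ≤ X₀ ∧ ∀ x : ℝ, X₀ ≤ x → ∀ j : ℤ,
    |(j : ℝ) - μ * Real.log x| ≤ K * Real.sqrt (Real.log x) →
    |NM S x j / (x * gn μ v x j) - Ψ (Real.log x / w - j * α)| ≤ ε
  up : ∃ A : ℝ, 0 < A ∧ ∀ x : ℝ, 2 ≤ x → ∀ j : ℤ, NM S x j ≤ A * x / Real.sqrt (Real.log x)
  mode : ∀ ε : ℝ, 0 < ε → ∃ X₀ : ℝ, 2 ≤ X₀ ∧ ∀ x : ℝ, X₀ ≤ x →
    (∀ j : ℤ, NM S x j ≤ (M + ε) * x / sd v x) ∧
    (∃ j : ℤ, |(j : ℝ) - μ * Real.log x| ≤ ε * Real.sqrt (Real.log x) ∧ (M - ε) * x / sd v x ≤ NM S x j) ∧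
    ∀ j : ℤ, (∀ i : ℤ, NM S x i ≤ NM S x j) → |(j : ℝ) - μ * Real.log x| ≤ ε * Real.sqrt (Real.log x)
  tup : ∀ r : ℕ, 1 ≤ r → Tendsto (fun x : ℝ => sd v x ^ (r - 1) / x ^ r *
      ({w : Fin r → ℕ | (∀ i, w i ∈ {n : ℕ | (n : ℝ) ≤ x}) ∧ ∃ j, ∀ i, w i ∈ S j}.ncard : ℝ)) atTop
      (𝓝 (1 / Real.sqrt r * ∫ t in (0 : ℝ)..1, Ψ t ^ r))

theorem concl {P : Par} {B : Set ℤ} {κ ω : ℤ → ℤ} {δ : ℝ} {Ψ : ℝ → ℝ} (hδ : 0 < δ)
    (L : Law (CG P B κ ω) (A0 P / lam) (2 * ww P ^ 2 / lam ^ 3) (kap P / ww P) (fun x => Real.log x / ww P) Ψ δ)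
    (hU : Up (CG P B κ ω)) (hD : De (A0 P / lam) (CG P B κ ω)) :
    ∃ M : ℝ, Concl (SL P B κ ω) (A0 P / lam) (2 * ww P ^ 2 / lam ^ 3) (kap P / ww P) (ww P) δ Ψ M := by
  rw [CG_NM] at L hU hD
  obtain ⟨t₀, g1, g2, g3⟩ := mode L hδ (fun ε hε => by
    obtain ⟨K, _, X₀, hX0, h⟩ := hD ε hε
    exact ⟨K, X₀, hX0, h⟩)
  obtain ⟨A, hA, hu⟩ := up_all hU (c := 1) (by norm_num) (fun x hx j => by
    rw [one_mul]; exact NM_triv hx j)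
  refine ⟨Ψ t₀, ⟨L.cont, L.per, L.psi_int, g1, ⟨t₀, rfl⟩, ?_, L.loc, ⟨A, hA, hu⟩, g3, fun r hr => ?_⟩⟩
  · rw [← L.psi_int]
    exact le_max_int L.cont g1
  · have h6 := tup_nat L hA hu (S := SL P B κ ω) (X := fun x => {n : ℕ | (n : ℝ) ≤ x}) (c := 1)
      (fun x => fin_le x) (SL_uniq P B κ ω) (fun x j => by rw [one_mul]; rfl) r hr
    refine h6.congr fun x => ?_
    rw [one_pow, one_mul]

/-- the merging class on a side -/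
theorem Mg_side {d : ℤ} (hd : Odd d) {s : ℤ} (hs : s = 1 ∨ s = -1) (n0 : ℤ) :
    Mg (Td (s * d)) (s * n0) = {x : ℤ | s * x ∈ Mg (Td d) n0} := by
  have hss : s * (s * n0) = n0 := by rcases hs with rfl | rfl <;> ring
  have hs0 : s ≠ 0 := by rcases hs with rfl | rfl <;> norm_num
  ext x
  constructor
  · rintro ⟨i, j, h⟩
    rw [Td_side hd hs, Td_side hd hs, hss] at h
    exact ⟨i, j, mul_left_cancel₀ hs0 h⟩
  · rintro ⟨i, j, h⟩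
    refine ⟨i, j, ?_⟩
    rw [Td_side hd hs, Td_side hd hs, hss, h]

theorem inj_side {d : ℤ} (hd : Odd d) {s : ℤ} (hs : s = 1 ∨ s = -1) {n0 : ℤ}
    (hinj : Function.Injective (fun c : ℕ => (Td d)^[c] n0)) :
    Function.Injective (fun c : ℕ => (Td (s * d))^[c] (s * n0)) := by
  have hss : s * (s * n0) = n0 := by rcases hs with rfl | rfl <;> ring
  have hs0 : s ≠ 0 := by rcases hs with rfl | rfl <;> norm_num
  intro a b h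
  simp only at h
  rw [Td_side hd hs, Td_side hd hs, hss] at h
  exact hinj (mul_left_cancel₀ hs0 h)

/-- the levels of the time difference, number of steps -/
theorem SL_mg {d : ℤ} (hd : Odd d) {s : ℤ} (hs : s = 1 ∨ s = -1) {n0 : ℤ}
    (hinj : Function.Injective (fun c : ℕ => (Td d)^[c] n0)) (n : ℕ) (j : ℤ) :
    n ∈ SL PT (Mg (Td (s * d)) (s * n0)) (mk (s * d) (s * n0)) (mo (s * d) (s * n0)) j ↔
      1 ≤ n ∧ ∃ a b : ℕ, (a : ℤ) - b = j ∧ (Td d)^[a] (s * n) = (Td d)^[b] n0 := by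
  have hss : s * (s * n0) = n0 := by rcases hs with rfl | rfl <;> ring
  have hs0 : s ≠ 0 := by rcases hs with rfl | rfl <;> norm_num
  have h3 : (PT.α : ℤ) = 0 := rfl
  have h4 : (PT.β : ℤ) = 1 := rfl
  constructor
  · rintro ⟨h1, ⟨a, b, h2⟩, h5⟩
    refine ⟨h1, a, b, ?_, ?_⟩
    · rw [(mg_spec (inj_side hd hs hinj) h2).1, h3, h4] at h5
      linarith
    · rw [Td_side hd hs, Td_side hd hs, hss] at h2
      exact mul_left_cancel₀ hs0 h2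
  · rintro ⟨h1, a, b, h2, h5⟩
    have h6 : (Td (s * d))^[a] (n : ℤ) = (Td (s * d))^[b] (s * n0) := by
      rw [Td_side hd hs, Td_side hd hs, hss, h5]
    refine ⟨h1, ⟨a, b, h6⟩, ?_⟩
    rw [(mg_spec (inj_side hd hs hinj) h6).1, h3, h4]
    linarith

/-- THE CONCLUSIONS for the time differences, both sides -/
theorem merge_concl {d : ℤ} (hd : Odd d) (hd3 : ¬ (3 : ℤ) ∣ d) {s : ℤ} (hs : s = 1 ∨ s = -1) {n0 : ℤ}
    (hinj : Function.Injective (fun c : ℕ => (Td d)^[c] n0))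
    (ha : ∃ a ∈ Mg (Td d) n0, 0 < s * a ∧ ¬ (3 : ℤ) ∣ a) :
    ∃ (δ : ℝ) (Ψ : ℝ → ℝ) (M : ℝ), 0 < δ ∧ δ ≤ 1 ∧ HD s (Mg (Td d) n0) δ ∧
      (∀ t, δ * (Real.log 3 / 2) ≤ Ψ t ∧ Ψ t ≤ δ * (3 * Real.log 3 / 2)) ∧
      Concl (fun j => {n : ℕ | 1 ≤ n ∧ ∃ a b : ℕ, (a : ℤ) - b = j ∧ (Td d)^[a] (s * n) = (Td d)^[b] n0})
        (2 / Real.log (4 / 3)) (2 * Real.log 3 ^ 2 / Real.log (4 / 3) ^ 3) (Real.log 2 / Real.log 3) (Real.log 3) δ Ψ M := by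
  obtain ⟨δ, Ψ, h0, h1, h2, h3, h4, h5, h6⟩ := mg_law PT (side_odd hd hs) (side_cop (cop_of_not_dvd hd3) hs)
    (inj_side hd hs hinj)
  have h2' : HD s (Mg (Td d) n0) δ := by
    rw [HD_one, Mg_side hd hs] at h2
    exact h2
  have hδ : 0 < δ := by
    obtain ⟨a, g1, g2, g3⟩ := ha
    exact class_pos hd hd3 hs (Mg_inv d n0) g1 g2 g3 h2'
  obtain ⟨M, hM⟩ := concl hδ h4 h5 h6
  refine ⟨δ, Ψ, M, hδ, h1, h2', ?_, ?_⟩
  · intro t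
    have := h3 t
    rw [ww_PT, qr_PT] at this
    have e1 : Real.log 3 * (1 / 3) / (1 - 1 / 3) = Real.log 3 / 2 := by ring
    have e2 : Real.log 3 / (1 - 1 / 3) = 3 * Real.log 3 / 2 := by ring
    rwa [e1, e2] at this
  · have e : SL PT (Mg (Td (s * d)) (s * n0)) (mk (s * d) (s * n0)) (mo (s * d) (s * n0)) =
        fun j => {n : ℕ | 1 ≤ n ∧ ∃ a b : ℕ, (a : ℤ) - b = j ∧ (Td d)^[a] (s * n) = (Td d)^[b] n0} := by
      funext j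
      ext n
      exact SL_mg hd hs hinj n j
    rw [e, A0_PT, ww_PT, kap_PT] at hM
    exact hM

end Pool.Agent.R468.MG
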