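import Pool.Agent.R468.MG.K

/-!
Merging with a divergent trajectory of the `3x+1` map on the integers.
-/

set_option autoImplicit false

namespace Pool.Agent.R468.MG

open Finset Filter Topology
open Pool.Agent.R468.GL
open Pool.Agent.R468.MF
open Pool.Agent.H499R2.ND (Td HD Mg Mg_inv Mg_self Mg_iter Mg_symm class_pos HD_compl dens_side HD_ncard Inv)

/-- the sign is preserved -/
theorem sgn_step {s : ℤ} (hs : s = 1 ∨ s = -1) {x : ℤ} (h : 0 < s * x) : 0 < s * Td 1 x := by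
  unfold Td
  rcases hs with rfl | rfl
  · split_ifs <;> omega
  · split_ifs <;> omega

theorem sgn_iter {s : ℤ} (hs : s = 1 ∨ s = -1) {x : ℤ} (h : 0 < s * x) (k : ℕ) : 0 < s * (Td 1)^[k] x := by
  induction k with
  | zero => exact h
  | succ k ih => rw [Function.iterate_succ_apply']; exact sgn_step hs ih

/-- an odd term -/
theorem odd_term (n : ℕ) : ∀ x : ℤ, x.natAbs = n → x ≠ 0 → ∃ k : ℕ, (Td 1)^[k] x % 2 = 1 := by
  induction n using Nat.strong_induction_on with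
  | _ n ih =>
    intro x hx hx0
    rcases Int.emod_two_eq_zero_or_one x with h | h
    · have h1 : Td 1 x = x / 2 := by unfold Td; rw [if_pos h]
      obtain ⟨k, hk⟩ := ih (x / 2).natAbs (by omega) (x / 2) rfl (by omega)
      exact ⟨k + 1, by rw [Function.iterate_succ_apply, h1]; exact hk⟩
    · exact ⟨0, h⟩

/-- a term of the class which is prime to `3` -/
theorem good_term {s : ℤ} (hs : s = 1 ∨ s = -1) {n0 : ℤ} (h : 0 < s * n0) :
    ∃ a ∈ Mg (Td 1) n0, 0 < s * a ∧ ¬ (3 : ℤ) ∣ a := by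
  obtain ⟨k, hk⟩ := odd_term _ n0 rfl (by rintro rfl; simp at h)
  refine ⟨(Td 1)^[k + 1] n0, ⟨0, k + 1, rfl⟩, sgn_iter hs h _, ?_⟩
  rw [Function.iterate_succ_apply']
  generalize (Td 1)^[k] n0 = t at hk
  unfold Td
  rw [if_neg (by omega)]
  omega

theorem not_periodic {n0 c : ℤ} (hinj : Function.Injective (fun c : ℕ => (Td 1)^[c] n0)) {p : ℕ} (hp : 1 ≤ p)
    (hc : (Td 1)^[p] c = c) : c ∉ Mg (Td 1) n0 := by
  rintro ⟨i, j, h⟩
  have h1 : (Td 1)^[j + p] n0 = (Td 1)^[j] n0 := by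
    rw [add_comm, Function.iterate_add_apply, ← h, ← Function.iterate_add_apply, add_comm p i,
      Function.iterate_add_apply, hc]
  have := hinj h1
  omega

/-- the density is less than one -/
theorem dens_lt {s : ℤ} (hs : s = 1 ∨ s = -1) {n0 : ℤ} (hinj : Function.Injective (fun c : ℕ => (Td 1)^[c] n0))
    {δ : ℝ} (h : HD s (Mg (Td 1) n0) δ) : δ < 1 := by
  have hI : Inv 1 (Mg (Td 1) n0)ᶜ := by
    intro x
    rw [Set.mem_compl_iff, Set.mem_compl_iff]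
    exact not_congr (Mg_inv 1 n0 x)
  obtain ⟨l, _, _, hl⟩ := dens_side (d := 1) odd_one isCoprime_one_left hs hI
  have hc : s ∈ (Mg (Td 1) n0)ᶜ := by
    rcases hs with rfl | rfl
    · exact not_periodic hinj (p := 2) (by norm_num) (by decide)
    · exact not_periodic hinj (p := 1) (by norm_num) (by decide)
  have hpos : 0 < l := class_pos (d := 1) odd_one (by omega) hs hI hc
    (by rcases hs with rfl | rfl <;> norm_num) (by rcases hs with rfl | rfl <;> omega) hl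
  linarith [HD_compl h hl]

/-- merging with time difference `j` -/
def Mer (n0 j m : ℤ) : Prop := ∃ a b : ℕ, (a : ℤ) - b = j ∧ (Td 1)^[a] m = (Td 1)^[b] n0

theorem mer_sgn {s : ℤ} (hs : s = 1 ∨ s = -1) {n0 : ℤ} (h0 : 0 < s * n0) {a b : ℕ} {m : ℤ}
    (h : (Td 1)^[a] m = (Td 1)^[b] n0) : 0 < s * m := by
  have h1 := sgn_iter hs h0 b
  rw [← h] at h1
  have hs' : -s = 1 ∨ -s = -1 := by rcases hs with rfl | rfl <;> simp
  rcases lt_trichotomy (s * m) 0 with h2 | h2 | h2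
  · have h3 := sgn_iter hs' (x := m) (by rw [neg_mul]; omega) a
    rw [neg_mul] at h3
    omega
  · have hm : m = 0 := by rcases hs with rfl | rfl <;> omega
    subst hm
    have h3 : (Td 1)^[a] 0 = 0 := by
      clear h h1
      induction a with
      | zero => rfl
      | succ a ih => rw [Function.iterate_succ_apply']; rw [ih]; decide
    rw [h3, mul_zero] at h1
    omega
  · exact h2

/-- the level sets as sets of natural numbers -/
def LS (s n0 : ℤ) (j : ℤ) : Set ℕ :=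
  {n : ℕ | 1 ≤ n ∧ ∃ a b : ℕ, (a : ℤ) - b = j ∧ (Td 1)^[a] (s * n) = (Td 1)^[b] n0}

theorem abs_s {s : ℤ} (hs : s = 1 ∨ s = -1) {m : ℤ} (h : 0 < s * m) : (((s * m).toNat : ℕ) : ℤ) = s * m ∧
    s * (((s * m).toNat : ℕ) : ℤ) = m ∧ (((s * m).toNat : ℕ) : ℝ) = |(m : ℝ)| := by
  have h1 : (((s * m).toNat : ℕ) : ℤ) = s * m := Int.toNat_of_nonneg h.le
  have hss : s * (s * m) = m := by rcases hs with rfl | rfl <;> ring
  refine ⟨h1, by rw [h1, hss], ?_⟩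
  have h2 : (((s * m).toNat : ℕ) : ℝ) = ((s * m : ℤ) : ℝ) := by exact_mod_cast h1
  rw [h2]
  rcases hs with rfl | rfl
  · rw [one_mul] at h ⊢
    rw [abs_of_pos (by exact_mod_cast h)]
  · have h3 : m < 0 := by omega
    rw [abs_of_neg (by exact_mod_cast h3)]
    push_cast
    ring

theorem abs_sn {s : ℤ} (hs : s = 1 ∨ s = -1) (n : ℕ) : |((s * (n : ℤ) : ℤ) : ℝ)| = n := by
  have hn : (0 : ℝ) ≤ n := Nat.cast_nonneg n
  rcases hs with rfl | rfl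
  · push_cast; rw [one_mul, abs_of_nonneg hn]
  · push_cast; rw [neg_one_mul, abs_neg, abs_of_nonneg hn]

theorem smul_inj {s : ℤ} (hs : s = 1 ∨ s = -1) : Function.Injective (fun n : ℕ => s * (n : ℤ)) := by
  intro a b h
  simp only at h
  rcases hs with rfl | rfl <;> omega

theorem cnt_mer {s : ℤ} (hs : s = 1 ∨ s = -1) {n0 : ℤ} (h0 : 0 < s * n0) (x : ℝ) (j : ℤ) :
    ({m : ℤ | |(m : ℝ)| ≤ x ∧ Mer n0 j m}.ncard : ℝ) = NM (LS s n0) x j := by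
  have e : {m : ℤ | |(m : ℝ)| ≤ x ∧ Mer n0 j m} = (fun n : ℕ => s * (n : ℤ)) ''
      {n : ℕ | n ∈ {n : ℕ | (n : ℝ) ≤ x} ∧ n ∈ LS s n0 j} := by
    ext m
    rw [Set.mem_image]
    constructor
    · rintro ⟨g1, a, b, g2, g3⟩
      have hm := mer_sgn hs h0 g3
      obtain ⟨k1, k2, k3⟩ := abs_s hs hm
      refine ⟨(s * m).toNat, ⟨?_, by omega, a, b, g2, ?_⟩, k2⟩
      · rw [Set.mem_ofPred_eq, k3]; exact g1
      · rw [k2]; exact g3
    · rintro ⟨n, ⟨g1, g2, a, b, g3, g4⟩, rfl⟩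
      refine ⟨?_, a, b, g3, g4⟩
      rw [abs_sn hs]
      exact g1
  unfold NM
  rw [e, Set.ncard_image_of_injective _ (smul_inj hs)]

theorem dens_mer {s : ℤ} (hs : s = 1 ∨ s = -1) {n0 : ℤ} (h0 : 0 < s * n0) {δ : ℝ} (h : HD s (Mg (Td 1) n0) δ) :
    Tendsto (fun X : ℕ => ({m : ℤ | |(m : ℝ)| ≤ X ∧ ∃ j, Mer n0 j m}.ncard : ℝ) / X) atTop (𝓝 δ) := by
  refine (HD_ncard hs h).congr fun X => ?_
  congr 3
  ext m
  constructor
  · rintro ⟨g1, g2, a, b, g3⟩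
    obtain ⟨k1, k2, k3⟩ := abs_s hs g1
    refine ⟨?_, (a : ℤ) - b, a, b, rfl, g3⟩
    rw [← k3]
    have : (s * m).toNat ≤ X := by omega
    exact_mod_cast this
  · rintro ⟨g1, j, a, b, g2, g3⟩
    have hm := mer_sgn hs h0 g3
    obtain ⟨k1, k2, k3⟩ := abs_s hs hm
    rw [← k3] at g1
    have : (s * m).toNat ≤ X := by exact_mod_cast g1
    exact ⟨hm, by omega, a, b, g3⟩

theorem tup_mer {s : ℤ} (hs : s = 1 ∨ s = -1) {n0 : ℤ} (h0 : 0 < s * n0) {r : ℕ} (hr : 1 ≤ r) (x : ℝ) :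
    {w : Fin r → ℤ | (∀ i, |(w i : ℝ)| ≤ x) ∧ ∃ k l : ℕ, ∀ i, (Td 1)^[k] (w i) = (Td 1)^[l] n0}.ncard =
    {w : Fin r → ℕ | (∀ i, w i ∈ {n : ℕ | (n : ℝ) ≤ x}) ∧ ∃ j, ∀ i, w i ∈ LS s n0 j}.ncard := by
  have e : {w : Fin r → ℤ | (∀ i, |(w i : ℝ)| ≤ x) ∧ ∃ k l : ℕ, ∀ i, (Td 1)^[k] (w i) = (Td 1)^[l] n0} =
      (fun (w : Fin r → ℕ) (i : Fin r) => s * (w i : ℤ)) ''
      {w : Fin r → ℕ | (∀ i, w i ∈ {n : ℕ | (n : ℝ) ≤ x}) ∧ ∃ j, ∀ i, w i ∈ LS s n0 j} := by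
    ext w
    rw [Set.mem_image]
    constructor
    · rintro ⟨g1, k, l, g2⟩
      have hm : ∀ i, 0 < s * w i := fun i => mer_sgn hs h0 (g2 i)
      refine ⟨fun i => (s * w i).toNat, ⟨fun i => ?_, (k : ℤ) - l, fun i => ⟨?_, k, l, rfl, ?_⟩⟩, ?_⟩
      · obtain ⟨_, _, k3⟩ := abs_s hs (hm i)
        change (((s * w i).toNat : ℕ) : ℝ) ≤ x
        rw [k3]; exact g1 i
      · have := hm i
        change 1 ≤ (s * w i).toNat
        omega
      · obtain ⟨_, k2, _⟩ := abs_s hs (hm i)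
        change (Td 1)^[k] (s * (((s * w i).toNat : ℕ) : ℤ)) = _
        rw [k2]; exact g2 i
      · funext i
        exact (abs_s hs (hm i)).2.1
    · rintro ⟨v, ⟨g1, j, g2⟩, rfl⟩
      refine ⟨fun i => ?_, ?_⟩
      · simp only
        rw [abs_sn hs]
        exact g1 i
      · choose g3 a b g4 g5 using g2
        set k : ℕ := Finset.univ.sup a with hk
        have hak : ∀ i, a i ≤ k := fun i => Finset.le_sup (f := a) (Finset.mem_univ i)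
        have i0 : Fin r := ⟨0, hr⟩
        refine ⟨k, ((k : ℤ) - j).toNat, fun i => ?_⟩
        have h1 : ((k : ℤ) - j).toNat = (k - a i) + b i := by
          have := g4 i
          have := hak i
          omega
        have h2 : k = (k - a i) + a i := by have := hak i; omega
        rw [h1]
        conv_lhs => rw [h2]
        rw [Function.iterate_add_apply, Function.iterate_add_apply]
        exact congrArg _ (g5 i)
  rw [e, Set.ncard_image_of_injective]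
  intro v v' hv
  funext i
  exact smul_inj hs (congrFun hv i)

/-- THE MERGING TIMES -/
theorem merge_T {n0 : ℤ} (hinj : Function.Injective (fun c : ℕ => (Td 1)^[c] n0)) :
    ∃ (δ : ℝ) (Ψ : ℝ → ℝ) (M : ℝ), 0 < δ ∧ δ < 1 ∧
      Tendsto (fun X : ℕ => ({m : ℤ | |(m : ℝ)| ≤ X ∧ ∃ j, Mer n0 j m}.ncard : ℝ) / X) atTop (𝓝 δ) ∧
      Continuous Ψ ∧ (∀ t, Ψ (t + 1) = Ψ t) ∧
      (∀ t, δ * (Real.log 3 / 2) ≤ Ψ t ∧ Ψ t ≤ δ * (3 * Real.log 3 / 2)) ∧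
      (∫ t in (0 : ℝ)..1, Ψ t = δ) ∧ (∀ t, Ψ t ≤ M) ∧ (∃ t, Ψ t = M) ∧ δ ≤ M ∧
      (∀ K ε : ℝ, 0 < ε → ∃ X₀ : ℝ, ∀ x : ℝ, X₀ ≤ x → ∀ j : ℤ,
        |(j : ℝ) - 2 / Real.log (4 / 3) * Real.log x| ≤ K * Real.sqrt (Real.log x) →
        |({m : ℤ | |(m : ℝ)| ≤ x ∧ Mer n0 j m}.ncard : ℝ) /
          (x * (Real.exp (-(((j : ℝ) - 2 / Real.log (4 / 3) * Real.log x) ^ 2 /
            (2 * (2 * Real.log 3 ^ 2 / Real.log (4 / 3) ^ 3 * Real.log x)))) /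
            Real.sqrt (2 * Real.pi * (2 * Real.log 3 ^ 2 / Real.log (4 / 3) ^ 3 * Real.log x)))) -
          Ψ (Real.logb 3 (x / 2 ^ j))| ≤ ε) ∧
      (∃ A : ℝ, 0 < A ∧ ∀ x : ℝ, 2 ≤ x → ∀ j : ℤ,
        ({m : ℤ | |(m : ℝ)| ≤ x ∧ Mer n0 j m}.ncard : ℝ) ≤ A * x / Real.sqrt (Real.log x)) ∧
      (∀ ε : ℝ, 0 < ε → ∃ X₀ : ℝ, ∀ x : ℝ, X₀ ≤ x →
        (∀ j : ℤ, ({m : ℤ | |(m : ℝ)| ≤ x ∧ Mer n0 j m}.ncard : ℝ) ≤
          (M + ε) * x / Real.sqrt (2 * Real.pi * (2 * Real.log 3 ^ 2 / Real.log (4 / 3) ^ 3 * Real.log x))) ∧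
        (∃ j : ℤ, |(j : ℝ) - 2 / Real.log (4 / 3) * Real.log x| ≤ ε * Real.sqrt (Real.log x) ∧
          (M - ε) * x / Real.sqrt (2 * Real.pi * (2 * Real.log 3 ^ 2 / Real.log (4 / 3) ^ 3 * Real.log x)) ≤
            ({m : ℤ | |(m : ℝ)| ≤ x ∧ Mer n0 j m}.ncard : ℝ)) ∧
        ∀ j : ℤ, (∀ i : ℤ, {m : ℤ | |(m : ℝ)| ≤ x ∧ Mer n0 i m}.ncard ≤ {m : ℤ | |(m : ℝ)| ≤ x ∧ Mer n0 j m}.ncard) →
          |(j : ℝ) - 2 / Real.log (4 / 3) * Real.log x| ≤ ε * Real.sqrt (Real.log x)) ∧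
      (∀ r : ℕ, 1 ≤ r → Tendsto (fun x : ℝ =>
        ({w : Fin r → ℤ | (∀ i, |(w i : ℝ)| ≤ x) ∧ ∃ k l : ℕ, ∀ i, (Td 1)^[k] (w i) = (Td 1)^[l] n0}.ncard : ℝ) *
          (Real.sqrt (2 * Real.pi * (2 * Real.log 3 ^ 2 / Real.log (4 / 3) ^ 3 * Real.log x)) ^ (r - 1) / x ^ r)) atTop
        (𝓝 (1 / Real.sqrt r * ∫ t in (0 : ℝ)..1, Ψ t ^ r))) := by
  have hn0 : n0 ≠ 0 := by
    rintro rfl
    have : (0 : ℕ) = 1 := hinj (by decide)
    omega
  obtain ⟨s, hs, h0⟩ : ∃ s : ℤ, (s = 1 ∨ s = -1) ∧ 0 < s * n0 := by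
    rcases lt_or_gt_of_ne hn0 with h | h
    · exact ⟨-1, Or.inr rfl, by omega⟩
    · exact ⟨1, Or.inl rfl, by omega⟩
  obtain ⟨δ, Ψ, M, h1, _, h2, h3, C⟩ := merge_concl (d := 1) odd_one (by omega) hs hinj (good_term hs h0)
  have hcnt := cnt_mer hs h0
  refine ⟨δ, Ψ, M, h1, dens_lt hs hinj h2, dens_mer hs h0 h2, C.cont, C.per, h3, C.int, C.le_max, C.ex_max, C.del,
    ?_, ?_, ?_, ?_⟩
  · intro K ε hε
    obtain ⟨X₀, hX0, hX⟩ := C.loc K ε hε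
    refine ⟨X₀, fun x hx j hj => ?_⟩
    have hx0 : 0 < x := by linarith
    have h6 := hX x hx j hj
    have e : Real.log x / Real.log 3 - j * (Real.log 2 / Real.log 3) = Real.logb 3 (x / 2 ^ j) := by
      unfold Real.logb
      rw [Real.log_div hx0.ne' (by positivity), Real.log_zpow]
      ring
    rw [e] at h6
    rw [hcnt]
    exact h6
  · obtain ⟨A, hA, h⟩ := C.up
    exact ⟨A, hA, fun x hx j => by rw [hcnt]; exact h x hx j⟩
  · intro ε hε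
    obtain ⟨X₀, _, hX⟩ := C.mode ε hε
    refine ⟨X₀, fun x hx => ?_⟩
    obtain ⟨g1, ⟨j, g2, g3⟩, g4⟩ := hX x hx
    refine ⟨fun j => by rw [hcnt]; exact g1 j, ⟨j, g2, by rw [hcnt]; exact g3⟩, fun j hj => g4 j fun i => ?_⟩
    have h7 : ({m : ℤ | |(m : ℝ)| ≤ x ∧ Mer n0 i m}.ncard : ℝ) ≤ {m : ℤ | |(m : ℝ)| ≤ x ∧ Mer n0 j m}.ncard := by
      exact_mod_cast hj i
    rw [hcnt, hcnt] at h7
    exact h7
  · intro r hr
    refine (C.tup r hr).congr fun x => ?_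
    rw [tup_mer hs h0 hr x]
    unfold sd
    rw [mul_comm]
    rfl

end Pool.Agent.R468.MG
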