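import Pool.Agent.R468.MG.L

/-!
The preperiod: the first time in the set of the periodic integers (which may be infinite).
-/

set_option autoImplicit false

namespace Pool.Agent.R468.MG

open Finset Filter Topology
open Pool.Agent.R468.GL
open Pool.Agent.R468.MF
open Pool.Agent.H499R2.LT (od od_add SpW)
open Pool.Agent.H499R2.ND (Td HD Td_side side_odd side_cop cop_of_not_dvd class_pos Inv wc mem_wc PB cls mem_cls)
open Pool.Agent.R468.LL (lam lam_eq lam_pos lam_lt)

/-- the periodic integers -/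
def Pr (d : ℤ) : Set ℤ := Function.periodicPts (Td d)

/-- the eventually periodic integers -/
def EP (d : ℤ) : Set ℤ := {x : ℤ | ∃ k : ℕ, (Td d)^[k] x ∈ Pr d}

open Classical in
/-- the preperiod -/
noncomputable def pk (d x : ℤ) : ℕ := if h : ∃ k : ℕ, (Td d)^[k] x ∈ Pr d then Nat.find h else 0

/-- the number of odd terms before the cycle -/
noncomputable def po (d x : ℤ) : ℤ := od d (pk d x) x

theorem Pr_FC (d : ℤ) : Pool.Agent.H499R2.CZ.FC d (Pr d) := fun _ hx =>
  (Function.bijOn_periodicPts (Td d)).mapsTo hx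

theorem Pr_iter {d x : ℤ} (hx : x ∈ Pr d) (i : ℕ) : (Td d)^[i] x ∈ Pr d := by
  induction i with
  | zero => exact hx
  | succ i ih => rw [Function.iterate_succ_apply']; exact Pr_FC d _ ih

theorem pk_spec {d x : ℤ} (h : x ∈ EP d) : (Td d)^[pk d x] x ∈ Pr d ∧ ∀ i < pk d x, (Td d)^[i] x ∉ Pr d := by
  classical
  have h' : ∃ k : ℕ, (Td d)^[k] x ∈ Pr d := h
  unfold pk
  rw [dif_pos h']
  exact ⟨Nat.find_spec h', fun i hi => Nat.find_min h' hi⟩

theorem pk_eq {d x : ℤ} {k : ℕ} (h : (Td d)^[k] x ∈ Pr d) (h' : ∀ i < k, (Td d)^[i] x ∉ Pr d) : pk d x = k := by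
  obtain ⟨h1, h2⟩ := pk_spec (show x ∈ EP d from ⟨k, h⟩)
  rcases lt_trichotomy (pk d x) k with h3 | h3 | h3
  · exact absurd h1 (h' _ h3)
  · exact h3
  · exact absurd h (h2 _ h3)

theorem EP_inv (d : ℤ) : Inv d (EP d) := by
  intro x
  constructor
  · rintro ⟨k, hk⟩
    refine ⟨k, ?_⟩
    rw [← Function.iterate_succ_apply, Function.iterate_succ_apply']
    exact Pr_FC d _ hk
  · rintro ⟨k, hk⟩
    exact ⟨k + 1, by rw [Function.iterate_succ_apply]; exact hk⟩

theorem pk_step {d x : ℤ} (hx : x ∉ Pr d) (hE : x ∈ EP d) : pk d x = pk d (Td d x) + 1 := by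
  obtain ⟨h1, h2⟩ := pk_spec ((EP_inv d x).1 hE)
  apply pk_eq
  · rw [Function.iterate_succ_apply]; exact h1
  · intro i hi
    cases i with
    | zero => exact hx
    | succ i =>
      rw [Function.iterate_succ_apply]
      exact h2 i (by omega)

theorem pk_gr (d : ℤ) : Gr d (Pr d) (EP d) (fun x => (pk d x : ℤ)) (po d) := by
  refine ⟨fun x _ => EP_inv d x, fun x hx hE => ?_, fun x hx hE => ?_⟩
  · show ((pk d x : ℕ) : ℤ) = (pk d (Td d x) : ℕ) + 1
    rw [pk_step hx hE]
    push_cast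
    ring
  · unfold po
    rw [pk_step hx hE, od]
    ring

/-- the periodic integers are sparse -/
theorem Pr_SpW {d : ℤ} (hd : Odd d) : SpW (Pr d) := by
  obtain ⟨B', hB', hsp⟩ := Pool.Agent.H319R2.Tk.sparse 0.951 Pool.Agent.H319R2.beta_lt (by norm_num)
  have hd2 : d % 2 = 1 := by obtain ⟨e, he⟩ := hd; omega
  set K : ℝ := B' * |(d : ℝ)| ^ (1 - 0.951 : ℝ) * 2 with hKdef
  have hK : 0 ≤ K := by positivity
  have hcount : ∀ A : ℝ, 0 < A → 1 ≤ Real.log A → ∀ E : Finset ℤ,
      (∀ y ∈ E, A ≤ (y : ℝ) ∧ (y : ℝ) < 2 * A ∧ y ∈ Pr d) →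
      (E.card : ℝ) ≤ K * Real.exp (0.951 * Real.log A) := by
    intro A hA hlA E hE
    have hA1 : 1 ≤ A := by
      by_contra hc
      push Not at hc
      have := Real.log_nonpos hA.le hc.le
      linarith
    have h2 : (2 * A) ^ (0.951 : ℝ) ≤ 2 * Real.exp (0.951 * Real.log A) := by
      rw [Real.mul_rpow (by norm_num) hA.le]
      have h3 : (2 : ℝ) ^ (0.951 : ℝ) ≤ 2 := by
        calc (2 : ℝ) ^ (0.951 : ℝ) ≤ 2 ^ (1 : ℝ) :=
              Real.rpow_le_rpow_of_exponent_le (by norm_num) (by norm_num)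
          _ = 2 := Real.rpow_one 2
      have h4 : A ^ (0.951 : ℝ) = Real.exp (0.951 * Real.log A) := by
        rw [Real.rpow_def_of_pos hA, mul_comm]
      rw [h4]
      exact mul_le_mul_of_nonneg_right h3 (Real.exp_pos _).le
    have h1 := hsp d hd2 _ (Pool.Agent.H319R2.G.tame_periodic (Td d)) (2 * A) (by linarith) E (by
      intro y hy
      obtain ⟨g1, g2, g3⟩ := hE y hy
      refine ⟨g3, ?_⟩
      rw [abs_of_nonneg (by linarith)]
      exact g2.le)
    refine h1.trans ?_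
    calc B' * |(d : ℝ)| ^ (1 - 0.951 : ℝ) * (2 * A) ^ (0.951 : ℝ)
        ≤ B' * |(d : ℝ)| ^ (1 - 0.951 : ℝ) * (2 * Real.exp (0.951 * Real.log A)) :=
          mul_le_mul_of_nonneg_left h2 (by positivity)
      _ = _ := by rw [hKdef]; ring
  intro B
  set Q : ℝ := B.factorial * 100 ^ B * Real.exp 40 with hQ
  have hQ0 : 0 < Q := by positivity
  refine ⟨2 * K * Q, by positivity, ?_⟩
  intro A hA hlA
  have ht0 : 0 < Real.log A := by linarith
  have hexp : Real.exp (Real.log A) = A := Real.exp_log hA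
  have key : ∀ m : ℕ, (m : ℝ) ^ 2 ≤ Real.log A →
      Real.exp (0.951 * Real.log A) ≤ Q * A / (Real.log A ^ B * 3 ^ m) := by
    intro m hm
    have h6 := Pool.Agent.H499R2.LT.B0.real_ineq B hlA (Nat.cast_nonneg m) hm
    have h5 : ((3 : ℝ) ^ m) = Real.exp (m * Real.log 3) := by
      rw [mul_comm, Real.exp_mul, Real.exp_log (by norm_num), Real.rpow_natCast]
    rw [← h5, hexp, ← hQ] at h6
    rw [le_div_iff₀ (by positivity)]
    calc Real.exp (0.951 * Real.log A) * (Real.log A ^ B * 3 ^ m)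
        = Real.log A ^ B * (Real.exp (0.951 * Real.log A) * 3 ^ m) := by ring
      _ ≤ _ := h6
  constructor
  · intro m hm u v hu
    have h1 := hcount A hA hlA (cls (Pr d) A (2 * A) m u v) (by
      intro y hy
      rw [mem_cls] at hy
      exact ⟨hy.1.1, hy.1.2, hy.2.2.1⟩)
    refine h1.trans ((mul_le_mul_of_nonneg_left (key m hm) hK).trans (le_of_eq ?_))
    field_simp
  · have h1 := hcount A hA hlA (wc (Pr d) A (2 * A) 1 0) (by
      intro y hy
      rw [mem_wc] at hy
      exact ⟨hy.1.1, hy.1.2, hy.2.1⟩)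
    have h2 := key 0 (by simpa using ht0.le)
    rw [pow_zero, mul_one] at h2
    refine h1.trans ((mul_le_mul_of_nonneg_left h2 hK).trans ?_)
    have e : 2 * K * Q / Real.log A ^ B * A = 2 * (K * (Q * A / Real.log A ^ B)) := by ring
    rw [e]
    have h3 : 0 ≤ K * (Q * A / Real.log A ^ B) := by positivity
    linarith

end Pool.Agent.R468.MG
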