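import Pool.Agent.R468.MG.M

/-!
The preperiod: the law, both signs.
-/

set_option autoImplicit false

namespace Pool.Agent.R468.MG

open Finset Filter Topology
open Pool.Agent.R468.GL
open Pool.Agent.R468.MF
open Pool.Agent.H499R2.LT (od od_add SpW)
open Pool.Agent.H499R2.ND (Td HD Td_side side_odd side_cop cop_of_not_dvd class_pos Inv)
open Pool.Agent.R468.LL (lam lam_eq lam_pos lam_lt)

/-- the cycles met by the integers from `1` to `y` -/
noncomputable def CF (d : ℤ) (y : ℝ) : Finset ℤ := by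
  classical
  exact (Icc (1 : ℤ) ⌊y⌋).biUnion fun x => (range (Function.minimalPeriod (Td d) ((Td d)^[pk d x] x))).image
    fun i => (Td d)^[i] ((Td d)^[pk d x] x)

theorem mem_CF {d : ℤ} {y : ℝ} {w : ℤ} : w ∈ CF d y ↔ ∃ x : ℤ, 1 ≤ x ∧ (x : ℝ) ≤ y ∧
    ∃ i < Function.minimalPeriod (Td d) ((Td d)^[pk d x] x), (Td d)^[i] ((Td d)^[pk d x] x) = w := by
  classical
  unfold CF
  rw [mem_biUnion]
  constructor
  · rintro ⟨x, hx, hw⟩
    rw [mem_Icc, Int.le_floor] at hx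
    rw [mem_image] at hw
    obtain ⟨i, hi, hw⟩ := hw
    exact ⟨x, hx.1, hx.2, i, mem_range.1 hi, hw⟩
  · rintro ⟨x, h1, h2, i, hi, hw⟩
    refine ⟨x, by rw [mem_Icc, Int.le_floor]; exact ⟨h1, h2⟩, ?_⟩
    rw [mem_image]
    exact ⟨i, mem_range.2 hi, hw⟩

theorem CF_sub {d : ℤ} {y : ℝ} {w : ℤ} (h : w ∈ CF d y) : w ∈ Pr d := by
  obtain ⟨x, _, _, i, hi, rfl⟩ := mem_CF.1 h
  apply Pr_iter
  exact Function.minimalPeriod_pos_iff_mem_periodicPts.1 (by omega)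

theorem CF_back {d : ℤ} {y : ℝ} {w : ℤ} (hw : w ∈ Pr d) {j : ℕ} (h : (Td d)^[j] w ∈ CF d y) : w ∈ CF d y := by
  obtain ⟨x, h1, h2, i, hi, hz⟩ := mem_CF.1 h
  obtain ⟨p, hp, hpw⟩ := hw
  set z := (Td d)^[pk d x] x with hzdef
  -- `w` is a term of the orbit of `z`
  have h3 : (Td d)^[p * j] w = w := by
    have := hpw.mul_const j
    exact this
  have h4 : w = (Td d)^[(p * j - j) + i] z := by
    have hle : j ≤ p * j := Nat.le_mul_of_pos_left j hp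
    rw [Function.iterate_add_apply, hz, ← Function.iterate_add_apply, Nat.sub_add_cancel hle, h3]
  have hpos : 0 < Function.minimalPeriod (Td d) z := by omega
  refine mem_CF.2 ⟨x, h1, h2, ((p * j - j) + i) % Function.minimalPeriod (Td d) z, Nat.mod_lt _ hpos, ?_⟩
  rw [← hzdef, Function.iterate_mod_minimalPeriod_eq]
  exact h4.symm

theorem pre_ex (P : Par) {d : ℤ} (hd : Odd d) : Ex P d (Pr d) (EP d) (fun x => (pk d x : ℤ)) (po d) := by
  refine ⟨Pr_FC d, Pr_SpW hd, pk_gr d, EP_inv d, fun y _ => ⟨CF d y, 0, ?_, ?_, ?_, ?_⟩⟩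
  · rintro x ⟨k, hk⟩
    exact ⟨k, CF_sub hk⟩
  · intro x hx
    obtain ⟨h1, h2⟩ := ht_spec hx
    have h3 : pk d x = ht d (CF d y) x := by
      apply pk_eq (CF_sub h1)
      intro i hi h
      apply h2 i hi
      apply CF_back h (j := ht d (CF d y) x - i)
      rw [← Function.iterate_add_apply, Nat.sub_add_cancel hi.le]
      exact h1
    unfold st ho po
    rw [h3]
    ring
  · intro x hxR
    constructor
    · rintro ⟨k, hk⟩
      cases k with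
      | zero => exact absurd (CF_sub hk) hxR
      | succ k =>
        rw [Function.iterate_succ_apply] at hk
        exact ⟨k, hk⟩
    · exact RR_back
  · intro x hx h0 hxy
    obtain ⟨h1, _⟩ := pk_spec hx
    refine ⟨pk d x, mem_CF.2 ⟨x, by omega, hxy, 0, ?_, rfl⟩⟩
    exact Function.minimalPeriod_pos_iff_mem_periodicPts.2 h1

theorem Pr_side {d : ℤ} (hd : Odd d) {s : ℤ} (hs : s = 1 ∨ s = -1) (x : ℤ) : x ∈ Pr (s * d) ↔ s * x ∈ Pr d := by
  have hss : s * (s * x) = x := by rcases hs with rfl | rfl <;> ring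
  have hs0 : s ≠ 0 := by rcases hs with rfl | rfl <;> norm_num
  constructor
  · rintro ⟨p, hp, h⟩
    refine ⟨p, hp, ?_⟩
    have h1 : (Td (s * d))^[p] x = x := h
    rw [Td_side hd hs] at h1
    show (Td d)^[p] (s * x) = s * x
    apply mul_left_cancel₀ hs0
    rw [h1, hss]
  · rintro ⟨p, hp, h⟩
    refine ⟨p, hp, ?_⟩
    have h1 : (Td d)^[p] (s * x) = s * x := h
    show (Td (s * d))^[p] x = x
    rw [Td_side hd hs, h1, hss]

theorem Pr_side' {d : ℤ} (hd : Odd d) {s : ℤ} (hs : s = 1 ∨ s = -1) (x : ℤ) (k : ℕ) :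
    (Td (s * d))^[k] x ∈ Pr (s * d) ↔ (Td d)^[k] (s * x) ∈ Pr d := by
  rw [Pr_side hd hs, Td_side hd hs]
  have hss : s * (s * (Td d)^[k] (s * x)) = (Td d)^[k] (s * x) := by rcases hs with rfl | rfl <;> ring
  rw [hss]

/-- the levels of the preperiod -/
theorem SL_pre {d : ℤ} (hd : Odd d) {s : ℤ} (hs : s = 1 ∨ s = -1) (n : ℕ) (j : ℤ) :
    n ∈ SL PT (EP (s * d)) (fun x => (pk (s * d) x : ℤ)) (po (s * d)) j ↔
      1 ≤ n ∧ ∃ k : ℕ, (k : ℤ) = j ∧ (Td d)^[k] (s * n) ∈ Pr d ∧ ∀ i < k, (Td d)^[i] (s * n) ∉ Pr d := by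
  have h3 : (PT.α : ℤ) = 0 := rfl
  have h4 : (PT.β : ℤ) = 1 := rfl
  constructor
  · rintro ⟨h1, h2, h5⟩
    refine ⟨h1, pk (s * d) n, ?_, ?_, fun i hi => ?_⟩
    · rw [h3, h4] at h5
      linarith
    · rw [← Pr_side' hd hs]
      exact (pk_spec h2).1
    · rw [← Pr_side' hd hs]
      exact (pk_spec h2).2 i hi
  · rintro ⟨h1, k, h2, h5, h6⟩
    rw [← Pr_side' hd hs] at h5
    have h7 : pk (s * d) n = k := pk_eq h5 fun i hi h => h6 i hi ((Pr_side' hd hs _ _).1 h)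
    refine ⟨h1, ⟨k, h5⟩, ?_⟩
    simp only
    rw [h7, h3, h4]
    linarith

/-- periodic points on both sides -/
theorem side_per (d : ℤ) (hd : Odd d) {s : ℤ} (hs : s = 1 ∨ s = -1) (hd3 : ¬ (3 : ℤ) ∣ d) :
    ∃ a ∈ EP d, 0 < s * a ∧ ¬ (3 : ℤ) ∣ a := by
  obtain ⟨e, he⟩ := hd
  have h1 : (Td d)^[2] d = d := by
    show Td d (Td d d) = d
    have h2 : Td d d = 2 * d := by
      unfold Td
      rw [if_neg (by omega)]
      omega
    rw [h2]
    unfold Td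
    rw [if_pos (by omega)]
    omega
  have h2 : (Td d)^[1] (-d) = -d := by
    show Td d (-d) = -d
    unfold Td
    rw [if_neg (by omega)]
    omega
  have p1 : d ∈ EP d := ⟨0, 2, by norm_num, h1⟩
  have p2 : -d ∈ EP d := ⟨0, 1, by norm_num, h2⟩
  have hd0 : d ≠ 0 := by omega
  rcases lt_or_gt_of_ne hd0 with h | h
  · rcases hs with rfl | rfl
    · exact ⟨-d, p2, by omega, by omega⟩
    · exact ⟨d, p1, by omega, hd3⟩
  · rcases hs with rfl | rfl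
    · exact ⟨d, p1, by omega, hd3⟩
    · exact ⟨-d, p2, by omega, by omega⟩

/-- THE CONCLUSIONS for the preperiods, both sides -/
theorem pre_concl {d : ℤ} (hd : Odd d) (hd3 : ¬ (3 : ℤ) ∣ d) {s : ℤ} (hs : s = 1 ∨ s = -1) :
    ∃ (δ : ℝ) (Ψ : ℝ → ℝ) (M : ℝ), 0 < δ ∧ δ ≤ 1 ∧ HD s (EP d) δ ∧
      (∀ t, δ * (Real.log 3 / 2) ≤ Ψ t ∧ Ψ t ≤ δ * (3 * Real.log 3 / 2)) ∧
      Concl (fun j => {n : ℕ | 1 ≤ n ∧ ∃ k : ℕ, (k : ℤ) = j ∧ (Td d)^[k] (s * n) ∈ Pr d ∧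
        ∀ i < k, (Td d)^[i] (s * n) ∉ Pr d})
        (2 / Real.log (4 / 3)) (2 * Real.log 3 ^ 2 / Real.log (4 / 3) ^ 3) (Real.log 2 / Real.log 3) (Real.log 3) δ Ψ M := by
  obtain ⟨δ, Ψ, h0, h1, h2, h3, h4, h5, h6⟩ := ex_law (side_odd hd hs) (side_cop (cop_of_not_dvd hd3) hs)
    (pre_ex PT (side_odd hd hs))
  have h2' : HD s (EP d) δ := by
    rw [HD_one] at h2
    have e : EP (s * d) = {x : ℤ | s * x ∈ EP d} := by
      ext x
      constructor
      · rintro ⟨k, hk⟩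
        exact ⟨k, (Pr_side' hd hs x k).1 hk⟩
      · rintro ⟨k, hk⟩
        exact ⟨k, (Pr_side' hd hs x k).2 hk⟩
    rw [e] at h2
    exact h2
  have hδ : 0 < δ := by
    obtain ⟨a, g1, g2, g3⟩ := side_per d hd hs hd3
    exact class_pos hd hd3 hs (EP_inv d) g1 g2 g3 h2'
  obtain ⟨M, hM⟩ := concl hδ h4 h5 h6
  refine ⟨δ, Ψ, M, hδ, h1, h2', ?_, ?_⟩
  · intro t
    have := h3 t
    rw [ww_PT, qr_PT] at this
    have e1 : Real.log 3 * (1 / 3) / (1 - 1 / 3) = Real.log 3 / 2 := by ring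
    have e2 : Real.log 3 / (1 - 1 / 3) = 3 * Real.log 3 / 2 := by ring
    rwa [e1, e2] at this
  · have e : SL PT (EP (s * d)) (fun x => (pk (s * d) x : ℤ)) (po (s * d)) =
        fun j => {n : ℕ | 1 ≤ n ∧ ∃ k : ℕ, (k : ℤ) = j ∧ (Td d)^[k] (s * n) ∈ Pr d ∧
          ∀ i < k, (Td d)^[i] (s * n) ∉ Pr d} := by
      funext j
      ext n
      exact SL_pre hd hs n j
    rw [e, A0_PT, ww_PT, kap_PT] at hM
    exact hM

end Pool.Agent.R468.MG
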