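import Pool.Agent.R468.MG.O

/-!
The preperiod: the final form.
-/

set_option autoImplicit false

namespace Pool.Agent.R468.MG

open Finset Filter Topology
open Pool.Agent.R468.GL
open Pool.Agent.R468.MF
open Pool.Agent.H499R2.ND (Td HD Mg Mg_inv class_pos HD_compl dens_side HD_ncard Inv)

/-- `x` is periodic -/
def IP (d x : ℤ) : Prop := ∃ p : ℕ, 1 ≤ p ∧ (Td d)^[p] x = x

/-- the preperiod of `x` is `k` -/
def Pre (d x : ℤ) (k : ℕ) : Prop := IP d ((Td d)^[k] x) ∧ ∀ i < k, ¬ IP d ((Td d)^[i] x)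

/-- the levels -/
def PS (d s : ℤ) (k : ℕ) : Set ℕ := {n : ℕ | 1 ≤ n ∧ Pre d (s * n) k}

/-- the levels, integer index -/
def PZ (d s : ℤ) (j : ℤ) : Set ℕ := {n : ℕ | 1 ≤ n ∧ ∃ k : ℕ, (k : ℤ) = j ∧ (Td d)^[k] (s * n) ∈ Pr d ∧
        ∀ i < k, (Td d)^[i] (s * n) ∉ Pr d}

theorem IP_iff (d x : ℤ) : IP d x ↔ x ∈ Pr d := by
  constructor
  · rintro ⟨p, hp, h⟩
    exact ⟨p, by omega, h⟩
  · rintro ⟨p, hp, h⟩
    exact ⟨p, by omega, h⟩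

theorem Pre_iff (d x : ℤ) (k : ℕ) : Pre d x k ↔ (Td d)^[k] x ∈ Pr d ∧ ∀ i < k, (Td d)^[i] x ∉ Pr d := by
  unfold Pre
  rw [IP_iff]
  refine and_congr_right fun _ => ?_
  constructor
  · intro h i hi h'
    exact h i hi ((IP_iff d _).2 h')
  · intro h i hi h'
    exact h i hi ((IP_iff d _).1 h')

theorem PZ_nat (d s : ℤ) (k : ℕ) : PZ d s (k : ℤ) = PS d s k := by
  ext n
  constructor
  · rintro ⟨h1, i, h2, h3⟩
    have : i = k := by exact_mod_cast h2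
    subst this
    exact ⟨h1, (Pre_iff d _ _).2 h3⟩
  · rintro ⟨h1, h2⟩
    exact ⟨h1, k, rfl, (Pre_iff d _ _).1 h2⟩

theorem PZ_neg {d s j : ℤ} (hj : j < 0) : PZ d s j = ∅ := by
  ext n
  constructor
  · rintro ⟨_, i, h2, _⟩
    omega
  · exact fun h => absurd h (Set.notMem_empty n)

theorem EP_iff (d x : ℤ) : x ∈ EP d ↔ ∃ k : ℕ, Pre d x k := by
  constructor
  · intro h
    exact ⟨pk d x, (Pre_iff d x _).2 (pk_spec h)⟩
  · rintro ⟨k, hk⟩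
    exact ⟨k, ((Pre_iff d x k).1 hk).1⟩

theorem cnt_pre (d s : ℤ) (x : ℝ) (k : ℕ) : NM (PZ d s) x (k : ℤ) = ({n : ℕ | 1 ≤ n ∧ (n : ℝ) ≤ x ∧ Pre d (s * n) k}.ncard : ℝ) := by
  unfold NM
  rw [PZ_nat]
  congr 2
  ext n
  constructor
  · rintro ⟨h1, h2, h3⟩
    exact ⟨h2, h1, h3⟩
  · rintro ⟨h1, h2, h3⟩
    exact ⟨h2, h1, h3⟩

theorem dens_pre {d s : ℤ} (hs : s = 1 ∨ s = -1) {δ : ℝ} (h : HD s (EP d) δ) :
    Tendsto (fun X : ℕ => ({n : ℕ | 1 ≤ n ∧ n ≤ X ∧ ∃ k : ℕ, Pre d (s * n) k}.ncard : ℝ) / X) atTop (𝓝 δ) := by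
  refine (HD_ncard hs h).congr fun X => ?_
  congr 2
  have e : {n : ℤ | 0 < s * n ∧ s * n ≤ X ∧ n ∈ EP d} = (fun n : ℕ => s * (n : ℤ)) ''
      {n : ℕ | 1 ≤ n ∧ n ≤ X ∧ ∃ k : ℕ, Pre d (s * n) k} := by
    have hss : ∀ m : ℤ, s * (s * m) = m := by intro m; rcases hs with rfl | rfl <;> ring
    ext m
    rw [Set.mem_image]
    constructor
    · rintro ⟨g1, g2, g3⟩
      obtain ⟨k1, k2, _⟩ := abs_s hs g1
      refine ⟨(s * m).toNat, ⟨by omega, by omega, ?_⟩, k2⟩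
      rw [k2]
      exact (EP_iff d m).1 g3
    · rintro ⟨n, ⟨g1, g2, g3⟩, rfl⟩
      simp only [Set.mem_ofPred_eq]
      rw [hss]
      exact ⟨by exact_mod_cast g1, by exact_mod_cast g2, (EP_iff d _).2 g3⟩
  rw [e, Set.ncard_image_of_injective _ (smul_inj hs)]

theorem one_iff {s : ℤ} (hs : s = 1 ∨ s = -1) {δ : ℝ} (hδ : δ ≤ 1) (h : HD s (EP 1) δ) :
    δ = 1 ↔ ∀ n : ℕ, 1 ≤ n → ∃ k : ℕ, Pre 1 (s * n) k := by
  constructor
  · intro h1 n hn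
    by_contra hcon
    have hx : s * (n : ℤ) ∉ EP 1 := fun h' => hcon ((EP_iff 1 _).1 h')
    have hI : Inv 1 (EP 1)ᶜ := by
      intro x
      rw [Set.mem_compl_iff, Set.mem_compl_iff]
      exact not_congr (EP_inv 1 x)
    obtain ⟨l, _, _, hl⟩ := dens_side (d := 1) odd_one isCoprime_one_left hs hI
    have hsn : 0 < s * (s * (n : ℤ)) := by
      have : s * (s * (n : ℤ)) = n := by rcases hs with rfl | rfl <;> ring
      rw [this]; exact_mod_cast hn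
    obtain ⟨a, ⟨i, j, hij⟩, ha1, ha2⟩ := good_term hs hsn
    have hinv : ∀ (i : ℕ) (x : ℤ), x ∈ EP 1 ↔ (Td 1)^[i] x ∈ EP 1 := by
      intro i
      induction i with
      | zero => intro x; exact Iff.rfl
      | succ i ih => intro x; rw [Function.iterate_succ_apply, ← ih, ← EP_inv]
    have haE : a ∈ (EP 1)ᶜ := by
      intro h2
      apply hx
      rw [hinv j, ← hij, ← hinv i]
      exact h2
    have hpos : 0 < l := class_pos (d := 1) odd_one (by omega) hs hI haE ha1 ha2 hl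
    have := HD_compl h hl
    linarith
  · intro h1
    have h2 := dens_pre hs h
    have h3 : Tendsto (fun X : ℕ => ({n : ℕ | 1 ≤ n ∧ n ≤ X ∧ ∃ k : ℕ, Pre 1 (s * n) k}.ncard : ℝ) / X) atTop (𝓝 1) := by
      refine (tendsto_const_nhds (x := (1 : ℝ))).congr' ?_
      filter_upwards [eventually_gt_atTop 0] with X hX
      have e : {n : ℕ | 1 ≤ n ∧ n ≤ X ∧ ∃ k : ℕ, Pre 1 (s * n) k} = ((Icc 1 X : Finset ℕ) : Set ℕ) := by
        ext n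
        rw [Finset.mem_coe, Finset.mem_Icc]
        constructor
        · rintro ⟨a, b, _⟩; exact ⟨a, b⟩
        · rintro ⟨a, b⟩; exact ⟨a, b, h1 n a⟩
      rw [e, Set.ncard_coe_finset, Nat.card_Icc, Nat.add_sub_cancel]
      have : (X : ℝ) ≠ 0 := by exact_mod_cast hX.ne'
      rw [div_self this]
    exact tendsto_nhds_unique h2 h3

theorem tup_pre (d s : ℤ) {r : ℕ} (hr : 1 ≤ r) (x : ℝ) :
    {w : Fin r → ℕ | (∀ i, 1 ≤ w i ∧ (w i : ℝ) ≤ x) ∧ ∃ k : ℕ, ∀ i, Pre d (s * w i) k} =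
    {w : Fin r → ℕ | (∀ i, w i ∈ {n : ℕ | (n : ℝ) ≤ x}) ∧ ∃ j, ∀ i, w i ∈ PZ d s j} := by
  ext w
  constructor
  · rintro ⟨h1, k, h2⟩
    refine ⟨fun i => (h1 i).2, (k : ℤ), fun i => ?_⟩
    rw [PZ_nat]
    exact ⟨(h1 i).1, h2 i⟩
  · rintro ⟨h1, j, h2⟩
    have i0 : Fin r := ⟨0, hr⟩
    obtain ⟨_, k, hk, _⟩ := h2 i0
    rw [← hk] at h2
    simp only [PZ_nat] at h2
    exact ⟨fun i => ⟨(h2 i).1, h1 i⟩, k, fun i => (h2 i).2⟩

/-- THE PREPERIODS -/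
theorem pre_T {d : ℤ} (hd : Odd d) (hd3 : ¬ (3 : ℤ) ∣ d) {s : ℤ} (hs : s = 1 ∨ s = -1) :
    ∃ (δ : ℝ) (Ψ : ℝ → ℝ) (M : ℝ), 0 < δ ∧ δ ≤ 1 ∧
      Tendsto (fun X : ℕ => ({n : ℕ | 1 ≤ n ∧ n ≤ X ∧ ∃ k : ℕ, Pre d (s * n) k}.ncard : ℝ) / X) atTop (𝓝 δ) ∧
      (d = 1 → (δ = 1 ↔ ∀ n : ℕ, 1 ≤ n → ∃ k : ℕ, Pre d (s * n) k)) ∧
      Continuous Ψ ∧ (∀ t, Ψ (t + 1) = Ψ t) ∧
      (∀ t, δ * (Real.log 3 / 2) ≤ Ψ t ∧ Ψ t ≤ δ * (3 * Real.log 3 / 2)) ∧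
      (∫ t in (0 : ℝ)..1, Ψ t = δ) ∧ (∀ t, Ψ t ≤ M) ∧ (∃ t, Ψ t = M) ∧ δ ≤ M ∧
      (∀ K ε : ℝ, 0 < ε → ∃ X₀ : ℝ, ∀ x : ℝ, X₀ ≤ x → ∀ k : ℕ,
        |(k : ℝ) - 2 / Real.log (4 / 3) * Real.log x| ≤ K * Real.sqrt (Real.log x) →
        |({n : ℕ | 1 ≤ n ∧ (n : ℝ) ≤ x ∧ Pre d (s * n) k}.ncard : ℝ) /
          (x * (Real.exp (-(((k : ℝ) - 2 / Real.log (4 / 3) * Real.log x) ^ 2 /
            (2 * (2 * Real.log 3 ^ 2 / Real.log (4 / 3) ^ 3 * Real.log x)))) /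
            Real.sqrt (2 * Real.pi * (2 * Real.log 3 ^ 2 / Real.log (4 / 3) ^ 3 * Real.log x)))) -
          Ψ (Real.logb 3 (x / 2 ^ k))| ≤ ε) ∧
      (∃ A : ℝ, 0 < A ∧ ∀ x : ℝ, 2 ≤ x → ∀ k : ℕ,
        ({n : ℕ | 1 ≤ n ∧ (n : ℝ) ≤ x ∧ Pre d (s * n) k}.ncard : ℝ) ≤ A * x / Real.sqrt (Real.log x)) ∧
      (∀ ε : ℝ, 0 < ε → ∃ X₀ : ℝ, ∀ x : ℝ, X₀ ≤ x →
        (∀ k : ℕ, ({n : ℕ | 1 ≤ n ∧ (n : ℝ) ≤ x ∧ Pre d (s * n) k}.ncard : ℝ) ≤
          (M + ε) * x / Real.sqrt (2 * Real.pi * (2 * Real.log 3 ^ 2 / Real.log (4 / 3) ^ 3 * Real.log x))) ∧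
        (∃ k : ℕ, |(k : ℝ) - 2 / Real.log (4 / 3) * Real.log x| ≤ ε * Real.sqrt (Real.log x) ∧
          (M - ε) * x / Real.sqrt (2 * Real.pi * (2 * Real.log 3 ^ 2 / Real.log (4 / 3) ^ 3 * Real.log x)) ≤
            ({n : ℕ | 1 ≤ n ∧ (n : ℝ) ≤ x ∧ Pre d (s * n) k}.ncard : ℝ)) ∧
        ∀ k : ℕ, (∀ i : ℕ, {n : ℕ | 1 ≤ n ∧ (n : ℝ) ≤ x ∧ Pre d (s * n) i}.ncard ≤
          {n : ℕ | 1 ≤ n ∧ (n : ℝ) ≤ x ∧ Pre d (s * n) k}.ncard) →
          |(k : ℝ) - 2 / Real.log (4 / 3) * Real.log x| ≤ ε * Real.sqrt (Real.log x)) ∧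
      (∀ r : ℕ, 1 ≤ r → Tendsto (fun x : ℝ =>
        ({w : Fin r → ℕ | (∀ i, 1 ≤ w i ∧ (w i : ℝ) ≤ x) ∧ ∃ k : ℕ, ∀ i, Pre d (s * w i) k}.ncard : ℝ) *
          (Real.sqrt (2 * Real.pi * (2 * Real.log 3 ^ 2 / Real.log (4 / 3) ^ 3 * Real.log x)) ^ (r - 1) / x ^ r)) atTop
        (𝓝 (1 / Real.sqrt r * ∫ t in (0 : ℝ)..1, Ψ t ^ r))) := by
  obtain ⟨δ, Ψ, M, h1, h1', h2, h3, C⟩ := pre_concl hd hd3 hs
  change Concl (PZ d s) _ _ _ _ δ Ψ M at C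
  refine ⟨δ, Ψ, M, h1, h1', dens_pre hs h2, ?_, C.cont, C.per, h3, C.int, C.le_max, C.ex_max, C.del,
    ?_, ?_, ?_, ?_⟩
  · rintro rfl
    exact one_iff hs h1' h2
  · intro K ε hε
    obtain ⟨X₀, hX0, hX⟩ := C.loc K ε hε
    refine ⟨X₀, fun x hx k hk => ?_⟩
    have hx0 : 0 < x := by linarith
    have h6 := hX x hx (k : ℤ) (by push_cast; exact hk)
    have e : Real.log x / Real.log 3 - ((k : ℤ) : ℝ) * (Real.log 2 / Real.log 3) = Real.logb 3 (x / 2 ^ k) := by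
      unfold Real.logb
      rw [Real.log_div hx0.ne' (by positivity), Real.log_pow]
      push_cast
      ring
    rw [e, cnt_pre] at h6
    have e2 : ∀ m v : ℝ, gn m v x (k : ℤ) = Real.exp (-(((k : ℝ) - m * Real.log x) ^ 2 / (2 * (v * Real.log x)))) /
        Real.sqrt (2 * Real.pi * (v * Real.log x)) := by
      intro m v
      unfold gn sd
      push_cast
      rfl
    rw [e2] at h6
    exact h6
  · obtain ⟨A, hA, h⟩ := C.up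
    exact ⟨A, hA, fun x hx k => by rw [← cnt_pre]; exact h x hx k⟩
  · intro ε hε
    obtain ⟨X₀, _, hX⟩ := C.mode ε hε
    refine ⟨max X₀ (Real.exp ((ε + 1) ^ 2)), fun x hx => ?_⟩
    have hx1 : X₀ ≤ x := (le_max_left _ _).trans hx
    have hx2 : Real.exp ((ε + 1) ^ 2) ≤ x := (le_max_right _ _).trans hx
    have hxpos : 0 < x := (Real.exp_pos _).trans_le hx2
    have hlx : (ε + 1) ^ 2 ≤ Real.log x := by rwa [Real.le_log_iff_exp_le hxpos]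
    have hsx : ε + 1 ≤ Real.sqrt (Real.log x) := Real.le_sqrt_of_sq_le hlx
    have hsq : Real.sqrt (Real.log x) * Real.sqrt (Real.log x) = Real.log x := Real.mul_self_sqrt (by nlinarith)
    have hmu : 1 ≤ 2 / Real.log (4 / 3) := by
      have h5 : 0 < Real.log (4 / 3) := Real.log_pos (by norm_num)
      rw [le_div_iff₀ h5]
      have h6 := Real.log_le_sub_one_of_pos (show (0 : ℝ) < 4 / 3 by norm_num)
      linarith
    obtain ⟨g1, ⟨j, g2, g3⟩, g4⟩ := hX x hx1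
    refine ⟨fun k => ?_, ?_, fun k hk => ?_⟩
    · rw [← cnt_pre]; exact g1 k
    · have hj : 0 ≤ j := by
        have h7 := (abs_le.1 g2).1
        have h8 : Real.log x ≤ 2 / Real.log (4 / 3) * Real.log x := by
          have : 0 ≤ Real.log x := by nlinarith
          nlinarith
        have h9 : (0 : ℝ) ≤ j := by nlinarith
        exact_mod_cast h9
      obtain ⟨k, rfl⟩ := Int.eq_ofNat_of_zero_le hj
      refine ⟨k, ?_, ?_⟩
      · have := g2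
        push_cast at this
        exact this
      · rw [← cnt_pre]; exact g3
    · have := g4 (k : ℤ) (fun i => ?_)
      · push_cast at this
        exact this
      · rcases lt_or_ge i 0 with hi | hi
        · have e0 : NM (PZ d s) x i = 0 := by
            unfold NM
            rw [PZ_neg hi]
            simp
          rw [e0]
          unfold NM
          positivity
        · obtain ⟨i, rfl⟩ := Int.eq_ofNat_of_zero_le hi
          rw [cnt_pre, cnt_pre]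
          exact_mod_cast hk i
  · intro r hr
    refine (C.tup r hr).congr fun x => ?_
    rw [tup_pre d s hr x]
    unfold sd
    rw [mul_comm]

end Pool.Agent.R468.MG
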