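import Pool.Agent.R468.MG.Q

/-!
Entering a union of cycles (finitely or infinitely many): the law of the entrance time.
-/

set_option autoImplicit false

namespace Pool.Agent.R468.MG

open Finset Filter Topology
open Pool.Agent.R468.GL
open Pool.Agent.R468.MF
open Pool.Agent.H499R2.LT (od od_add SpW)
open Pool.Agent.H499R2.ND (Td HD Td_side side_odd side_cop cop_of_not_dvd class_pos Inv wc mem_wc PB cls mem_cls
  HD_compl dens_side HD_ncard Mg Mg_inv)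
open Pool.Agent.R468.LL (lam lam_eq lam_pos lam_lt)

/-- a union of cycles -/
def UC (d : ℤ) (Z : Set ℤ) : Prop := ∀ z ∈ Z, z ∈ Pr d ∧ Td d z ∈ Z

/-- the integers whose trajectory enters `Z` -/
def EZ (d : ℤ) (Z : Set ℤ) : Set ℤ := {x : ℤ | ∃ k : ℕ, (Td d)^[k] x ∈ Z}

open Classical in
/-- the entrance time -/
noncomputable def zk (d : ℤ) (Z : Set ℤ) (x : ℤ) : ℕ := if h : ∃ k : ℕ, (Td d)^[k] x ∈ Z then Nat.find h else 0

/-- the number of odd terms before -/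
noncomputable def zo (d : ℤ) (Z : Set ℤ) (x : ℤ) : ℤ := od d (zk d Z x) x

variable {d : ℤ} {Z : Set ℤ}

theorem UC_FC (hZ : UC d Z) : Pool.Agent.H499R2.CZ.FC d Z := fun x hx => (hZ x hx).2

theorem UC_iter (hZ : UC d Z) {x : ℤ} (hx : x ∈ Z) (i : ℕ) : (Td d)^[i] x ∈ Z := by
  induction i with
  | zero => exact hx
  | succ i ih => rw [Function.iterate_succ_apply']; exact (hZ _ ih).2

theorem UC_back (hZ : UC d Z) {w : ℤ} (hw : w ∈ Pr d) {j : ℕ} (h : (Td d)^[j] w ∈ Z) : w ∈ Z := by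
  obtain ⟨p, hp, hpw⟩ := hw
  have h3 : (Td d)^[p * j] w = w := hpw.mul_const j
  have hle : j ≤ p * j := Nat.le_mul_of_pos_left j hp
  have h4 : (Td d)^[p * j - j] ((Td d)^[j] w) = w := by
    rw [← Function.iterate_add_apply, Nat.sub_add_cancel hle, h3]
  rw [← h4]
  exact UC_iter hZ h _

theorem zk_spec {x : ℤ} (h : x ∈ EZ d Z) : (Td d)^[zk d Z x] x ∈ Z ∧ ∀ i < zk d Z x, (Td d)^[i] x ∉ Z := by
  classical
  have h' : ∃ k : ℕ, (Td d)^[k] x ∈ Z := h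
  unfold zk
  rw [dif_pos h']
  exact ⟨Nat.find_spec h', fun i hi => Nat.find_min h' hi⟩

theorem zk_eq {x : ℤ} {k : ℕ} (h : (Td d)^[k] x ∈ Z) (h' : ∀ i < k, (Td d)^[i] x ∉ Z) : zk d Z x = k := by
  obtain ⟨h1, h2⟩ := zk_spec (show x ∈ EZ d Z from ⟨k, h⟩)
  rcases lt_trichotomy (zk d Z x) k with h3 | h3 | h3
  · exact absurd h1 (h' _ h3)
  · exact h3
  · exact absurd h (h2 _ h3)

theorem EZ_inv (hZ : UC d Z) : Inv d (EZ d Z) := by
  intro x
  constructor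
  · rintro ⟨k, hk⟩
    refine ⟨k, ?_⟩
    rw [← Function.iterate_succ_apply, Function.iterate_succ_apply']
    exact (hZ _ hk).2
  · rintro ⟨k, hk⟩
    exact ⟨k + 1, by rw [Function.iterate_succ_apply]; exact hk⟩

theorem zk_step (hZ : UC d Z) {x : ℤ} (hx : x ∉ Z) (hE : x ∈ EZ d Z) : zk d Z x = zk d Z (Td d x) + 1 := by
  obtain ⟨h1, h2⟩ := zk_spec ((EZ_inv hZ x).1 hE)
  apply zk_eq
  · rw [Function.iterate_succ_apply]; exact h1
  · intro i hi
    cases i with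
    | zero => exact hx
    | succ i =>
      rw [Function.iterate_succ_apply]
      exact h2 i (by omega)

theorem zk_gr (hZ : UC d Z) : Gr d Z (EZ d Z) (fun x => (zk d Z x : ℤ)) (zo d Z) := by
  refine ⟨fun x _ => EZ_inv hZ x, fun x hx hE => ?_, fun x hx hE => ?_⟩
  · show ((zk d Z x : ℕ) : ℤ) = (zk d Z (Td d x) : ℕ) + 1
    rw [zk_step hZ hx hE]
    push_cast
    ring
  · unfold zo
    rw [zk_step hZ hx hE, od]
    ring

/-- unions of cycles are sparse -/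
theorem Z_SpW (hd : Odd d) (hZ : UC d Z) : SpW Z := by
  obtain ⟨B', hB', hsp⟩ := Pool.Agent.H319R2.Tk.sparse 0.951 Pool.Agent.H319R2.beta_lt (by norm_num)
  have hd2 : d % 2 = 1 := by obtain ⟨e, he⟩ := hd; omega
  set K : ℝ := B' * |(d : ℝ)| ^ (1 - 0.951 : ℝ) * 2 with hKdef
  have hK : 0 ≤ K := by positivity
  have hcount : ∀ A : ℝ, 0 < A → 1 ≤ Real.log A → ∀ E : Finset ℤ,
      (∀ y ∈ E, A ≤ (y : ℝ) ∧ (y : ℝ) < 2 * A ∧ y ∈ Z) →
      (E.card : ℝ) ≤ K * Real.exp (0.951 * Real.log A) := by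
    intro A hA hlA E hE
    have hA1 : 1 ≤ A := by
      by_contra hc
      push Not at hc
      have := Real.log_nonpos hA.le hc.le
      linarith
    have h2 : (2 * A) ^ (0.951 : ℝ) ≤ 2 * Real.exp (0.951 * Real.log A) := by
      rw [Real.mul_rpow (by norm_num) hA.le]
      have h3 : (2 : ℝ) ^ (0.951 : ℝ) ≤ 2 := by
        calc (2 : ℝ) ^ (0.951 : ℝ) ≤ 2 ^ (1 : ℝ) :=
              Real.rpow_le_rpow_of_exponent_le (by norm_num) (by norm_num)
          _ = 2 := Real.rpow_one 2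
      have h4 : A ^ (0.951 : ℝ) = Real.exp (0.951 * Real.log A) := by
        rw [Real.rpow_def_of_pos hA, mul_comm]
      rw [h4]
      exact mul_le_mul_of_nonneg_right h3 (Real.exp_pos _).le
    have h1 := hsp d hd2 _ (Pool.Agent.H319R2.G.tame_periodic (Td d)) (2 * A) (by linarith) E (by
      intro y hy
      obtain ⟨g1, g2, g3⟩ := hE y hy
      refine ⟨(hZ y g3).1, ?_⟩
      rw [abs_of_nonneg (by linarith)]
      exact g2.le)
    refine h1.trans ?_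
    calc B' * |(d : ℝ)| ^ (1 - 0.951 : ℝ) * (2 * A) ^ (0.951 : ℝ)
        ≤ B' * |(d : ℝ)| ^ (1 - 0.951 : ℝ) * (2 * Real.exp (0.951 * Real.log A)) :=
          mul_le_mul_of_nonneg_left h2 (by positivity)
      _ = _ := by rw [hKdef]; ring
  intro B
  set Q : ℝ := B.factorial * 100 ^ B * Real.exp 40 with hQ
  have hQ0 : 0 < Q := by positivity
  refine ⟨2 * K * Q, by positivity, ?_⟩
  intro A hA hlA
  have ht0 : 0 < Real.log A := by linarith
  have hexp : Real.exp (Real.log A) = A := Real.exp_log hA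
  have key : ∀ m : ℕ, (m : ℝ) ^ 2 ≤ Real.log A →
      Real.exp (0.951 * Real.log A) ≤ Q * A / (Real.log A ^ B * 3 ^ m) := by
    intro m hm
    have h6 := Pool.Agent.H499R2.LT.B0.real_ineq B hlA (Nat.cast_nonneg m) hm
    have h5 : ((3 : ℝ) ^ m) = Real.exp (m * Real.log 3) := by
      rw [mul_comm, Real.exp_mul, Real.exp_log (by norm_num), Real.rpow_natCast]
    rw [← h5, hexp, ← hQ] at h6
    rw [le_div_iff₀ (by positivity)]
    calc Real.exp (0.951 * Real.log A) * (Real.log A ^ B * 3 ^ m)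
        = Real.log A ^ B * (Real.exp (0.951 * Real.log A) * 3 ^ m) := by ring
      _ ≤ _ := h6
  constructor
  · intro m hm u v hu
    have h1 := hcount A hA hlA (cls Z A (2 * A) m u v) (by
      intro y hy
      rw [mem_cls] at hy
      exact ⟨hy.1.1, hy.1.2, hy.2.2.1⟩)
    refine h1.trans ((mul_le_mul_of_nonneg_left (key m hm) hK).trans (le_of_eq ?_))
    field_simp
  · have h1 := hcount A hA hlA (wc Z A (2 * A) 1 0) (by
      intro y hy
      rw [mem_wc] at hy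
      exact ⟨hy.1.1, hy.1.2, hy.2.1⟩)
    have h2 := key 0 (by simpa using ht0.le)
    rw [pow_zero, mul_one] at h2
    refine h1.trans ((mul_le_mul_of_nonneg_left h2 hK).trans ?_)
    have e : 2 * K * Q / Real.log A ^ B * A = 2 * (K * (Q * A / Real.log A ^ B)) := by ring
    rw [e]
    have h3 : 0 ≤ K * (Q * A / Real.log A ^ B) := by positivity
    linarith

open Classical in
/-- the cycles of `Z` met by the integers from `1` to `y` -/
noncomputable def ZF (d : ℤ) (Z : Set ℤ) (y : ℝ) : Finset ℤ :=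
  ((Icc (1 : ℤ) ⌊y⌋).biUnion fun x => (range (Function.minimalPeriod (Td d) ((Td d)^[zk d Z x] x))).image
    fun i => (Td d)^[i] ((Td d)^[zk d Z x] x)).filter fun w => w ∈ Z

theorem mem_ZF {y : ℝ} {w : ℤ} : w ∈ ZF d Z y ↔ w ∈ Z ∧ ∃ x : ℤ, 1 ≤ x ∧ (x : ℝ) ≤ y ∧
    ∃ i < Function.minimalPeriod (Td d) ((Td d)^[zk d Z x] x), (Td d)^[i] ((Td d)^[zk d Z x] x) = w := by
  classical
  unfold ZF
  rw [mem_filter, mem_biUnion, and_comm]
  refine and_congr_right fun _ => ?_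
  constructor
  · rintro ⟨x, hx, hw⟩
    rw [mem_Icc, Int.le_floor] at hx
    rw [mem_image] at hw
    obtain ⟨i, hi, hw⟩ := hw
    exact ⟨x, hx.1, hx.2, i, mem_range.1 hi, hw⟩
  · rintro ⟨x, h1, h2, i, hi, hw⟩
    refine ⟨x, by rw [mem_Icc, Int.le_floor]; exact ⟨h1, h2⟩, ?_⟩
    rw [mem_image]
    exact ⟨i, mem_range.2 hi, hw⟩

theorem ZF_back (hZ : UC d Z) {y : ℝ} {w : ℤ} (hw : w ∈ Z) {j : ℕ} (h : (Td d)^[j] w ∈ ZF d Z y) :
    w ∈ ZF d Z y := by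
  obtain ⟨_, x, h1, h2, i, hi, hz⟩ := mem_ZF.1 h
  obtain ⟨p, hp, hpw⟩ := (hZ w hw).1
  set z := (Td d)^[zk d Z x] x with hzdef
  have h3 : (Td d)^[p * j] w = w := hpw.mul_const j
  have h4 : w = (Td d)^[(p * j - j) + i] z := by
    have hle : j ≤ p * j := Nat.le_mul_of_pos_left j hp
    rw [Function.iterate_add_apply, hz, ← Function.iterate_add_apply, Nat.sub_add_cancel hle, h3]
  have hpos : 0 < Function.minimalPeriod (Td d) z := by omega
  refine mem_ZF.2 ⟨hw, x, h1, h2, ((p * j - j) + i) % Function.minimalPeriod (Td d) z, Nat.mod_lt _ hpos, ?_⟩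
  rw [← hzdef, Function.iterate_mod_minimalPeriod_eq]
  exact h4.symm

theorem z_ex (P : Par) (hd : Odd d) (hZ : UC d Z) : Ex P d Z (EZ d Z) (fun x => (zk d Z x : ℤ)) (zo d Z) := by
  refine ⟨UC_FC hZ, Z_SpW hd hZ, zk_gr hZ, EZ_inv hZ, fun y _ => ⟨ZF d Z y, 0, ?_, ?_, ?_, ?_⟩⟩
  · rintro x ⟨k, hk⟩
    exact ⟨k, (mem_ZF.1 hk).1⟩
  · intro x hx
    obtain ⟨h1, h2⟩ := ht_spec hx
    have h3 : zk d Z x = ht d (ZF d Z y) x := by
      apply zk_eq (mem_ZF.1 h1).1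
      intro i hi h
      apply h2 i hi
      apply ZF_back hZ h (j := ht d (ZF d Z y) x - i)
      rw [← Function.iterate_add_apply, Nat.sub_add_cancel hi.le]
      exact h1
    unfold st ho zo
    rw [h3]
    ring
  · intro x hxR
    constructor
    · rintro ⟨k, hk⟩
      cases k with
      | zero => exact absurd (mem_ZF.1 hk).1 hxR
      | succ k =>
        rw [Function.iterate_succ_apply] at hk
        exact ⟨k, hk⟩
    · exact RR_back
  · intro x hx h0 hxy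
    obtain ⟨h1, _⟩ := zk_spec hx
    refine ⟨zk d Z x, mem_ZF.2 ⟨h1, x, by omega, hxy, 0, ?_, rfl⟩⟩
    exact Function.minimalPeriod_pos_iff_mem_periodicPts.2 (hZ _ h1).1

/-- the mirror image -/
def mir (s : ℤ) (Z : Set ℤ) : Set ℤ := {x : ℤ | s * x ∈ Z}

theorem mir_iter (hd : Odd d) {s : ℤ} (hs : s = 1 ∨ s = -1) (x : ℤ) (k : ℕ) :
    (Td (s * d))^[k] x ∈ mir s Z ↔ (Td d)^[k] (s * x) ∈ Z := by
  unfold mir
  rw [Set.mem_ofPred_eq, Td_side hd hs]
  have hss : s * (s * (Td d)^[k] (s * x)) = (Td d)^[k] (s * x) := by rcases hs with rfl | rfl <;> ring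
  rw [hss]

theorem mir_UC (hd : Odd d) {s : ℤ} (hs : s = 1 ∨ s = -1) (hZ : UC d Z) : UC (s * d) (mir s Z) := by
  intro z hz
  have hz' : s * z ∈ Z := hz
  refine ⟨(Pr_side hd hs z).2 (hZ _ hz').1, ?_⟩
  have h1 := (mir_iter (Z := Z) hd hs z 1).2 (hZ _ hz').2
  exact h1

/-- the levels of the entrance time -/
theorem SL_z (hd : Odd d) {s : ℤ} (hs : s = 1 ∨ s = -1) (n : ℕ) (j : ℤ) :
    n ∈ SL PT (EZ (s * d) (mir s Z)) (fun x => (zk (s * d) (mir s Z) x : ℤ)) (zo (s * d) (mir s Z)) j ↔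
      1 ≤ n ∧ ∃ k : ℕ, (k : ℤ) = j ∧ (Td d)^[k] (s * n) ∈ Z ∧ ∀ i < k, (Td d)^[i] (s * n) ∉ Z := by
  have h3 : (PT.α : ℤ) = 0 := rfl
  have h4 : (PT.β : ℤ) = 1 := rfl
  constructor
  · rintro ⟨h1, h2, h5⟩
    refine ⟨h1, zk (s * d) (mir s Z) n, ?_, ?_, fun i hi => ?_⟩
    · rw [h3, h4] at h5
      linarith
    · rw [← mir_iter hd hs]
      exact (zk_spec h2).1
    · rw [← mir_iter hd hs]
      exact (zk_spec h2).2 i hi
  · rintro ⟨h1, k, h2, h5, h6⟩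
    rw [← mir_iter hd hs] at h5
    have h7 : zk (s * d) (mir s Z) n = k := zk_eq h5 fun i hi h => h6 i hi ((mir_iter hd hs _ _).1 h)
    refine ⟨h1, ⟨k, h5⟩, ?_⟩
    simp only
    rw [h7, h3, h4]
    linarith

/-- THE CONCLUSIONS for the entrance times, both sides -/
theorem z_concl (hd : Odd d) (hd3 : ¬ (3 : ℤ) ∣ d) {s : ℤ} (hs : s = 1 ∨ s = -1) (hZ : UC d Z)
    (ha : ∃ a ∈ EZ d Z, 0 < s * a ∧ ¬ (3 : ℤ) ∣ a) :
    ∃ (δ : ℝ) (Ψ : ℝ → ℝ) (M : ℝ), 0 < δ ∧ δ ≤ 1 ∧ HD s (EZ d Z) δ ∧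
      (∀ t, δ * (Real.log 3 / 2) ≤ Ψ t ∧ Ψ t ≤ δ * (3 * Real.log 3 / 2)) ∧
      Concl (fun j => {n : ℕ | 1 ≤ n ∧ ∃ k : ℕ, (k : ℤ) = j ∧ (Td d)^[k] (s * n) ∈ Z ∧
        ∀ i < k, (Td d)^[i] (s * n) ∉ Z})
        (2 / Real.log (4 / 3)) (2 * Real.log 3 ^ 2 / Real.log (4 / 3) ^ 3) (Real.log 2 / Real.log 3) (Real.log 3) δ Ψ M := by
  obtain ⟨δ, Ψ, h0, h1, h2, h3, h4, h5, h6⟩ := ex_law (side_odd hd hs) (side_cop (cop_of_not_dvd hd3) hs)
    (z_ex PT (side_odd hd hs) (mir_UC hd hs hZ))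
  have h2' : HD s (EZ d Z) δ := by
    rw [HD_one] at h2
    have e : EZ (s * d) (mir s Z) = {x : ℤ | s * x ∈ EZ d Z} := by
      ext x
      constructor
      · rintro ⟨k, hk⟩
        exact ⟨k, (mir_iter hd hs x k).1 hk⟩
      · rintro ⟨k, hk⟩
        exact ⟨k, (mir_iter hd hs x k).2 hk⟩
    rw [e] at h2
    exact h2
  have hδ : 0 < δ := by
    obtain ⟨a, g1, g2, g3⟩ := ha
    exact class_pos hd hd3 hs (EZ_inv hZ) g1 g2 g3 h2'
  obtain ⟨M, hM⟩ := concl hδ h4 h5 h6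
  refine ⟨δ, Ψ, M, hδ, h1, h2', ?_, ?_⟩
  · intro t
    have := h3 t
    rw [ww_PT, qr_PT] at this
    have e1 : Real.log 3 * (1 / 3) / (1 - 1 / 3) = Real.log 3 / 2 := by ring
    have e2 : Real.log 3 / (1 - 1 / 3) = 3 * Real.log 3 / 2 := by ring
    rwa [e1, e2] at this
  · have e : SL PT (EZ (s * d) (mir s Z)) (fun x => (zk (s * d) (mir s Z) x : ℤ)) (zo (s * d) (mir s Z)) =
        fun j => {n : ℕ | 1 ≤ n ∧ ∃ k : ℕ, (k : ℤ) = j ∧ (Td d)^[k] (s * n) ∈ Z ∧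
          ∀ i < k, (Td d)^[i] (s * n) ∉ Z} := by
      funext j
      ext n
      exact SL_z hd hs n j
    rw [e, A0_PT, ww_PT, kap_PT] at hM
    exact hM

end Pool.Agent.R468.MG
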