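import Pool.Agent.R468.MG.U

/-!
Entering a union of cycles of the `3x+1` map on the integers: the final form.
-/

set_option autoImplicit false

namespace Pool.Agent.R468.MG

open Finset Filter Topology
open Pool.Agent.R468.GL
open Pool.Agent.R468.MF
open Pool.Agent.H499R2.ND (Td HD Mg Mg_inv class_pos HD_compl dens_side HD_ncard Inv)

/-! ### the local law determines its function -/

/-- the normal density -/
noncomputable def gk (x : ℝ) (k : ℕ) : ℝ :=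
  Real.exp (-(((k : ℝ) - 2 / Real.log (4 / 3) * Real.log x) ^ 2 /
    (2 * (2 * Real.log 3 ^ 2 / Real.log (4 / 3) ^ 3 * Real.log x)))) /
    Real.sqrt (2 * Real.pi * (2 * Real.log 3 ^ 2 / Real.log (4 / 3) ^ 3 * Real.log x))

/-- the local law -/
def LL (c : ℝ → ℕ → ℝ) (Ψ : ℝ → ℝ) : Prop := ∀ K ε : ℝ, 0 < ε → ∃ X₀ : ℝ, ∀ x : ℝ, X₀ ≤ x → ∀ k : ℕ,
  |(k : ℝ) - 2 / Real.log (4 / 3) * Real.log x| ≤ K * Real.sqrt (Real.log x) →
  |c x k / (x * gk x k) - Ψ (Real.logb 3 (x / 2 ^ k))| ≤ ε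

theorem LL_add {c c' : ℝ → ℕ → ℝ} {Ψ Ψ' : ℝ → ℝ} (h : LL c Ψ) (h' : LL c' Ψ') :
    LL (fun x k => c x k + c' x k) (fun t => Ψ t + Ψ' t) := by
  intro K ε hε
  obtain ⟨X, hX⟩ := h K (ε / 2) (by positivity)
  obtain ⟨X', hX'⟩ := h' K (ε / 2) (by positivity)
  refine ⟨max X X', fun x hx k hk => ?_⟩
  have h1 := abs_le.1 (hX x ((le_max_left _ _).trans hx) k hk)
  have h2 := abs_le.1 (hX' x ((le_max_right _ _).trans hx) k hk)
  rw [add_div, abs_le]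
  constructor <;> linarith [h1.1, h1.2, h2.1, h2.2]

theorem per_Z {U : ℝ → ℝ} (hp : ∀ t, U (t + 1) = U t) (m : ℤ) (t : ℝ) : U (t + m) = U t := by
  have h : Function.Periodic U 1 := hp
  have := h.int_mul m t
  simpa using this

theorem LL_uni {c : ℝ → ℕ → ℝ} {Ψ Ψ' : ℝ → ℝ} (h : LL c Ψ) (h' : LL c Ψ') (hp : ∀ t, Ψ (t + 1) = Ψ t)
    (hp' : ∀ t, Ψ' (t + 1) = Ψ' t) (u : ℝ) : Ψ u = Ψ' u := by
  have hl3 : 0 < Real.log 3 := Real.log_pos (by norm_num)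
  have hmu : 0 < 2 / Real.log (4 / 3) := div_pos two_pos (Real.log_pos (by norm_num))
  by_contra hne
  have hε : 0 < |Ψ u - Ψ' u| / 3 := by
    have : 0 < |Ψ u - Ψ' u| := abs_pos.2 (sub_ne_zero.2 hne)
    positivity
  obtain ⟨X, hX⟩ := h 1 _ hε
  obtain ⟨X', hX'⟩ := h' 1 _ hε
  set μ : ℝ := 2 / Real.log (4 / 3) with hμ
  -- a large `y`
  set L : ℝ := (1 + μ * Real.log 3) ^ 2 + Real.log 3 with hL
  set y : ℝ := max (max (3 * X) (3 * X')) (Real.exp L) with hy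
  have hyE : Real.exp L ≤ y := le_max_right _ _
  have hy0 : 0 < y := (Real.exp_pos _).trans_le hyE
  have hly : L ≤ Real.log y := by rwa [Real.le_log_iff_exp_le hy0]
  have hL0 : 0 ≤ L := by positivity
  set k : ℕ := ⌊μ * Real.log y⌋₊ with hk
  have hk1 : (k : ℝ) ≤ μ * Real.log y := Nat.floor_le (mul_nonneg hmu.le (hL0.trans hly))
  have hk2 : μ * Real.log y < k + 1 := Nat.lt_floor_add_one _
  set v : ℝ := Real.logb 3 (y / 2 ^ k) with hv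
  set m : ℤ := ⌊v - u⌋ with hm
  have hm1 : (m : ℝ) ≤ v - u := Int.floor_le _
  have hm2 : v - u < m + 1 := Int.lt_floor_add_one _
  set x : ℝ := 2 ^ k * (3 : ℝ) ^ (u + m) with hx
  have hx0 : 0 < x := by positivity
  have hlogb : Real.logb 3 (x / 2 ^ k) = u + m := by
    rw [hx, mul_div_cancel_left₀ _ (by positivity : (2 : ℝ) ^ k ≠ 0)]
    exact Real.logb_rpow (by norm_num) (by norm_num)
  have hlx : Real.log x = k * Real.log 2 + (u + m) * Real.log 3 := by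
    rw [hx, Real.log_mul (by positivity) (by positivity), Real.log_pow, Real.log_rpow (by norm_num)]
  have hly' : Real.log y = k * Real.log 2 + v * Real.log 3 := by
    have : v * Real.log 3 = Real.log (y / 2 ^ k) := by
      rw [hv]; unfold Real.logb; field_simp
    rw [this, Real.log_div hy0.ne' (by positivity), Real.log_pow]
    ring
  have hd1 : 0 ≤ Real.log y - Real.log x := by
    rw [hlx, hly']
    have : 0 ≤ (v - (u + m)) * Real.log 3 := mul_nonneg (by linarith) hl3.le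
    linarith
  have hd2 : Real.log y - Real.log x ≤ Real.log 3 := by
    rw [hlx, hly']
    have : (v - (u + m)) * Real.log 3 ≤ 1 * Real.log 3 := mul_le_mul_of_nonneg_right (by linarith) hl3.le
    linarith
  have hyx : y ≤ 3 * x := by
    rw [← Real.log_le_log_iff hy0 (by positivity), Real.log_mul (by norm_num) hx0.ne']
    linarith
  have hxX : X ≤ x := by
    have : 3 * X ≤ y := (le_max_left _ _).trans (le_max_left _ _)
    linarith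
  have hxX' : X' ≤ x := by
    have : 3 * X' ≤ y := (le_max_right _ _).trans (le_max_left _ _)
    linarith
  have hdev : |(k : ℝ) - μ * Real.log x| ≤ 1 * Real.sqrt (Real.log x) := by
    have h1 : 1 + μ * Real.log 3 ≤ Real.sqrt (Real.log x) := by
      apply Real.le_sqrt_of_sq_le
      linarith
    have h2 : μ * (Real.log y - Real.log x) ≤ μ * Real.log 3 := mul_le_mul_of_nonneg_left hd2 hmu.le
    have h3 : 0 ≤ μ * (Real.log y - Real.log x) := mul_nonneg hmu.le hd1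
    have h4 : 0 ≤ μ * Real.log 3 := by positivity
    rw [one_mul, abs_le]
    constructor
    · linarith
    · linarith
  have g1 := hX x hxX k hdev
  have g2 := hX' x hxX' k hdev
  rw [hlogb, per_Z hp] at g1
  rw [hlogb, per_Z hp'] at g2
  have g3 := abs_le.1 g1
  have g4 := abs_le.1 g2
  have g5 : |Ψ u - Ψ' u| ≤ 2 * (|Ψ u - Ψ' u| / 3) := by
    rw [abs_le]
    constructor <;> linarith [g3.1, g3.2, g4.1, g4.2]
  linarith

/-! ### the map on the integers -/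

/-- the trajectory of `x` enters `Z` at the time `k` -/
def Ent (Z : Set ℤ) (x : ℤ) (k : ℕ) : Prop := (Td 1)^[k] x ∈ Z ∧ ∀ i < k, (Td 1)^[i] x ∉ Z

/-- unions of cycles -/
def CU (Z : Set ℤ) : Prop := ∀ z ∈ Z, Td 1 z ∈ Z ∧ ∃ p : ℕ, 1 ≤ p ∧ (Td 1)^[p] z = z

theorem CU_UC {Z : Set ℤ} (h : CU Z) : UC 1 Z := by
  intro z hz
  obtain ⟨h1, p, hp, h2⟩ := h z hz
  exact ⟨⟨p, by omega, h2⟩, h1⟩

theorem CU_iter {Z : Set ℤ} (h : CU Z) {z : ℤ} (hz : z ∈ Z) (i : ℕ) : (Td 1)^[i] z ∈ Z := UC_iter (CU_UC h) hz i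

/-- the number of the `n ≤ x` with entrance time `k` -/
noncomputable def cE (Z : Set ℤ) (s : ℤ) (x : ℝ) (k : ℕ) : ℝ :=
  ({n : ℕ | 1 ≤ n ∧ (n : ℝ) ≤ x ∧ Ent Z (s * n) k}.ncard : ℝ)

/-- the levels, integer index -/
def EJZ (Z : Set ℤ) (s : ℤ) (j : ℤ) : Set ℕ := {n : ℕ | 1 ≤ n ∧ ∃ k : ℕ, (k : ℤ) = j ∧ (Td 1)^[k] (s * n) ∈ Z ∧
        ∀ i < k, (Td 1)^[i] (s * n) ∉ Z}

theorem EJZ_nat (Z : Set ℤ) (s : ℤ) (k n : ℕ) : n ∈ EJZ Z s (k : ℤ) ↔ 1 ≤ n ∧ Ent Z (s * n) k := by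
  constructor
  · rintro ⟨h1, i, h2, h3⟩
    have : i = k := by exact_mod_cast h2
    subst this
    exact ⟨h1, h3⟩
  · rintro ⟨h1, h2⟩
    exact ⟨h1, k, rfl, h2⟩

theorem EJZ_neg {Z : Set ℤ} {s j : ℤ} (hj : j < 0) : EJZ Z s j = ∅ := by
  ext n
  constructor
  · rintro ⟨_, i, h2, _⟩
    omega
  · exact fun h => absurd h (Set.notMem_empty n)

theorem EZ_ent (Z : Set ℤ) (x : ℤ) : x ∈ EZ 1 Z ↔ ∃ k : ℕ, Ent Z x k := by
  constructor
  · intro h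
    exact ⟨zk 1 Z x, zk_spec h⟩
  · rintro ⟨k, hk⟩
    exact ⟨k, hk.1⟩

theorem cE_NM (Z : Set ℤ) (s : ℤ) (x : ℝ) (k : ℕ) : NM (EJZ Z s) x (k : ℤ) = cE Z s x k := by
  unfold NM cE
  congr 2
  ext n
  constructor
  · rintro ⟨h1, h2⟩
    have h3 := (EJZ_nat Z s k n).1 h2
    exact ⟨h3.1, h1, h3.2⟩
  · rintro ⟨h1, h2, h3⟩
    exact ⟨h2, (EJZ_nat Z s k n).2 ⟨h1, h3⟩⟩

theorem dens_ent {Z : Set ℤ} {s : ℤ} (hs : s = 1 ∨ s = -1) {δ : ℝ} (h : HD s (EZ 1 Z) δ) :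
    Tendsto (fun X : ℕ => ({n : ℕ | 1 ≤ n ∧ n ≤ X ∧ ∃ k : ℕ, (Td 1)^[k] (s * n) ∈ Z}.ncard : ℝ) / X) atTop (𝓝 δ) := by
  refine (HD_ncard hs h).congr fun X => ?_
  congr 2
  have e : {n : ℤ | 0 < s * n ∧ s * n ≤ X ∧ n ∈ EZ 1 Z} = (fun n : ℕ => s * (n : ℤ)) ''
      {n : ℕ | 1 ≤ n ∧ n ≤ X ∧ ∃ k : ℕ, (Td 1)^[k] (s * n) ∈ Z} := by
    have hss : ∀ m : ℤ, s * (s * m) = m := by intro m; rcases hs with rfl | rfl <;> ring
    ext m
    rw [Set.mem_image]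
    constructor
    · rintro ⟨g1, g2, g3⟩
      obtain ⟨k1, k2, _⟩ := abs_s hs g1
      refine ⟨(s * m).toNat, ⟨by omega, by omega, ?_⟩, k2⟩
      rw [k2]
      exact g3
    · rintro ⟨n, ⟨g1, g2, g3⟩, rfl⟩
      simp only [Set.mem_ofPred_eq]
      rw [hss]
      exact ⟨by exact_mod_cast g1, by exact_mod_cast g2, g3⟩
  rw [e, Set.ncard_image_of_injective _ (smul_inj hs)]

theorem one_ent {Z : Set ℤ} (hZ : CU Z) {s : ℤ} (hs : s = 1 ∨ s = -1) {δ : ℝ} (h : HD s (EZ 1 Z) δ)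
    (hδ : δ ≤ 1) : δ = 1 ↔ ∀ n : ℕ, 1 ≤ n → ∃ k : ℕ, (Td 1)^[k] (s * n) ∈ Z := by
  constructor
  · intro h1 n hn
    by_contra hcon
    have hx : s * (n : ℤ) ∉ EZ 1 Z := hcon
    have hEI := EZ_inv (CU_UC hZ)
    have hI : Inv 1 (EZ 1 Z)ᶜ := by
      intro x
      rw [Set.mem_compl_iff, Set.mem_compl_iff]
      exact not_congr (hEI x)
    obtain ⟨l, _, _, hl⟩ := dens_side (d := 1) odd_one isCoprime_one_left hs hI
    have hsn : 0 < s * (s * (n : ℤ)) := by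
      have : s * (s * (n : ℤ)) = n := by rcases hs with rfl | rfl <;> ring
      rw [this]; exact_mod_cast hn
    obtain ⟨a, ⟨i, j, hij⟩, ha1, ha2⟩ := good_term hs hsn
    have hinv : ∀ (i : ℕ) (x : ℤ), x ∈ EZ 1 Z ↔ (Td 1)^[i] x ∈ EZ 1 Z := by
      intro i
      induction i with
      | zero => intro x; exact Iff.rfl
      | succ i ih => intro x; rw [Function.iterate_succ_apply, ← ih, ← hEI]
    have haE : a ∈ (EZ 1 Z)ᶜ := by
      intro h2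
      apply hx
      rw [hinv j, ← hij, ← hinv i]
      exact h2
    have hpos : 0 < l := class_pos (d := 1) odd_one (by omega) hs hI haE ha1 ha2 hl
    have := HD_compl h hl
    linarith
  · intro h1
    have h2 := dens_ent hs h
    have h3 : Tendsto (fun X : ℕ => ({n : ℕ | 1 ≤ n ∧ n ≤ X ∧ ∃ k : ℕ, (Td 1)^[k] (s * n) ∈ Z}.ncard : ℝ) / X)
        atTop (𝓝 1) := by
      refine (tendsto_const_nhds (x := (1 : ℝ))).congr' ?_
      filter_upwards [eventually_gt_atTop 0] with X hX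
      have e : {n : ℕ | 1 ≤ n ∧ n ≤ X ∧ ∃ k : ℕ, (Td 1)^[k] (s * n) ∈ Z} = ((Icc 1 X : Finset ℕ) : Set ℕ) := by
        ext n
        rw [Finset.mem_coe, Finset.mem_Icc]
        constructor
        · rintro ⟨a, b, _⟩; exact ⟨a, b⟩
        · rintro ⟨a, b⟩; exact ⟨a, b, h1 n a⟩
      rw [e, Set.ncard_coe_finset, Nat.card_Icc, Nat.add_sub_cancel]
      have : (X : ℝ) ≠ 0 := by exact_mod_cast hX.ne'
      rw [div_self this]
    exact tendsto_nhds_unique h2 h3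

/-- an element prime to `3` -/
theorem good_Z {Z : Set ℤ} (hZ : CU Z) {s : ℤ} (hs : s = 1 ∨ s = -1) (h : ∃ z ∈ Z, 0 < s * z) :
    ∃ a ∈ EZ 1 Z, 0 < s * a ∧ ¬ (3 : ℤ) ∣ a := by
  obtain ⟨z, hz, hsz⟩ := h
  obtain ⟨k, hk⟩ := odd_term _ z rfl (by rintro rfl; simp at hsz)
  refine ⟨(Td 1)^[k + 1] z, ⟨0, CU_iter hZ hz _⟩, sgn_iter hs hsz _, ?_⟩
  rw [Function.iterate_succ_apply']
  generalize (Td 1)^[k] z = t at hk
  unfold Td
  rw [if_neg (by omega)]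
  omega

theorem tup_ent (Z : Set ℤ) (s : ℤ) {r : ℕ} (hr : 1 ≤ r) (x : ℝ) :
    {w : Fin r → ℕ | (∀ i, 1 ≤ w i ∧ (w i : ℝ) ≤ x) ∧ ∃ k : ℕ, ∀ i, Ent Z (s * w i) k} =
    {w : Fin r → ℕ | (∀ i, w i ∈ {n : ℕ | (n : ℝ) ≤ x}) ∧ ∃ j, ∀ i, w i ∈ EJZ Z s j} := by
  ext w
  constructor
  · rintro ⟨h1, k, h2⟩
    exact ⟨fun i => (h1 i).2, (k : ℤ), fun i => (EJZ_nat Z s k (w i)).2 ⟨(h1 i).1, h2 i⟩⟩
  · rintro ⟨h1, j, h2⟩
    have i0 : Fin r := ⟨0, hr⟩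
    obtain ⟨_, k, hk, _⟩ := h2 i0
    rw [← hk] at h2
    have h3 := fun i => (EJZ_nat Z s k (w i)).1 (h2 i)
    exact ⟨fun i => ⟨(h3 i).1, h1 i⟩, k, fun i => (h3 i).2⟩

/-- the conclusions -/
structure Cc (Z : Set ℤ) (s : ℤ) (δ : ℝ) (Ψ : ℝ → ℝ) (M : ℝ) : Prop where
  pos : 0 < δ
  le1 : δ ≤ 1
  dens : Tendsto (fun X : ℕ => ({n : ℕ | 1 ≤ n ∧ n ≤ X ∧ ∃ k : ℕ, (Td 1)^[k] (s * n) ∈ Z}.ncard : ℝ) / X)
    atTop (𝓝 δ)
  one : δ = 1 ↔ ∀ n : ℕ, 1 ≤ n → ∃ k : ℕ, (Td 1)^[k] (s * n) ∈ Z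
  cont : Continuous Ψ
  per : ∀ t, Ψ (t + 1) = Ψ t
  bd : ∀ t, δ * (Real.log 3 / 2) ≤ Ψ t ∧ Ψ t ≤ δ * (3 * Real.log 3 / 2)
  int : ∫ t in (0 : ℝ)..1, Ψ t = δ
  le_max : ∀ t, Ψ t ≤ M
  ex_max : ∃ t, Ψ t = M
  del : δ ≤ M
  loc : LL (cE Z s) Ψ
  up : ∃ A : ℝ, 0 < A ∧ ∀ x : ℝ, 2 ≤ x → ∀ k : ℕ, cE Z s x k ≤ A * x / Real.sqrt (Real.log x)
  mode : ∀ ε : ℝ, 0 < ε → ∃ X₀ : ℝ, ∀ x : ℝ, X₀ ≤ x →
    (∀ k : ℕ, cE Z s x k ≤
      (M + ε) * x / Real.sqrt (2 * Real.pi * (2 * Real.log 3 ^ 2 / Real.log (4 / 3) ^ 3 * Real.log x))) ∧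
    (∃ k : ℕ, |(k : ℝ) - 2 / Real.log (4 / 3) * Real.log x| ≤ ε * Real.sqrt (Real.log x) ∧
      (M - ε) * x / Real.sqrt (2 * Real.pi * (2 * Real.log 3 ^ 2 / Real.log (4 / 3) ^ 3 * Real.log x)) ≤ cE Z s x k) ∧
    ∀ k : ℕ, (∀ i : ℕ, cE Z s x i ≤ cE Z s x k) →
      |(k : ℝ) - 2 / Real.log (4 / 3) * Real.log x| ≤ ε * Real.sqrt (Real.log x)
  tup : ∀ r : ℕ, 1 ≤ r → Tendsto (fun x : ℝ =>
      ({w : Fin r → ℕ | (∀ i, 1 ≤ w i ∧ (w i : ℝ) ≤ x) ∧ ∃ k : ℕ, ∀ i, Ent Z (s * w i) k}.ncard : ℝ) *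
        (Real.sqrt (2 * Real.pi * (2 * Real.log 3 ^ 2 / Real.log (4 / 3) ^ 3 * Real.log x)) ^ (r - 1) / x ^ r)) atTop
      (𝓝 (1 / Real.sqrt r * ∫ t in (0 : ℝ)..1, Ψ t ^ r))

theorem ent_T {Z : Set ℤ} (hZ : CU Z) {s : ℤ} (hs : s = 1 ∨ s = -1) (hne : ∃ z ∈ Z, 0 < s * z) :
    ∃ (δ : ℝ) (Ψ : ℝ → ℝ) (M : ℝ), Cc Z s δ Ψ M := by
  obtain ⟨δ, Ψ, M, h1, h1', h2, h3, C⟩ := z_concl (d := 1) odd_one (by omega) hs (CU_UC hZ) (good_Z hZ hs hne)
  change Concl (EJZ Z s) _ _ _ _ δ Ψ M at C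
  refine ⟨δ, Ψ, M, h1, h1', dens_ent hs h2, one_ent hZ hs h2 h1', C.cont, C.per, h3, C.int, C.le_max, C.ex_max,
    C.del, ?_, ?_, ?_, ?_⟩
  · intro K ε hε
    obtain ⟨X₀, hX0, hX⟩ := C.loc K ε hε
    refine ⟨X₀, fun x hx k hk => ?_⟩
    have hx0 : 0 < x := by linarith
    have h6 := hX x hx (k : ℤ) (by push_cast; exact hk)
    have e : Real.log x / Real.log 3 - ((k : ℤ) : ℝ) * (Real.log 2 / Real.log 3) = Real.logb 3 (x / 2 ^ k) := by
      unfold Real.logb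
      rw [Real.log_div hx0.ne' (by positivity), Real.log_pow]
      push_cast
      ring
    rw [e, cE_NM] at h6
    have e2 : gn (2 / Real.log (4 / 3)) (2 * Real.log 3 ^ 2 / Real.log (4 / 3) ^ 3) x (k : ℤ) = gk x k := by
      unfold gn sd gk
      push_cast
      rfl
    rw [e2] at h6
    exact h6
  · obtain ⟨A, hA, h⟩ := C.up
    exact ⟨A, hA, fun x hx k => by rw [← cE_NM]; exact h x hx k⟩
  · intro ε hε
    obtain ⟨X₀, _, hX⟩ := C.mode ε hε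
    refine ⟨max X₀ (Real.exp ((ε + 1) ^ 2)), fun x hx => ?_⟩
    have hx1 : X₀ ≤ x := (le_max_left _ _).trans hx
    have hx2 : Real.exp ((ε + 1) ^ 2) ≤ x := (le_max_right _ _).trans hx
    have hxpos : 0 < x := (Real.exp_pos _).trans_le hx2
    have hlx : (ε + 1) ^ 2 ≤ Real.log x := by rwa [Real.le_log_iff_exp_le hxpos]
    have hsx : ε + 1 ≤ Real.sqrt (Real.log x) := Real.le_sqrt_of_sq_le hlx
    have hsq : Real.sqrt (Real.log x) * Real.sqrt (Real.log x) = Real.log x := Real.mul_self_sqrt (by nlinarith)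
    have hmu : 1 ≤ 2 / Real.log (4 / 3) := by
      have h5 : 0 < Real.log (4 / 3) := Real.log_pos (by norm_num)
      rw [le_div_iff₀ h5]
      have h6 := Real.log_le_sub_one_of_pos (show (0 : ℝ) < 4 / 3 by norm_num)
      linarith
    obtain ⟨g1, ⟨j, g2, g3⟩, g4⟩ := hX x hx1
    refine ⟨fun k => ?_, ?_, fun k hk => ?_⟩
    · rw [← cE_NM]; exact g1 k
    · have hj : 0 ≤ j := by
        have h7 := (abs_le.1 g2).1
        have h8 : Real.log x ≤ 2 / Real.log (4 / 3) * Real.log x := by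
          have : 0 ≤ Real.log x := by nlinarith
          nlinarith
        have h9 : (0 : ℝ) ≤ j := by nlinarith
        exact_mod_cast h9
      obtain ⟨k, rfl⟩ := Int.eq_ofNat_of_zero_le hj
      refine ⟨k, ?_, ?_⟩
      · have := g2
        push_cast at this
        exact this
      · rw [← cE_NM]; exact g3
    · have := g4 (k : ℤ) (fun i => ?_)
      · push_cast at this
        exact this
      · rcases lt_or_ge i 0 with hi | hi
        · have e0 : NM (EJZ Z s) x i = 0 := by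
            unfold NM
            rw [EJZ_neg hi]
            simp
          rw [e0]
          unfold NM
          positivity
        · obtain ⟨i, rfl⟩ := Int.eq_ofNat_of_zero_le hi
          rw [cE_NM, cE_NM]
          exact hk i
  · intro r hr
    refine (C.tup r hr).congr fun x => ?_
    rw [tup_ent Z s hr x]
    unfold sd
    rw [mul_comm]

end Pool.Agent.R468.MG
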