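import Pool.Agent.R468.MG.V

/-!
Entering a union of cycles of the `3x+1` map: all unions at once, countable additivity.
-/

set_option autoImplicit false

namespace Pool.Agent.R468.MG

open Finset Filter Topology
open Pool.Agent.R468.GL
open Pool.Agent.R468.MF
open Pool.Agent.H499R2.ND (Td HD Mg Mg_inv class_pos HD_compl dens_side HD_ncard Inv IsRp structure_d HD_unique)

/-! ### countable additivity of the density of invariant sets -/

theorem HD_iUnion {s : ℤ} (hs : s = 1 ∨ s = -1) {S : ℕ → Set ℤ} (hS : ∀ i, Inv 1 (S i))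
    (hdj : ∀ i j, i ≠ j → Disjoint (S i) (S j)) {l : ℕ → ℝ} {L : ℝ} (hl : ∀ i, HD s (S i) (l i))
    (hL : HD s (⋃ i, S i) L) : HasSum l L := by
  obtain ⟨δ, _, _, h3, _⟩ := structure_d (d := 1) odd_one (by omega) hs
  have hU : Inv 1 (⋃ i, S i) := by
    intro x
    rw [Set.mem_iUnion, Set.mem_iUnion]
    exact exists_congr fun i => hS i x
  have e : ∀ i, l i = ∑' a : {a : ℤ // IsRp 1 s a ∧ a ∈ S i}, δ a := fun i => HD_unique (hl i) (h3 _ (hS i)).2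
  have eL : L = ∑' a : {a : ℤ // IsRp 1 s a ∧ a ∈ ⋃ i, S i}, δ a := HD_unique hL (h3 _ hU).2
  have hsum := (h3 _ hU).1.hasSum
  let E : (Σ i : ℕ, {a : ℤ // IsRp 1 s a ∧ a ∈ S i}) ≃ {a : ℤ // IsRp 1 s a ∧ a ∈ ⋃ i, S i} :=
    Equiv.ofBijective (fun p => ⟨p.2.1, p.2.2.1, Set.mem_iUnion.2 ⟨p.1, p.2.2.2⟩⟩) (by
      constructor
      · rintro ⟨i, a, ha1, ha2⟩ ⟨j, b, hb1, hb2⟩ hab
        have hab' : a = b := congrArg Subtype.val hab
        subst hab'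
        have hij : i = j := by
          by_contra hne
          exact Set.disjoint_left.1 (hdj i j hne) ha2 hb2
        subst hij
        rfl
      · rintro ⟨a, ha1, ha2⟩
        obtain ⟨i, hi⟩ := Set.mem_iUnion.1 ha2
        exact ⟨⟨i, a, ha1, hi⟩, rfl⟩)
  have h5 : HasSum (fun p : (Σ i : ℕ, {a : ℤ // IsRp 1 s a ∧ a ∈ S i}) => δ p.2.1) L := by
    rw [eL]
    exact (E.hasSum_iff (f := fun a : {a : ℤ // IsRp 1 s a ∧ a ∈ ⋃ i, S i} => δ a.1)).2 hsum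
  refine h5.sigma fun i => ?_
  rw [e i]
  exact (h3 _ (hS i)).1.hasSum

/-! ### all unions of cycles -/

/-- the conclusions, without the assumption that `Z` has an element of sign `s` -/
structure Cd (Z : Set ℤ) (s : ℤ) (δ : ℝ) (Ψ : ℝ → ℝ) (M : ℝ) : Prop where
  nn : 0 ≤ δ
  le1 : δ ≤ 1
  pos : 0 < δ ↔ ∃ z ∈ Z, 0 < s * z
  hd : HD s (EZ 1 Z) δ
  one : δ = 1 ↔ ∀ n : ℕ, 1 ≤ n → ∃ k : ℕ, (Td 1)^[k] (s * n) ∈ Z
  cont : Continuous Ψ
  per : ∀ t, Ψ (t + 1) = Ψ t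
  bd : ∀ t, δ * (Real.log 3 / 2) ≤ Ψ t ∧ Ψ t ≤ δ * (3 * Real.log 3 / 2)
  int : ∫ t in (0 : ℝ)..1, Ψ t = δ
  le_max : ∀ t, Ψ t ≤ M
  ex_max : ∃ t, Ψ t = M
  del : δ ≤ M
  loc : LL (cE Z s) Ψ
  up : ∃ A : ℝ, 0 < A ∧ ∀ x : ℝ, 2 ≤ x → ∀ k : ℕ, cE Z s x k ≤ A * x / Real.sqrt (Real.log x)
  mode : 0 < δ → ∀ ε : ℝ, 0 < ε → ∃ X₀ : ℝ, ∀ x : ℝ, X₀ ≤ x →
    (∀ k : ℕ, cE Z s x k ≤
      (M + ε) * x / Real.sqrt (2 * Real.pi * (2 * Real.log 3 ^ 2 / Real.log (4 / 3) ^ 3 * Real.log x))) ∧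
    (∃ k : ℕ, |(k : ℝ) - 2 / Real.log (4 / 3) * Real.log x| ≤ ε * Real.sqrt (Real.log x) ∧
      (M - ε) * x / Real.sqrt (2 * Real.pi * (2 * Real.log 3 ^ 2 / Real.log (4 / 3) ^ 3 * Real.log x)) ≤ cE Z s x k) ∧
    ∀ k : ℕ, (∀ i : ℕ, cE Z s x i ≤ cE Z s x k) →
      |(k : ℝ) - 2 / Real.log (4 / 3) * Real.log x| ≤ ε * Real.sqrt (Real.log x)
  tup : ∀ r : ℕ, 1 ≤ r → Tendsto (fun x : ℝ =>
      ({w : Fin r → ℕ | (∀ i, 1 ≤ w i ∧ (w i : ℝ) ≤ x) ∧ ∃ k : ℕ, ∀ i, Ent Z (s * w i) k}.ncard : ℝ) *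
        (Real.sqrt (2 * Real.pi * (2 * Real.log 3 ^ 2 / Real.log (4 / 3) ^ 3 * Real.log x)) ^ (r - 1) / x ^ r)) atTop
      (𝓝 (1 / Real.sqrt r * ∫ t in (0 : ℝ)..1, Ψ t ^ r))

theorem HD_ent {Z : Set ℤ} (hZ : CU Z) {s : ℤ} (hs : s = 1 ∨ s = -1) {δ : ℝ}
    (h : Tendsto (fun X : ℕ => ({n : ℕ | 1 ≤ n ∧ n ≤ X ∧ ∃ k : ℕ, (Td 1)^[k] (s * n) ∈ Z}.ncard : ℝ) / X)
      atTop (𝓝 δ)) : HD s (EZ 1 Z) δ := by
  obtain ⟨l, _, _, hl⟩ := dens_side (d := 1) odd_one isCoprime_one_left hs (EZ_inv (CU_UC hZ))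
  have := tendsto_nhds_unique h (dens_ent hs hl)
  rwa [this]

theorem sgn_Z {Z : Set ℤ} {s : ℤ} (hs : s = 1 ∨ s = -1) (h : ¬ ∃ z ∈ Z, 0 < s * z) {n : ℕ} (hn : 1 ≤ n) (k : ℕ) :
    (Td 1)^[k] (s * (n : ℤ)) ∉ Z := by
  intro h1
  apply h
  refine ⟨_, h1, sgn_iter hs ?_ k⟩
  have : s * (s * (n : ℤ)) = n := by rcases hs with rfl | rfl <;> ring
  rw [this]
  exact_mod_cast hn

theorem ent_d {Z : Set ℤ} (hZ : CU Z) {s : ℤ} (hs : s = 1 ∨ s = -1) :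
    ∃ (δ : ℝ) (Ψ : ℝ → ℝ) (M : ℝ), Cd Z s δ Ψ M := by
  by_cases hne : ∃ z ∈ Z, 0 < s * z
  · obtain ⟨δ, Ψ, M, C⟩ := ent_T hZ hs hne
    exact ⟨δ, Ψ, M, C.pos.le, C.le1, ⟨fun _ => hne, fun _ => C.pos⟩, HD_ent hZ hs C.dens, C.one, C.cont, C.per, C.bd,
      C.int, C.le_max, C.ex_max, C.del, C.loc, C.up, fun _ => C.mode, C.tup⟩
  · have hc : ∀ x k, cE Z s x k = 0 := by
      intro x k
      unfold cE
      have : {n : ℕ | 1 ≤ n ∧ (n : ℝ) ≤ x ∧ Ent Z (s * n) k} = ∅ := by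
        ext n
        constructor
        · rintro ⟨h1, _, h2, _⟩
          exact absurd h2 (sgn_Z hs hne h1 k)
        · exact fun h => absurd h (Set.notMem_empty n)
      rw [this]
      simp
    refine ⟨0, fun _ => 0, 0, le_rfl, zero_le_one, ?_, ?_, ?_, continuous_const, fun _ => rfl, fun _ => by simp,
      by simp, fun _ => le_rfl, ⟨0, rfl⟩, le_rfl, ?_, ?_, fun h => absurd h (lt_irrefl _), ?_⟩
    · exact ⟨fun h => absurd h (lt_irrefl _), fun h => absurd h hne⟩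
    · apply HD_ent hZ hs
      refine tendsto_const_nhds.congr fun X => ?_
      have : {n : ℕ | 1 ≤ n ∧ n ≤ X ∧ ∃ k : ℕ, (Td 1)^[k] (s * n) ∈ Z} = ∅ := by
        ext n
        constructor
        · rintro ⟨h1, _, k, h2⟩
          exact absurd h2 (sgn_Z hs hne h1 k)
        · exact fun h => absurd h (Set.notMem_empty n)
      rw [this]
      simp
    · constructor
      · intro h; norm_num at h
      · intro h
        obtain ⟨k, hk⟩ := h 1 le_rfl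
        exact absurd hk (sgn_Z hs hne le_rfl k)
    · intro K ε hε
      refine ⟨0, fun x _ k _ => ?_⟩
      rw [hc]
      simp only [zero_div, sub_zero, abs_zero]
      exact hε.le
    · refine ⟨1, one_pos, fun x hx k => ?_⟩
      rw [hc]
      positivity
    · intro r hr
      have e : (fun x : ℝ =>
        ({w : Fin r → ℕ | (∀ i, 1 ≤ w i ∧ (w i : ℝ) ≤ x) ∧ ∃ k : ℕ, ∀ i, Ent Z (s * w i) k}.ncard : ℝ) *
        (Real.sqrt (2 * Real.pi * (2 * Real.log 3 ^ 2 / Real.log (4 / 3) ^ 3 * Real.log x)) ^ (r - 1) / x ^ r)) =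
          fun _ => 0 := by
        funext x
        have : {w : Fin r → ℕ | (∀ i, 1 ≤ w i ∧ (w i : ℝ) ≤ x) ∧ ∃ k : ℕ, ∀ i, Ent Z (s * w i) k} = ∅ := by
          ext w
          constructor
          · rintro ⟨h1, k, h2⟩
            have i0 : Fin r := ⟨0, hr⟩
            exact absurd (h2 i0).1 (sgn_Z hs hne (h1 i0).1 k)
          · exact fun h => absurd h (Set.notMem_empty w)
        rw [this]
        simp
      rw [e]
      have e2 : (1 / Real.sqrt r * ∫ t in (0 : ℝ)..1, (0 : ℝ) ^ r) = 0 := by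
        rw [zero_pow (by omega)]
        simp
      rw [e2]
      exact tendsto_const_nhds

/-! ### additivity -/

theorem CU_union {Z Z' : Set ℤ} (h : CU Z) (h' : CU Z') : CU (Z ∪ Z') := by
  rintro z (hz | hz)
  · obtain ⟨h1, h2⟩ := h z hz
    exact ⟨Or.inl h1, h2⟩
  · obtain ⟨h1, h2⟩ := h' z hz
    exact ⟨Or.inr h1, h2⟩

theorem CU_iUnion {ι : Type*} {Z : ι → Set ℤ} (h : ∀ i, CU (Z i)) : CU (⋃ i, Z i) := by
  intro z hz
  obtain ⟨i, hi⟩ := Set.mem_iUnion.1 hz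
  obtain ⟨h1, h2⟩ := h i z hi
  exact ⟨Set.mem_iUnion.2 ⟨i, h1⟩, h2⟩

theorem Ent_union {Z Z' : Set ℤ} (h : CU Z) (h' : CU Z') (hd : Disjoint Z Z') (x : ℤ) (k : ℕ) :
    Ent (Z ∪ Z') x k ↔ Ent Z x k ∨ Ent Z' x k := by
  have key : ∀ {Y Y' : Set ℤ}, CU Y' → Disjoint Y Y' → Ent Y x k → Ent (Y ∪ Y') x k := by
    intro Y Y' hY' hdd hE
    refine ⟨Or.inl hE.1, fun i hi hcon => ?_⟩
    rcases hcon with hc | hc
    · exact hE.2 i hi hc
    · have := CU_iter hY' hc (k - i)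
      rw [← Function.iterate_add_apply, Nat.sub_add_cancel hi.le] at this
      exact Set.disjoint_left.1 hdd hE.1 this
  constructor
  · rintro ⟨h1 | h1, h2⟩
    · exact Or.inl ⟨h1, fun i hi hc => h2 i hi (Or.inl hc)⟩
    · exact Or.inr ⟨h1, fun i hi hc => h2 i hi (Or.inr hc)⟩
  · rintro (hE | hE)
    · exact key h' hd hE
    · rw [Set.union_comm]
      exact key h hd.symm hE

theorem cE_union {Z Z' : Set ℤ} (h : CU Z) (h' : CU Z') (hd : Disjoint Z Z') (s : ℤ) :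
    cE (Z ∪ Z') s = fun x k => cE Z s x k + cE Z' s x k := by
  funext x k
  unfold cE
  have e : {n : ℕ | 1 ≤ n ∧ (n : ℝ) ≤ x ∧ Ent (Z ∪ Z') (s * n) k} =
      {n : ℕ | 1 ≤ n ∧ (n : ℝ) ≤ x ∧ Ent Z (s * n) k} ∪ {n : ℕ | 1 ≤ n ∧ (n : ℝ) ≤ x ∧ Ent Z' (s * n) k} := by
    ext n
    simp only [Set.mem_union, Set.mem_ofPred_eq]
    rw [Ent_union h h' hd]
    tauto
  have hf : {n : ℕ | (n : ℝ) ≤ x}.Finite := by
    apply (Set.finite_Iic ⌊x⌋₊).subset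
    intro n hn
    exact Nat.le_floor hn
  have f1 : {n : ℕ | 1 ≤ n ∧ (n : ℝ) ≤ x ∧ Ent Z (s * n) k}.Finite := hf.subset fun n hn => hn.2.1
  have f2 : {n : ℕ | 1 ≤ n ∧ (n : ℝ) ≤ x ∧ Ent Z' (s * n) k}.Finite := hf.subset fun n hn => hn.2.1
  have hdj : Disjoint {n : ℕ | 1 ≤ n ∧ (n : ℝ) ≤ x ∧ Ent Z (s * n) k}
      {n : ℕ | 1 ≤ n ∧ (n : ℝ) ≤ x ∧ Ent Z' (s * n) k} := by
    rw [Set.disjoint_left]
    rintro n ⟨_, _, h1, h3⟩ ⟨_, _, h2, h4⟩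
    exact Set.disjoint_left.1 hd h1 h2
  rw [e, Set.ncard_union_eq hdj f1 f2]
  push_cast
  ring

theorem Psi_union {Z Z' : Set ℤ} (h : CU Z) (h' : CU Z') (hd : Disjoint Z Z') {s : ℤ} {δ δ' δ'' : ℝ}
    {Ψ Ψ' Ψ'' : ℝ → ℝ} {M M' M'' : ℝ} (C : Cd Z s δ Ψ M) (C' : Cd Z' s δ' Ψ' M') (C'' : Cd (Z ∪ Z') s δ'' Ψ'' M'') :
    δ'' = δ + δ' ∧ ∀ u, Ψ'' u = Ψ u + Ψ' u := by
  have h1 : ∀ u, Ψ'' u = Ψ u + Ψ' u := by
    have h2 := C''.loc
    rw [cE_union h h' hd] at h2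
    have h3 := LL_add C.loc C'.loc
    intro u
    exact LL_uni h2 h3 C''.per (fun t => by rw [C.per, C'.per]) u
  refine ⟨?_, h1⟩
  rw [← C.int, ← C'.int, ← C''.int, ← intervalIntegral.integral_add
    (C.cont.intervalIntegrable _ _) (C'.cont.intervalIntegrable _ _)]
  exact intervalIntegral.integral_congr fun u _ => h1 u

theorem EZ_iUnion (Z : ℕ → Set ℤ) : EZ 1 (⋃ i, Z i) = ⋃ i, EZ 1 (Z i) := by
  ext x
  simp only [Set.mem_iUnion]
  constructor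
  · rintro ⟨k, hk⟩
    obtain ⟨i, hi⟩ := Set.mem_iUnion.1 hk
    exact ⟨i, k, hi⟩
  · rintro ⟨i, k, hk⟩
    exact ⟨k, Set.mem_iUnion.2 ⟨i, hk⟩⟩

theorem EZ_disj {Z Z' : Set ℤ} (h : CU Z) (h' : CU Z') (hd : Disjoint Z Z') : Disjoint (EZ 1 Z) (EZ 1 Z') := by
  rw [Set.disjoint_left]
  rintro x ⟨k, hk⟩ ⟨m, hm⟩
  have h1 := CU_iter h hk m
  have h2 := CU_iter h' hm k
  rw [← Function.iterate_add_apply] at h1 h2
  rw [Nat.add_comm] at h2
  exact Set.disjoint_left.1 hd h1 h2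

theorem add_all {s : ℤ} (hs : s = 1 ∨ s = -1) {δ M : Set ℤ → ℝ} {Ψ : Set ℤ → ℝ → ℝ}
    (H : ∀ Z, CU Z → Cd Z s (δ Z) (Ψ Z) (M Z)) (Z : ℕ → Set ℤ) (hZ : ∀ i, CU (Z i))
    (hdj : ∀ i j, i ≠ j → Disjoint (Z i) (Z j)) :
    HasSum (fun i => δ (Z i)) (δ (⋃ i, Z i)) ∧ ∀ u, HasSum (fun i => Ψ (Z i) u) (Ψ (⋃ i, Z i) u) := by
  have hU := CU_iUnion hZ
  have h1 : HasSum (fun i => δ (Z i)) (δ (⋃ i, Z i)) := by
    apply HD_iUnion hs (S := fun i => EZ 1 (Z i)) (fun i => EZ_inv (CU_UC (hZ i)))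
      (fun i j hij => EZ_disj (hZ i) (hZ j) (hdj i j hij)) (fun i => (H _ (hZ i)).hd)
    rw [← EZ_iUnion]
    exact (H _ hU).hd
  refine ⟨h1, fun u => ?_⟩
  -- the finite unions and the rests
  set U : ℕ → Set ℤ := fun n => ⋃ i : {i : ℕ // i < n}, Z i with hUdef
  set R : ℕ → Set ℤ := fun n => ⋃ i : {i : ℕ // n ≤ i}, Z i with hRdef
  have hUc : ∀ n, CU (U n) := fun n => CU_iUnion fun i => hZ i
  have hRc : ∀ n, CU (R n) := fun n => CU_iUnion fun i => hZ i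
  have hsplit : ∀ n, U n ∪ R n = ⋃ i, Z i := by
    intro n
    ext z
    constructor
    · rintro (hz | hz)
      · obtain ⟨i, hi⟩ := Set.mem_iUnion.1 hz
        exact Set.mem_iUnion.2 ⟨i, hi⟩
      · obtain ⟨i, hi⟩ := Set.mem_iUnion.1 hz
        exact Set.mem_iUnion.2 ⟨i, hi⟩
    · intro hz
      obtain ⟨i, hi⟩ := Set.mem_iUnion.1 hz
      rcases lt_or_ge i n with h | h
      · exact Or.inl (Set.mem_iUnion.2 ⟨⟨i, h⟩, hi⟩)
      · exact Or.inr (Set.mem_iUnion.2 ⟨⟨i, h⟩, hi⟩)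
  have hURd : ∀ n, Disjoint (U n) (R n) := by
    intro n
    rw [Set.disjoint_left]
    intro z hz hz'
    obtain ⟨⟨i, hi⟩, hi'⟩ := Set.mem_iUnion.1 hz
    obtain ⟨⟨j, hj⟩, hj'⟩ := Set.mem_iUnion.1 hz'
    exact Set.disjoint_left.1 (hdj i j (by omega)) hi' hj'
  have hstep : ∀ n, U (n + 1) = U n ∪ Z n := by
    intro n
    ext z
    constructor
    · intro hz
      obtain ⟨⟨i, hi⟩, hi'⟩ := Set.mem_iUnion.1 hz
      rcases Nat.lt_succ_iff_lt_or_eq.1 hi with h | h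
      · exact Or.inl (Set.mem_iUnion.2 ⟨⟨i, h⟩, hi'⟩)
      · right
        rw [← h]
        exact hi'
    · rintro (hz | hz)
      · obtain ⟨⟨i, hi⟩, hi'⟩ := Set.mem_iUnion.1 hz
        exact Set.mem_iUnion.2 ⟨⟨i, by omega⟩, hi'⟩
      · exact Set.mem_iUnion.2 ⟨⟨n, by omega⟩, hz⟩
  have hUZ : ∀ n, Disjoint (U n) (Z n) := by
    intro n
    rw [Set.disjoint_left]
    intro z hz hz'
    obtain ⟨⟨i, hi⟩, hi'⟩ := Set.mem_iUnion.1 hz
    exact Set.disjoint_left.1 (hdj i n (by omega)) hi' hz'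
  have hfin : ∀ n, δ (U n) = ∑ i ∈ range n, δ (Z i) ∧ Ψ (U n) u = ∑ i ∈ range n, Ψ (Z i) u := by
    intro n
    induction n with
    | zero =>
      have e : U 0 = ∅ := by
        ext z
        constructor
        · intro hz
          obtain ⟨⟨i, hi⟩, _⟩ := Set.mem_iUnion.1 hz
          omega
        · exact fun h => absurd h (Set.notMem_empty z)
      have h5 := H _ (hUc 0)
      rw [e] at h5
      have h6 : δ (∅ : Set ℤ) = 0 := by
        by_contra hne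
        obtain ⟨z, hz, _⟩ := h5.pos.1 (lt_of_le_of_ne h5.nn (Ne.symm hne))
        exact Set.notMem_empty z hz
      have h7 := h5.bd u
      rw [h6, zero_mul, zero_mul] at h7
      rw [e, h6]
      simp only [range_zero, sum_empty]
      exact ⟨trivial, le_antisymm h7.2 h7.1⟩
    | succ n ih =>
      have h5 := Psi_union (hUc n) (hZ n) (hUZ n) (H _ (hUc n)) (H _ (hZ n)) (H _ (CU_union (hUc n) (hZ n)))
      rw [← hstep] at h5
      rw [sum_range_succ, sum_range_succ, ← ih.1, ← ih.2]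
      exact ⟨h5.1, h5.2 u⟩
  have hrest : ∀ n, δ (⋃ i, Z i) = ∑ i ∈ range n, δ (Z i) + δ (R n) ∧
      Ψ (⋃ i, Z i) u = ∑ i ∈ range n, Ψ (Z i) u + Ψ (R n) u := by
    intro n
    have h5 := Psi_union (hUc n) (hRc n) (hURd n) (H _ (hUc n)) (H _ (hRc n)) (H _ (CU_union (hUc n) (hRc n)))
    rw [hsplit] at h5
    rw [← (hfin n).1, ← (hfin n).2]
    exact ⟨h5.1, h5.2 u⟩
  have hnn : ∀ i, 0 ≤ Ψ (Z i) u := by
    intro i
    have h5 := H _ (hZ i)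
    have h6 := (h5.bd u).1
    have h7 := h5.nn
    have h8 : 0 < Real.log 3 := Real.log_pos (by norm_num)
    exact le_trans (by positivity) h6
  rw [hasSum_iff_tendsto_nat_of_nonneg hnn]
  have hR0 : Tendsto (fun n => δ (R n)) atTop (𝓝 0) := by
    have h5 := h1.tendsto_sum_nat
    have h6 := h5.const_sub (δ (⋃ i, Z i))
    rw [sub_self] at h6
    refine h6.congr fun n => ?_
    rw [(hrest n).1]
    ring
  have hPR : Tendsto (fun n => Ψ (R n) u) atTop (𝓝 0) := by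
    have h6 := hR0.mul_const (3 * Real.log 3 / 2)
    rw [zero_mul] at h6
    refine tendsto_of_tendsto_of_tendsto_of_le_of_le tendsto_const_nhds h6 (fun n => ?_) (fun n => ?_)
    · have h5 := H _ (hRc n)
      have h7 := h5.nn
      have h8 : 0 < Real.log 3 := Real.log_pos (by norm_num)
      exact le_trans (by positivity) (h5.bd u).1
    · exact ((H _ (hRc n)).bd u).2
  have h9 := hPR.const_sub (Ψ (⋃ i, Z i) u)
  rw [sub_zero] at h9
  refine h9.congr fun n => ?_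
  rw [(hrest n).2]
  ring

/-! ### the unaccelerated map -/

/-- the Collatz map on the integers -/
def Cm (x : ℤ) : ℤ := if x % 2 = 0 then x / 2 else 3 * x + 1

theorem Td_Cm (x : ℤ) : Td 1 x = if x % 2 = 0 then Cm x else Cm (Cm x) := by
  unfold Td Cm
  split_ifs with h1 h2
  · rfl
  · rfl
  · omega

theorem T_in_C (k : ℕ) (x : ℤ) : ∃ j : ℕ, (Td 1)^[k] x = Cm^[j] x := by
  induction k with
  | zero => exact ⟨0, rfl⟩
  | succ k ih =>
    obtain ⟨j, hj⟩ := ih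
    rw [Function.iterate_succ_apply', Td_Cm]
    split_ifs with h
    · exact ⟨j + 1, by rw [Function.iterate_succ_apply', hj]⟩
    · exact ⟨j + 2, by rw [Function.iterate_succ_apply', Function.iterate_succ_apply', hj]⟩

theorem C_in_T (j : ℕ) (x : ℤ) : ∃ k : ℕ, Cm^[j] x = (Td 1)^[k] x ∨
    ((Td 1)^[k] x % 2 ≠ 0 ∧ Cm^[j] x = 3 * (Td 1)^[k] x + 1) := by
  induction j with
  | zero => exact ⟨0, Or.inl rfl⟩
  | succ j ih =>
    obtain ⟨k, hk | ⟨h1, h2⟩⟩ := ih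
    · rw [Function.iterate_succ_apply', hk]
      by_cases h : (Td 1)^[k] x % 2 = 0
      · refine ⟨k + 1, Or.inl ?_⟩
        rw [Function.iterate_succ_apply', Td_Cm, if_pos h]
      · refine ⟨k, Or.inr ⟨h, ?_⟩⟩
        unfold Cm
        rw [if_neg h]
    · refine ⟨k + 1, Or.inl ?_⟩
      rw [Function.iterate_succ_apply', Function.iterate_succ_apply', h2, Td_Cm, if_neg h1]
      congr 1
      unfold Cm
      rw [if_neg h1]

theorem reach_iff {Z : Set ℤ} (hZ : ∀ z ∈ Z, Td 1 z ∈ Z) (x : ℤ) :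
    (∃ k : ℕ, Cm^[k] x ∈ Z) ↔ ∃ k : ℕ, (Td 1)^[k] x ∈ Z := by
  constructor
  · rintro ⟨j, hj⟩
    obtain ⟨k, hk | ⟨h1, h2⟩⟩ := C_in_T j x
    · exact ⟨k, hk ▸ hj⟩
    · refine ⟨k + 1, ?_⟩
      have h3 := hZ _ hj
      rw [h2] at h3
      rw [Function.iterate_succ_apply']
      have e : ∀ t : ℤ, t % 2 ≠ 0 → Td 1 (3 * t + 1) = Td 1 t := by
        intro t ht
        have h4 : (3 * t + 1) % 2 = 0 := by omega
        unfold Td
        rw [if_pos h4, if_neg ht]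
      rwa [e _ h1] at h3
  · rintro ⟨k, hk⟩
    obtain ⟨j, hj⟩ := T_in_C k x
    exact ⟨j, hj ▸ hk⟩

/-! ### the known cycles -/

/-- the five known cycles of the accelerated map -/
def KT : Set ℤ := {1, 2, -1, -5, -7, -10, -17, -25, -37, -55, -82, -41, -61, -91, -136, -68, -34, 0}

/-- the five known cycles of the Collatz map -/
def KC : Set ℤ := {1, 4, 2, -1, -2, -5, -14, -7, -20, -10, -17, -50, -25, -74, -37, -110, -55, -164, -82, -41, -122,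
  -61, -182, -91, -272, -136, -68, -34, 0}

theorem KT_CU : CU KT := by
  have per : ∀ z : ℤ, (z = 0 ∨ z = -1) ∨ (z = 1 ∨ z = 2) ∨ (z = -5 ∨ z = -7 ∨ z = -10) ∨
      (z = -17 ∨ z = -25 ∨ z = -37 ∨ z = -55 ∨ z = -82 ∨ z = -41 ∨ z = -61 ∨ z = -91 ∨ z = -136 ∨ z = -68 ∨
        z = -34) → ∃ p : ℕ, 1 ≤ p ∧ (Td 1)^[p] z = z := by
    rintro z (h | h | h | h)
    · exact ⟨1, le_rfl, by rcases h with rfl | rfl <;> decide⟩
    · exact ⟨2, by norm_num, by rcases h with rfl | rfl <;> decide⟩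
    · exact ⟨3, by norm_num, by rcases h with rfl | rfl | rfl <;> decide⟩
    · exact ⟨11, by norm_num, by
        rcases h with rfl | rfl | rfl | rfl | rfl | rfl | rfl | rfl | rfl | rfl | rfl <;>
          simp [Td, Function.iterate_succ_apply]⟩
  intro z hz
  simp only [KT, Set.mem_insert_iff, Set.mem_singleton_iff] at hz
  refine ⟨?_, per z (by tauto)⟩
  rcases hz with rfl | rfl | rfl | rfl | rfl | rfl | rfl | rfl | rfl | rfl | rfl | rfl | rfl | rfl | rfl | rfl |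
    rfl | rfl <;> simp [KT, Td]

theorem KC_iff (x : ℤ) : (∃ k : ℕ, Cm^[k] x ∈ KC) ↔ ∃ k : ℕ, Cm^[k] x ∈ KT := by
  constructor
  · rintro ⟨k, hk⟩
    have key : ∀ z ∈ KC, z ∈ KT ∨ Cm z ∈ KT := by
      intro z hz
      simp only [KC, Set.mem_insert_iff, Set.mem_singleton_iff] at hz
      rcases hz with rfl | rfl | rfl | rfl | rfl | rfl | rfl | rfl | rfl | rfl | rfl | rfl | rfl | rfl | rfl | rfl |
        rfl | rfl | rfl | rfl | rfl | rfl | rfl | rfl | rfl | rfl | rfl | rfl | rfl <;> simp [KT, Cm]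
    rcases key _ hk with h | h
    · exact ⟨k, h⟩
    · exact ⟨k + 1, by rw [Function.iterate_succ_apply']; exact h⟩
  · rintro ⟨k, hk⟩
    refine ⟨k, ?_⟩
    generalize Cm^[k] x = z at hk
    simp only [KT, Set.mem_insert_iff, Set.mem_singleton_iff] at hk
    rcases hk with rfl | rfl | rfl | rfl | rfl | rfl | rfl | rfl | rfl | rfl | rfl | rfl | rfl | rfl | rfl | rfl |
      rfl | rfl <;> simp [KC]

/-- all unions of cycles at once -/
theorem all_T : ∃ (δ : ℤ → Set ℤ → ℝ) (Ψ : ℤ → Set ℤ → ℝ → ℝ) (M : ℤ → Set ℤ → ℝ),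
    (∀ s : ℤ, s = 1 ∨ s = -1 → (∀ Z : Set ℤ, CU Z → Cd Z s (δ s Z) (Ψ s Z) (M s Z)) ∧
      ∀ Z : ℕ → Set ℤ, (∀ i, CU (Z i)) → (∀ i j, i ≠ j → Disjoint (Z i) (Z j)) →
        HasSum (fun i => δ s (Z i)) (δ s (⋃ i, Z i)) ∧ ∀ u, HasSum (fun i => Ψ s (Z i) u) (Ψ s (⋃ i, Z i) u)) ∧
    ((∀ x : ℤ, ∃ k : ℕ, Cm^[k] x ∈ KC) ↔ δ 1 KT = 1 ∧ δ (-1) KT = 1) := by
  have h : ∀ (s : ℤ) (Z : Set ℤ), ∃ (δ : ℝ) (Ψ : ℝ → ℝ) (M : ℝ), (s = 1 ∨ s = -1) → CU Z → Cd Z s δ Ψ M := by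
    intro s Z
    by_cases hs : s = 1 ∨ s = -1
    · by_cases hZ : CU Z
      · obtain ⟨δ, Ψ, M, C⟩ := ent_d hZ hs
        exact ⟨δ, Ψ, M, fun _ _ => C⟩
      · exact ⟨0, 0, 0, fun _ h => absurd h hZ⟩
    · exact ⟨0, 0, 0, fun h => absurd h hs⟩
  choose δ Ψ M H using h
  refine ⟨δ, Ψ, M, fun s hs => ⟨fun Z hZ => H s Z hs hZ, fun Z hZ hdj =>
    add_all (δ := δ s) (M := M s) (Ψ := Ψ s) hs (fun Z hZ => H s Z hs hZ) Z hZ hdj⟩, ?_⟩
  rw [(H 1 KT (Or.inl rfl) KT_CU).one, (H (-1) KT (Or.inr rfl) KT_CU).one]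
  constructor
  · intro h
    have h' : ∀ x : ℤ, ∃ k : ℕ, (Td 1)^[k] x ∈ KT := fun x =>
      (reach_iff (fun z hz => (KT_CU z hz).1) x).1 ((KC_iff x).1 (h x))
    exact ⟨fun n _ => h' _, fun n _ => h' _⟩
  · rintro ⟨h1, h2⟩ x
    rw [KC_iff, reach_iff (fun z hz => (KT_CU z hz).1)]
    rcases lt_trichotomy x 0 with hx | hx | hx
    · have := h2 x.natAbs (by omega)
      have e : (-1 : ℤ) * (x.natAbs : ℤ) = x := by omega
      rwa [e] at this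
    · refine ⟨0, ?_⟩
      rw [hx]
      simp [KT]
    · have := h1 x.natAbs (by omega)
      have e : (1 : ℤ) * (x.natAbs : ℤ) = x := by omega
      rwa [e] at this

end Pool.Agent.R468.MG
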